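import Pool.Agent.ThPL.Defs

/-! # From a compression to a factorisation -/

namespace ThPL
open Polynomial Module Matrix

variable {K : Type*} [Field K] {κ : Type*} [Fintype κ] [DecidableEq κ]

-- BEGIN ka
/-- MODULE ka (private). The characteristic polynomial of a scalar matrix of size one. -/
theorem ka_scalar (l : K) : (l • (1 : Matrix Unit Unit K)).charpoly = X - C l := by
  rw [Matrix.charpoly, Matrix.det_unique, charmatrix_apply]
  simp

/-- MODULE ka (private). The product of the constant coefficients. -/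
theorem ka_coeff (Z1 Z2 : Matrix κ κ K) : (Z1.charpoly).coeff 0 * (Z2.charpoly).coeff 0 = Z1.det * Z2.det := by
  rw [Matrix.det_eq_sign_charpoly_coeff Z1, Matrix.det_eq_sign_charpoly_coeff Z2]
  have : ((-1 : K) ^ Fintype.card κ) * (-1) ^ Fintype.card κ = 1 := by
    rw [← mul_pow]; simp
  linear_combination (-(Z1.charpoly).coeff 0 * (Z2.charpoly).coeff 0) * this

/-- MODULE ka. `S = Z1' Z2' = B⁻¹`. `det N = det B (ν - ψ S k)` (`Matrix.det_fromBlocks₂₂`), `det S = f1(0) f2(0)`, so `l1 l2 (ν - ψ S k) = 1`.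
`Z1 = fromBlocks l1 0 (-l1 S k) Z1'`, `Z2 = fromBlocks l2 (-l2 ψ S) 0 Z2'`: multiply out; characteristic polynomials by `Matrix.charpoly_fromBlocks_zero₁₂ / ₂₁`. -/
theorem comp_fact (ν : Matrix Unit Unit K) (ψ : Matrix Unit κ K) (k : Matrix κ Unit K) (B Z1' Z2' : Matrix κ κ K) (hB : B * (Z1' * Z2') = 1)
    {l1 l2 : K} (hdet : l1 * l2 * ((Z1'.charpoly).coeff 0 * (Z2'.charpoly).coeff 0) * (fromBlocks ν ψ k B).det = 1) :
    ∃ Z1 Z2 : Matrix (Unit ⊕ κ) (Unit ⊕ κ) K, Z1.charpoly = (X - C l1) * Z1'.charpoly ∧ Z2.charpoly = (X - C l2) * Z2'.charpoly ∧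
      fromBlocks ν ψ k B * (Z1 * Z2) = 1 := by
  have hd1 : B.det * (Z1'.det * Z2'.det) = 1 := by
    rw [← Matrix.det_mul, ← Matrix.det_mul, hB, Matrix.det_one]
  have hone : (l1 * l2) • (ν - ψ * (Z1' * Z2') * k) = 1 := by
    let _ : Invertible B := ⟨Z1' * Z2', mul_eq_one_comm.mp hB, hB⟩
    have hinv : ⅟B = Z1' * Z2' := rfl
    rw [Matrix.det_fromBlocks₂₂, hinv, ka_coeff, Matrix.det_unique (ν - ψ * (Z1' * Z2') * k)] at hdet
    ext i j
    have hi : i = default := Subsingleton.elim _ _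
    have hj : j = default := Subsingleton.elim _ _
    subst hi; subst hj
    rw [Matrix.smul_apply, smul_eq_mul, Matrix.one_apply_eq]
    linear_combination hdet - (l1 * l2 * (ν - ψ * (Z1' * Z2') * k) default default) * hd1
  refine ⟨fromBlocks (l1 • 1) 0 (-(l1 • ((Z1' * Z2') * k))) Z1', fromBlocks (l2 • 1) (-(l2 • (ψ * (Z1' * Z2')))) 0 Z2', ?_, ?_, ?_⟩
  · rw [Matrix.charpoly_fromBlocks_zero₁₂, ka_scalar]
  · rw [Matrix.charpoly_fromBlocks_zero₂₁, ka_scalar]
  · generalize hS : Z1' * Z2' = S at *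
    have h3 : B * (S * k) = k := by rw [← Matrix.mul_assoc, hB, Matrix.one_mul]
    have hT : S * k * (ψ * S) = S * (k * (ψ * S)) := Matrix.mul_assoc _ _ _
    have e0 : fromBlocks (l1 • (1 : Matrix Unit Unit K)) (0 : Matrix Unit κ K) (-(l1 • (S * k))) Z1' *
        fromBlocks (l2 • (1 : Matrix Unit Unit K)) (-(l2 • (ψ * S))) (0 : Matrix κ Unit K) Z2' =
        fromBlocks ((l1 * l2) • (1 : Matrix Unit Unit K)) (-((l1 * l2) • (ψ * S))) (-((l1 * l2) • (S * k))) ((l1 * l2) • (S * (k * (ψ * S))) + S) := by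
      rw [Matrix.fromBlocks_multiply]
      congr 1
      · rw [Matrix.mul_zero, add_zero, Matrix.smul_mul, Matrix.one_mul, smul_smul]
      · rw [Matrix.zero_mul, add_zero, Matrix.mul_neg, Matrix.smul_mul, Matrix.one_mul, smul_smul]
      · rw [Matrix.mul_zero, add_zero, Matrix.neg_mul, Matrix.mul_smul, Matrix.mul_one, smul_smul, mul_comm l2 l1]
      · rw [hS, Matrix.neg_mul, Matrix.mul_neg, neg_neg, Matrix.smul_mul, Matrix.mul_smul, smul_smul, hT]
    rw [e0, Matrix.fromBlocks_multiply, ← Matrix.fromBlocks_one]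
    congr 1
    · rw [Matrix.mul_smul, Matrix.mul_one, Matrix.mul_neg, Matrix.mul_smul, ← Matrix.mul_assoc, ← sub_eq_add_neg, ← smul_sub, hone]
    · have h2 : ((l1 * l2) • (ν - ψ * S * k)) * (ψ * S) = ψ * S := by rw [hone, Matrix.one_mul]
      rw [Matrix.smul_mul, Matrix.sub_mul, Matrix.mul_assoc (ψ * S) k, Matrix.mul_assoc ψ S, smul_sub] at h2
      rw [Matrix.mul_neg, Matrix.mul_smul, Matrix.mul_add, Matrix.mul_smul]
      nth_rewrite 3 [← h2]
      abel
    · rw [Matrix.mul_smul, Matrix.mul_one, Matrix.mul_neg, Matrix.mul_smul, h3]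
      abel
    · rw [Matrix.mul_neg, Matrix.mul_smul, Matrix.mul_add, Matrix.mul_smul, ← Matrix.mul_assoc B S, hB, Matrix.one_mul]
      abel
-- END ka

variable {V : Type*} [AddCommGroup V] [Module K V] [FiniteDimensional K V]

-- BEGIN kb
/-- MODULE kb. Basis form: the matrix of `N` in the basis `e` is `fromBlocks ν ψ k B`; `comp_fact`, `toLin`, `LinearMap.charpoly_toMatrix`, `LinearMap.det_toMatrix`. -/
theorem fac_of_basis (e : Basis (Unit ⊕ κ) K V) (N : Module.End K V) (B Z1' Z2' : Matrix κ κ K)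
    (hN : ∀ j, ∃ c : K, N (e (Sum.inr j)) = c • e (Sum.inl ()) + ∑ i, B i j • e (Sum.inr i)) (hB : B * (Z1' * Z2') = 1)
    {f1 f2 : K[X]} (h1 : Z1'.charpoly = f1) (h2 : Z2'.charpoly = f2) {l1 l2 : K} (hdet : l1 * l2 * (f1.coeff 0 * f2.coeff 0) * LinearMap.det N = 1) :
    Fac N ((X - C l1) * f1) ((X - C l2) * f2) := by
  set A : Matrix (Unit ⊕ κ) (Unit ⊕ κ) K := LinearMap.toMatrix e e N with hA
  have h22 : A.toBlocks₂₂ = B := by
    ext i j
    obtain ⟨c, hc⟩ := hN j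
    show A (Sum.inr i) (Sum.inr j) = B i j
    rw [hA, LinearMap.toMatrix_apply, hc, map_add, map_smul, map_sum]
    simp only [map_smul, Basis.repr_self, Finsupp.coe_add, Finsupp.coe_smul, Pi.add_apply, Pi.smul_apply, smul_eq_mul, Finsupp.coe_finsetSum,
      Finset.sum_apply]
    rw [Finsupp.single_apply, if_neg Sum.inl_ne_inr, mul_zero, zero_add, Finset.sum_eq_single i]
    · rw [Finsupp.single_apply, if_pos rfl, mul_one]
    · intro b _ hb
      rw [Finsupp.single_apply, if_neg (fun h => hb (Sum.inr_injective h)), mul_zero]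
    · intro h
      exact absurd (Finset.mem_univ i) h
  have hA' : A = fromBlocks A.toBlocks₁₁ A.toBlocks₁₂ A.toBlocks₂₁ B := by
    rw [← h22, fromBlocks_toBlocks]
  obtain ⟨Z1, Z2, hZ1, hZ2, hZ⟩ := comp_fact A.toBlocks₁₁ A.toBlocks₁₂ A.toBlocks₂₁ B Z1' Z2' hB (l1 := l1) (l2 := l2)
    (by rw [← hA', h1, h2, hA, LinearMap.det_toMatrix]; exact hdet)
  rw [← hA'] at hZ
  refine ⟨Matrix.toLinAlgEquiv e Z1, Matrix.toLinAlgEquiv e Z2, ?_, ?_, ?_⟩
  · rw [← h1, ← hZ1, ← LinearMap.charpoly_toMatrix (Matrix.toLinAlgEquiv e Z1) e]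
    congr 1
    exact LinearMap.toMatrix_toLin e e Z1
  · rw [← h2, ← hZ2, ← LinearMap.charpoly_toMatrix (Matrix.toLinAlgEquiv e Z2) e]
    congr 1
    exact LinearMap.toMatrix_toLin e e Z2
  · have hNA : N = Matrix.toLinAlgEquiv e A := (Matrix.toLin_toMatrix e e N).symm
    rw [hNA, ← map_mul, ← map_mul, hZ, map_one]
-- END kb

end ThPL
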