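import Pool.Agent.ThPL.LemT
import Pool.Agent.ThPL.Comp

/-! # Case (b): a cyclic summand of dimension at least four -/

namespace ThPL
open Polynomial Module Matrix

variable {K : Type*} [Field K] {V : Type*} [AddCommGroup V] [Module K V] [FiniteDimensional K V]

-- BEGIN ba
/-- MODULE ba. Choice of `τ` and `b`: for `m ≥ 2`, `δ ≠ 0`, `s` there are `τ ≠ 0, s` and `b` monic of degree `m` with `b(τ) ≠ 0` and `b(0) τ = δ`: `b = X^m + u X + δ/τ` with `u ∈ {0, 1}` (`m ≥ 2`; the two values at `τ` differ by `τ`). -/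
theorem choose_b (hK : ∃ d : K, d ≠ 0 ∧ d ≠ 1) {m : ℕ} (hm : 2 ≤ m) {δ : K} (hδ : δ ≠ 0) (s : K) :
    ∃ (τ : K) (b : K[X]), τ ≠ 0 ∧ τ ≠ s ∧ b.Monic ∧ b.natDegree = m ∧ b.eval τ ≠ 0 ∧ b.coeff 0 * τ = δ := by
  obtain ⟨τ, hτ0, hτs⟩ : ∃ τ : K, τ ≠ 0 ∧ τ ≠ s := by
    obtain ⟨d, hd0, hd1⟩ := hK
    by_cases h1 : (1 : K) = s
    · exact ⟨d, hd0, fun h => hd1 (h.trans h1.symm)⟩
    · exact ⟨1, one_ne_zero, h1⟩
  have key : ∀ u : K, (X ^ m + (C u * X + C (δ / τ)) : K[X]).Monic ∧ (X ^ m + (C u * X + C (δ / τ)) : K[X]).natDegree = m ∧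
      (X ^ m + (C u * X + C (δ / τ)) : K[X]).coeff 0 * τ = δ := by
    intro u
    have hdeg : (C u * X + C (δ / τ) : K[X]).degree < (m : ℕ) := by
      refine lt_of_le_of_lt (degree_linear_le) ?_
      exact_mod_cast (by omega : 1 < m)
    refine ⟨monic_X_pow_add hdeg, natDegree_eq_of_degree_eq_some ?_, ?_⟩
    · rw [add_comm, degree_add_eq_right_of_degree_lt (by rw [degree_X_pow]; exact hdeg), degree_X_pow]
    rw [coeff_add, coeff_X_pow, if_neg (by omega), coeff_add, coeff_C_mul, coeff_X_zero, mul_zero, coeff_C_zero, zero_add, zero_add,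
      div_mul_cancel₀ _ hτ0]
  by_cases hv : τ ^ m + δ / τ = 0
  · refine ⟨τ, _, hτ0, hτs, (key 1).1, (key 1).2.1, ?_, (key 1).2.2⟩
    rw [eval_add, eval_pow, eval_X, eval_add, eval_mul, eval_C, eval_X, eval_C, one_mul]
    intro h
    exact hτ0 (by linear_combination h - hv)
  · refine ⟨τ, _, hτ0, hτs, (key 0).1, (key 0).2.1, ?_, (key 0).2.2⟩
    rw [eval_add, eval_pow, eval_X, eval_add, eval_mul, eval_C, eval_X, eval_C, zero_mul, zero_add]
    exact hv
-- END ba

variable (K) in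
/-- the choice of `τ` and of a monic `b` of degree `m` is possible -/
def Chs (m : ℕ) : Prop := ∀ δ : K, δ ≠ 0 → ∀ s : K, ∃ (τ : K) (b : K[X]), τ ≠ 0 ∧ τ ≠ s ∧ b.Monic ∧ b.natDegree = m ∧ b.eval τ ≠ 0 ∧ b.coeff 0 * τ = δ

theorem chs_of_le (hK : ∃ d : K, d ≠ 0 ∧ d ≠ 1) {m : ℕ} (hm : 2 ≤ m) : Chs K m := fun _ hδ s => choose_b hK hm hδ s

/-- `m = 1`, at least four elements -/
theorem chs_one (h4 : 4 ≤ Nat.card K) : Chs K 1 := by
  classical
  intro δ hδ s
  have hfin : Finite K := Nat.finite_of_card_ne_zero (by omega)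
  haveI : Fintype K := Fintype.ofFinite K
  have hcard : 4 ≤ Fintype.card K := by rwa [Nat.card_eq_fintype_card] at h4
  let p : K[X] := X ^ 2 + C δ
  have hp : p.Monic := by
    have := monic_X_pow_add_C δ (two_ne_zero)
    exact this
  have hpd : p.natDegree = 2 := natDegree_X_pow_add_C
  have hr : ∃ τ : K, τ ≠ 0 ∧ τ ≠ s ∧ τ ^ 2 + δ ≠ 0 := by
    by_contra hcon
    push Not at hcon
    let B : Finset K := {0, s} ∪ p.roots.toFinset
    have hB : ∀ τ : K, τ ∈ B := by
      intro τ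
      by_cases h0 : τ = 0
      · simp [B, h0]
      by_cases h1 : τ = s
      · simp [B, h1]
      · have h2 := hcon τ h0 h1
        simp only [B, Finset.mem_union, Multiset.mem_toFinset]
        right
        rw [mem_roots hp.ne_zero]
        simpa [IsRoot, p] using h2
    have hBu : B = Finset.univ := Finset.eq_univ_iff_forall.mpr hB
    have h2 : ({0, s} : Finset K).card ≤ 2 := Finset.card_le_two
    have hcB : B.card ≤ 2 + p.roots.toFinset.card := (Finset.card_union_le _ _).trans (by omega)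
    have hro : p.roots.toFinset.card ≤ 2 := (Multiset.toFinset_card_le _).trans ((card_roots' p).trans hpd.le)
    rw [hBu, Finset.card_univ] at hcB
    have h44 : Fintype.card K = 4 := by omega
    -- characteristic two
    have hchar : (2 : K) = 0 := by
      have hc : ((Fintype.card K : ℕ) : K) = 0 := Nat.cast_card_eq_zero K
      rw [h44] at hc
      have : (2 : K) * 2 = 0 := by
        have h5 : ((4 : ℕ) : K) = 2 * 2 := by norm_num
        rw [← h5]; exact hc
      rcases mul_eq_zero.mp this with h | h <;> exact h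
    have hone : p.roots.toFinset.card ≤ 1 := by
      rw [Finset.card_le_one]
      intro a ha b hb
      simp only [Multiset.mem_toFinset, mem_roots hp.ne_zero, IsRoot, p, eval_add, eval_pow, eval_X, eval_C] at ha hb
      have h6 : (a - b) ^ 2 = 0 := by
        have : (a - b) ^ 2 = (a ^ 2 + δ) - (b ^ 2 + δ) - 2 * b * (a - b) := by ring
        rw [this, ha, hb, hchar]; ring
      exact sub_eq_zero.mp (pow_eq_zero_iff (two_ne_zero) |>.mp h6)
    omega
  obtain ⟨τ, h0, h1, h2⟩ := hr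
  refine ⟨τ, X - C (-(δ / τ)), h0, h1, monic_X_sub_C _, natDegree_X_sub_C _, ?_, ?_⟩
  · rw [eval_sub, eval_X, eval_C, sub_neg_eq_add]
    intro h3
    apply h2
    have : τ * (τ + δ / τ) = τ ^ 2 + δ := by field_simp
    rw [← this, h3, mul_zero]
  · rw [coeff_sub, coeff_X_zero, coeff_C_zero, zero_sub, neg_neg]
    field_simp

/-- the companion matrix of `b` (of degree `m`): `z^j ↦ z^(j+1)`, `z^(m-1) ↦ -Σ b_i z^i` -/
def cpm (m : ℕ) (b : K[X]) : Matrix (Fin m) (Fin m) K := Matrix.of fun i j => if (j : ℕ) + 1 = m then -b.coeff i else if (i : ℕ) = j + 1 then 1 else 0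

-- BEGIN bb
/-- MODULE bb. Characteristic polynomial of `cpm` (`charpoly_chain` for `toLin'` and the standard basis; `m = 0` trivial). -/
theorem cpm_charpoly {m : ℕ} {b : K[X]} (hb : b.Monic) (hd : b.natDegree = m) : (cpm m b).charpoly = b := by
  cases m with
  | zero =>
    rw [hb.natDegree_eq_zero.mp hd]
    rw [Matrix.charpoly, Matrix.det_isEmpty]
  | succ m =>
    rw [← Matrix.charpoly_toLin']
    refine charpoly_chain (Pi.basisFun K (Fin (m + 1))) _ hb hd ?_ ?_
    · intro i hi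
      rw [Pi.basisFun_apply, Pi.basisFun_apply, Matrix.toLin'_apply, Matrix.mulVec_single_one]
      funext k
      have h1 : ¬ (i + 1 = m + 1) := by omega
      simp only [Matrix.col_apply, cpm, Matrix.of_apply, Pi.single_apply, Fin.ext_iff]
      rw [if_neg h1]
    · rw [Pi.basisFun_apply, Matrix.toLin'_apply, Matrix.mulVec_single_one]
      funext k
      simp only [Matrix.col_apply, cpm, Matrix.of_apply, Fin.val_last, if_true, Pi.neg_apply, Finset.sum_apply, Pi.smul_apply, Pi.basisFun_apply,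
        Pi.single_apply, smul_eq_mul, mul_ite, mul_one, mul_zero, Finset.sum_ite_eq, Finset.mem_univ]
-- END bb

-- BEGIN bc
private def bc_eqv (ι : Type*) (m : ℕ) : ι ⊕ (Unit ⊕ (Fin m ⊕ Unit)) ≃ Unit ⊕ ((ι ⊕ Fin m) ⊕ Unit) where
  toFun := fun
    | Sum.inl i => Sum.inr (Sum.inl (Sum.inl i))
    | Sum.inr (Sum.inl u) => Sum.inl u
    | Sum.inr (Sum.inr (Sum.inl j)) => Sum.inr (Sum.inl (Sum.inr j))
    | Sum.inr (Sum.inr (Sum.inr u)) => Sum.inr (Sum.inr u)
  invFun := fun
    | Sum.inr (Sum.inl (Sum.inl i)) => Sum.inl i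
    | Sum.inl u => Sum.inr (Sum.inl u)
    | Sum.inr (Sum.inl (Sum.inr j)) => Sum.inr (Sum.inr (Sum.inl j))
    | Sum.inr (Sum.inr u) => Sum.inr (Sum.inr (Sum.inr u))
  left_inv := by rintro (i | u | j | u) <;> rfl
  right_inv := by rintro (u | (i | j) | u) <;> rfl

/-- MODULE bc. The basis: `inl () ↦ a(N) v` with `a = (X - τ) b` (degree `m + 1`), `inr (inl (inl i)) ↦ u_i`, `inr (inl (inr j)) ↦ ((X - τ) X^j)(N) v` (`j < m`, degree `j + 1`), `inr (inr ()) ↦ v` (degree `0`). From `cyc_basis` with `l = m + 2`,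
`κ = Unit ⊕ (Fin m ⊕ Unit)`, reindexed. -/
theorem caseb_basis {N : Module.End K V} {V' : Submodule K V} {v : V} {m : ℕ} (h : Cyc N V' v (m + 2)) {ι : Type*} (u : Basis ι K V')
    {τ : K} {b : K[X]} (hb : b.Monic) (hd : b.natDegree = m) :
    ∃ e : Basis (Unit ⊕ ((ι ⊕ Fin m) ⊕ Unit)) K V, e (Sum.inl ()) = aeval N ((X - C τ) * b) v ∧
      (∀ i, e (Sum.inr (Sum.inl (Sum.inl i))) = (u i : V)) ∧
      (∀ j : Fin m, e (Sum.inr (Sum.inl (Sum.inr j))) = aeval N ((X - C τ) * X ^ (j : ℕ)) v) ∧ e (Sum.inr (Sum.inr ())) = v := by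
  let g : Unit ⊕ (Fin m ⊕ Unit) → K[X] := fun
    | Sum.inl _ => (X - C τ) * b
    | Sum.inr (Sum.inl j) => (X - C τ) * X ^ (j : ℕ)
    | Sum.inr (Sum.inr _) => 1
  have hX := monic_X_sub_C τ
  have hXd := natDegree_X_sub_C τ
  have d1 : ((X - C τ) * b).natDegree = m + 1 := by rw [hX.natDegree_mul hb, hXd, hd, add_comm]
  have d2 : ∀ j : ℕ, ((X - C τ) * X ^ j).natDegree = j + 1 := fun j => by
    rw [hX.natDegree_mul (monic_X_pow j), hXd, natDegree_X_pow, add_comm]
  have g1 : ∀ w, g (Sum.inl w) = (X - C τ) * b := fun _ => rfl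
  have g2 : ∀ j, g (Sum.inr (Sum.inl j)) = (X - C τ) * X ^ (j : ℕ) := fun _ => rfl
  have g3 : ∀ w, g (Sum.inr (Sum.inr w)) = 1 := fun _ => rfl
  obtain ⟨e, he1, he2⟩ := cyc_basis h u g
    (by
      rintro (w | j | w)
      · exact hX.mul hb
      · exact hX.mul (monic_X_pow _)
      · exact monic_one)
    (by
      rintro (w | j | w)
      · rw [g1 w, d1]; omega
      · rw [g2 j, d2]; omega
      · rw [g3 w, natDegree_one]; omega)
    (by
      rintro (w | j | w) (w' | j' | w') hh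
      · rfl
      · simp only [g1, g2, d1, d2] at hh
        omega
      · simp only [g1, g3, d1, natDegree_one] at hh
        omega
      · simp only [g1, g2, d1, d2] at hh
        omega
      · simp only [g2, d2] at hh
        have : j = j' := Fin.ext (by omega)
        rw [this]
      · simp only [g2, g3, d2, natDegree_one] at hh
        omega
      · simp only [g1, g3, d1, natDegree_one] at hh
        omega
      · simp only [g2, g3, d2, natDegree_one] at hh
        omega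
      · rfl)
    (by simp only [Fintype.card_sum, Fintype.card_unit, Fintype.card_fin]; omega)
  refine ⟨e.reindex (bc_eqv ι m), ?_, ?_, ?_, ?_⟩
  · rw [Basis.reindex_apply]
    exact he2 (Sum.inl ())
  · intro i
    rw [Basis.reindex_apply]
    exact he1 i
  · intro j
    rw [Basis.reindex_apply]
    exact he2 (Sum.inr (Sum.inl j))
  · rw [Basis.reindex_apply]
    refine (he2 (Sum.inr (Sum.inr ()))).trans ?_
    rw [g3 (), map_one]
    rfl
-- END bc

-- BEGIN bd
omit [FiniteDimensional K V] in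
/-- MODULE bd. The matrix of the compression of `N` in this basis: `fromBlocks (fromBlocks N' 0 0 (cpm m b)) y 0 τ`, `y` the standard vector at `inr 0` (`m ≥ 1`).
`N u_j = Σ N'_ij u_i`; `N ((X-τ) X^j)(N) v = ((X-τ) X^(j+1))(N) v` (`j + 1 < m`), and for `j + 1 = m`: `(X-τ) X^m = (X-τ) b - Σ_(i<m) b_i (X-τ) X^i`; `N v = τ v + (X-τ)(N) v`. -/
theorem caseb_comp {N : Module.End K V} {V' : Submodule K V} {v : V} {m : ℕ} (hm : 1 ≤ m) {ι : Type*} [Fintype ι] [DecidableEq ι]
    {N' : Matrix ι ι K} (u : ι → V) (hN' : ∀ j, N (u j) = ∑ i, N' i j • u i)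
    {τ : K} {b : K[X]} (hb : b.Monic) (hd : b.natDegree = m) (e : Unit ⊕ ((ι ⊕ Fin m) ⊕ Unit) → V)
    (e1 : e (Sum.inl ()) = aeval N ((X - C τ) * b) v) (e2 : ∀ i, e (Sum.inr (Sum.inl (Sum.inl i))) = u i)
    (e3 : ∀ j : Fin m, e (Sum.inr (Sum.inl (Sum.inr j))) = aeval N ((X - C τ) * X ^ (j : ℕ)) v) (e4 : e (Sum.inr (Sum.inr ())) = v) :
    ∃ y : Matrix (ι ⊕ Fin m) Unit K, ∀ j : (ι ⊕ Fin m) ⊕ Unit, ∃ c : K,
      N (e (Sum.inr j)) = c • e (Sum.inl ()) + ∑ i, (fromBlocks (fromBlocks N' 0 0 (cpm m b)) y 0 (τ • (1 : Matrix Unit Unit K))) i j • e (Sum.inr i) := by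
  have hmul : ∀ g : K[X], N (aeval N g v) = aeval N (X * g) v := by
    intro g
    rw [map_mul, aeval_X, Module.End.mul_apply]
  refine ⟨Matrix.of fun i _ => if i = Sum.inr (⟨0, hm⟩ : Fin m) then 1 else 0, ?_⟩
  rintro ((j | j) | j)
  · refine ⟨0, ?_⟩
    simp [Fintype.sum_sum_type, e2, hN']
  · by_cases hj : (j : ℕ) + 1 = m
    · refine ⟨1, ?_⟩
      have hbs : b = X ^ m + ∑ i : Fin m, C (b.coeff i) * X ^ (i : ℕ) := by
        conv_lhs => rw [hb.as_sum, hd]
        rw [Finset.sum_range fun i => C (b.coeff i) * X ^ i]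
      have hx : X * ((X - C τ) * X ^ (j : ℕ)) = (X - C τ) * b + ∑ i : Fin m, C (-b.coeff i) * ((X - C τ) * X ^ (i : ℕ)) := by
        have h1 : ∑ i : Fin m, C (-b.coeff i) * ((X - C τ) * X ^ (i : ℕ)) = - ((X - C τ) * ∑ i : Fin m, C (b.coeff i) * X ^ (i : ℕ)) := by
          rw [Finset.mul_sum, ← Finset.sum_neg_distrib]
          refine Finset.sum_congr rfl fun i _ => ?_
          rw [C_neg]; ring
        have h2 : (X : K[X]) ^ m = X ^ (j : ℕ) * X := by
          rw [← pow_succ]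
          exact congrArg (fun n => (X : K[X]) ^ n) hj.symm
        rw [h1]
        linear_combination (-(X - C τ)) * hbs - (X - C τ) * h2
      simp only [Fintype.sum_sum_type, e1, e2, e3, e4, hmul]
      rw [hx]
      simp [cpm, hj, map_sum, LinearMap.sum_apply, ← Polynomial.smul_eq_C_mul]
    · refine ⟨0, ?_⟩
      have hj' : (j : ℕ) + 1 < m := by omega
      simp only [Fintype.sum_sum_type, e1, e2, e3, e4, hmul]
      simp only [cpm, hj, if_false, fromBlocks_apply₁₁, fromBlocks_apply₁₂, fromBlocks_apply₂₁, fromBlocks_apply₂₂, Matrix.of_apply, Matrix.zero_apply, zero_smul, Finset.sum_const_zero, zero_add, add_zero]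
      rw [Finset.sum_eq_single (⟨(j : ℕ) + 1, hj'⟩ : Fin m)]
      · simp only [if_true, one_smul]
        rw [show X * ((X - C τ) * X ^ (j : ℕ)) = (X - C τ) * X ^ ((j : ℕ) + 1) by ring]
      · intro i _ hi
        rw [if_neg, zero_smul]
        intro h
        exact hi (Fin.ext h)
      · intro h; exact absurd (Finset.mem_univ _) h
  · refine ⟨0, ?_⟩
    have h0 : N v = τ • v + aeval N (X - C τ) v := by
      simp
    rw [e4, h0]
    simp only [Fintype.sum_sum_type, e2, e3, e4]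
    simp [ite_smul, add_comm (τ • v)]
-- END bd

-- BEGIN be
omit [FiniteDimensional K V] in
theorem be_det_ne {d : ℕ} {N : Module.End K V} {V' : Submodule K V} (u : Basis (Fin d) K V')
    (N' : Matrix (Fin d) (Fin d) K) (hN' : ∀ j, N ((u j : V)) = ∑ i, N' i j • (u i : V)) (τ : K)
    (hτ : ∀ x ∈ V', N x = τ • x → x = 0) : (N' - τ • (1 : Matrix (Fin d) (Fin d) K)).det ≠ 0 := by
  intro h0
  obtain ⟨w, hw, hw0⟩ := Matrix.exists_mulVec_eq_zero_iff.mpr h0
  apply hw
  have hNw : N (∑ j, w j • (u j : V)) = τ • ∑ j, w j • (u j : V) := by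
    have e1 : ∀ i, ∑ j, N' i j * w j = τ * w i := by
      intro i
      have := congrFun hw0 i
      simp only [Matrix.sub_mulVec, Pi.sub_apply, Matrix.smul_mulVec, Matrix.one_mulVec, Pi.smul_apply, smul_eq_mul, Pi.zero_apply] at this
      have h2 : (N' *ᵥ w) i = ∑ j, N' i j * w j := rfl
      rw [← h2]
      exact sub_eq_zero.mp this
    calc N (∑ j, w j • (u j : V)) = ∑ j, w j • N (u j : V) := by simp [map_sum]
      _ = ∑ j, ∑ i, (N' i j * w j) • (u i : V) := by
          refine Finset.sum_congr rfl fun j _ => ?_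
          rw [hN' j, Finset.smul_sum]
          refine Finset.sum_congr rfl fun i _ => ?_
          rw [smul_smul, mul_comm]
      _ = ∑ i, (∑ j, N' i j * w j) • (u i : V) := by
          rw [Finset.sum_comm]
          refine Finset.sum_congr rfl fun i _ => ?_
          rw [Finset.sum_smul]
      _ = τ • ∑ j, w j • (u j : V) := by
          rw [Finset.smul_sum]
          refine Finset.sum_congr rfl fun i _ => ?_
          rw [e1 i, smul_smul]
  have hmem : (∑ j, w j • (u j : V)) ∈ V' := Submodule.sum_mem _ fun j _ => V'.smul_mem _ (u j).2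
  have hz := hτ _ hmem hNw
  have hz' : ∑ j, w j • u j = 0 := by
    apply Subtype.ext
    simpa using hz
  have := Fintype.linearIndependent_iff.mp u.linearIndependent w hz'
  funext j
  exact this j

/-- MODULE be. Case (b). `u` a basis of `V'` (index `Fin d`), `N'` the matrix of `N|V'` (`det N' ≠ 0`: `N` is injective), `m = l - 2 ≥ 2`, `δ = (-1)^m / (det N' f1(0) f2(0))`, `τ, b` from `choose_b` with `s`; `B0 = fromBlocks N' 0 0 (cpm m b)`:
`det B0 = det N' (-1)^m b(0)`, so `det B0 τ f1(0) f2(0) = 1`. `det (B0 - τ) ≠ 0`: `det (cpm - τ) = ± b(τ) ≠ 0`, and `det (N' - τ) ≠ 0`: otherwise `N x = τ x` for some `x ≠ 0` in `V'`, so `τ = s` by `hs`. `caseb_basis`, `caseb_comp`, `lemT_pre`, `fac_of_basis`.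
Degrees: `f_i.natDegree = d + m + 1` (`cyc_finrank`). -/
theorem case_b_gen (hK : ∃ d : K, d ≠ 0 ∧ d ≠ 1) (N : Module.End K V) {f1 f2 : K[X]} (h1 : f1.Monic) (h2 : f2.Monic)
    (d1 : f1.natDegree + 1 = finrank K V) (d2 : f2.natDegree + 1 = finrank K V) {l1 l2 : K}
    (hdet : l1 * l2 * (f1.coeff 0 * f2.coeff 0) * LinearMap.det N = 1) {V' : Submodule K V} {v : V} {l : ℕ} (h : Cyc N V' v l) (hl : 3 ≤ l) (hch : Chs K (l - 2))
    {s : K} (hs : ∀ τ : K, ∀ x ≠ 0, N x = τ • x → τ = s) :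
    Fac N ((X - C l1) * f1) ((X - C l2) * f2) := by
  obtain ⟨m, rfl⟩ : ∃ m, l = m + 2 := ⟨l - 2, by omega⟩
  have hch' : Chs K m := hch
  let u : Basis (Fin (finrank K V')) K V' := Module.finBasis K V'
  have hinj : ∀ x, N x = 0 → x = 0 := by
    intro x hx
    have hd : LinearMap.det N ≠ 0 := by
      intro h0
      rw [h0, mul_zero] at hdet
      exact zero_ne_one hdet
    have hu : IsUnit (LinearMap.det N) := isUnit_iff_ne_zero.mpr hd
    have hN : IsUnit N := (LinearMap.isUnit_iff_isUnit_det N).mpr hu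
    have hker : LinearMap.ker N = ⊥ := (LinearMap.isUnit_iff_ker_eq_bot N).mp hN
    have : x ∈ LinearMap.ker N := hx
    rw [hker] at this
    simpa using this
  let N' : Matrix (Fin (finrank K V')) (Fin (finrank K V')) K := Matrix.of fun i j => u.repr ⟨N (u j), h.inv _ (u j).2⟩ i
  have hN' : ∀ j, N ((u j : V)) = ∑ i, N' i j • (u i : V) := by
    intro j
    have := u.sum_repr ⟨N (u j), h.inv _ (u j).2⟩
    have h2 := congrArg (fun z : V' => (z : V)) this
    simp only [Submodule.coe_sum, Submodule.coe_smul] at h2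
    exact h2.symm
  have hN'0 : N'.det ≠ 0 := by
    have := be_det_ne u N' hN' 0 (fun x _ hx => hinj x (by rw [hx, zero_smul]))
    simpa using this
  have hf : f1.coeff 0 * f2.coeff 0 ≠ 0 := by
    intro h0
    rw [h0, mul_zero, zero_mul] at hdet
    exact zero_ne_one hdet
  have hδ : (-1 : K) ^ m / (N'.det * (f1.coeff 0 * f2.coeff 0)) ≠ 0 :=
    div_ne_zero (pow_ne_zero _ (neg_ne_zero.mpr one_ne_zero)) (mul_ne_zero hN'0 hf)
  obtain ⟨τ, b, hτ0, hτs, hb, hbd, hbτ, hbδ⟩ := hch' _ hδ s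
  obtain ⟨e, e1, e2, e3, e4⟩ := caseb_basis h u (τ := τ) hb hbd
  obtain ⟨y, hy⟩ := caseb_comp (N := N) (v := v) (V' := V') (by omega : 1 ≤ m) (fun i => (u i : V)) hN' hb hbd e e1 e2 e3 e4
  have hfr := cyc_finrank h
  have hcp : (cpm m b).det = (-1) ^ m * b.coeff 0 := by
    rw [Matrix.det_eq_sign_charpoly_coeff, cpm_charpoly hb hbd, Fintype.card_fin]
  have hB0 : (fromBlocks N' 0 0 (cpm m b)).det * τ * (f1.coeff 0 * f2.coeff 0) = 1 := by
    rw [Matrix.det_fromBlocks_zero₂₁, hcp]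
    have : N'.det * ((-1) ^ m * b.coeff 0) * τ * (f1.coeff 0 * f2.coeff 0)
        = N'.det * (-1) ^ m * (b.coeff 0 * τ) * (f1.coeff 0 * f2.coeff 0) := by ring
    rw [this, hbδ]
    have h4 : ((-1 : K) ^ m) * (-1) ^ m = 1 := by
      rw [← pow_add, ← two_mul, pow_mul]; simp
    have hNF : N'.det * (f1.coeff 0 * f2.coeff 0) ≠ 0 := mul_ne_zero hN'0 hf
    have h5 : N'.det * (-1) ^ m * ((-1 : K) ^ m / (N'.det * (f1.coeff 0 * f2.coeff 0))) * (f1.coeff 0 * f2.coeff 0)
        = ((-1) ^ m * (-1) ^ m) * ((N'.det * (f1.coeff 0 * f2.coeff 0)) / (N'.det * (f1.coeff 0 * f2.coeff 0))) := by ring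
    rw [h5, div_self hNF, h4, one_mul]
  have hτd : ((fromBlocks N' 0 0 (cpm m b)) - τ • (1 : Matrix (Fin (finrank K V') ⊕ Fin m) (Fin (finrank K V') ⊕ Fin m) K)).det ≠ 0 := by
    have hbl : (fromBlocks N' 0 0 (cpm m b)) - τ • (1 : Matrix (Fin (finrank K V') ⊕ Fin m) (Fin (finrank K V') ⊕ Fin m) K)
        = fromBlocks (N' - τ • 1) 0 0 (cpm m b - τ • 1) := by
      rw [← Matrix.fromBlocks_one, Matrix.fromBlocks_smul, sub_eq_add_neg, Matrix.fromBlocks_neg, Matrix.fromBlocks_add]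
      simp [sub_eq_add_neg]
    rw [hbl, Matrix.det_fromBlocks_zero₂₁]
    refine mul_ne_zero ?_ ?_
    · refine be_det_ne u N' hN' τ (fun x _ hx => ?_)
      by_contra hx0
      exact hτs (hs τ x hx0 hx)
    · intro h0
      apply hbτ
      rw [← cpm_charpoly hb hbd, Matrix.eval_charpoly]
      have : (Matrix.scalar (Fin m)) τ - cpm m b = -(cpm m b - τ • 1) := by
        rw [neg_sub]
        congr 1
        ext i j
        simp [Matrix.scalar_apply, Matrix.diagonal_apply, Matrix.one_apply, Matrix.smul_apply]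
      rw [this, Matrix.det_neg, h0, mul_zero]
  obtain ⟨Z1, Z2, c1, c2, hZ⟩ := lemT_pre hK (fromBlocks N' 0 0 (cpm m b)) h1 h2
    (by simp only [Fintype.card_sum, Fintype.card_fin]; omega) (by simp only [Fintype.card_sum, Fintype.card_fin]; omega) hB0 hτd y
  exact fac_of_basis e N (fromBlocks (fromBlocks N' 0 0 (cpm m b)) y 0 (τ • (1 : Matrix Unit Unit K))) Z1 Z2 hy hZ c1 c2 hdet
-- END be

end ThPL
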