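import Pool.Agent.ThPL.CaseA
import Pool.Agent.ThPL.CaseB

/-! # The product lemma -/

namespace ThPL
open Polynomial Module Matrix

variable {K : Type*} [Field K] {V : Type*} [AddCommGroup V] [Module K V] [FiniteDimensional K V]

-- BEGIN ma
/-- MODULE ma. If the minimal polynomial has no monic divisor of degree `2`, `N` has at most one eigenvalue in `K`: for two eigenvalues `s ≠ τ`, `(X - s)(X - τ)` divides it. -/
theorem one_root (N : Module.End K V) (h : ∀ r : K[X], r.Monic → r.natDegree = 2 → ¬ r ∣ minpoly K N) :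
    ∃ s : K, ∀ τ : K, ∀ x : V, x ≠ 0 → N x = τ • x → τ = s := by
  classical
  by_cases he : ∃ s : K, ∃ x : V, x ≠ 0 ∧ N x = s • x
  · obtain ⟨s, x, hx, hs⟩ := he
    refine ⟨s, fun τ y hy hτ => ?_⟩
    by_contra hne
    have hroot : ∀ (c : K) (z : V), z ≠ 0 → N z = c • z → (X - C c) ∣ minpoly K N := by
      intro c z hz hcz
      rw [dvd_iff_isRoot]
      apply Module.End.isRoot_of_hasEigenvalue
      apply Module.End.hasEigenvalue_of_hasEigenvector (x := z)
      exact ⟨Module.End.mem_eigenspace_iff.mpr hcz, hz⟩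
    have h1 := hroot s x hx hs
    have h2 := hroot τ y hy hτ
    have hcop : IsCoprime (X - C s) (X - C τ) :=
      isCoprime_X_sub_C_of_isUnit_sub (sub_ne_zero.mpr (Ne.symm hne)).isUnit
    have h3 := hcop.mul_dvd h1 h2
    refine h _ ((monic_X_sub_C s).mul (monic_X_sub_C τ)) ?_ h3
    rw [(monic_X_sub_C s).natDegree_mul (monic_X_sub_C τ), natDegree_X_sub_C, natDegree_X_sub_C]
  · push Not at he
    exact ⟨0, fun τ x hx hτ => absurd hτ (he τ x hx)⟩
-- END ma

-- BEGIN mb
/-- MODULE mb. If moreover `N` is not scalar (and so `V ≠ 0`), the degree of the minimal polynomial is at least `3`. -/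
theorem three_le (N : Module.End K V) (h : ∀ r : K[X], r.Monic → r.natDegree = 2 → ¬ r ∣ minpoly K N) (hN : ∀ c : K, N ≠ c • 1) :
    3 ≤ (minpoly K N).natDegree := by
  have hint : IsIntegral K N := Algebra.IsIntegral.isIntegral N
  have hmon := minpoly.monic hint
  have ha := minpoly.aeval K N
  by_contra hlt
  have hcases : (minpoly K N).natDegree = 0 ∨ (minpoly K N).natDegree = 1 ∨ (minpoly K N).natDegree = 2 := by omega
  rcases hcases with h0 | h1 | h2
  · have e : minpoly K N = 1 := (Polynomial.Monic.natDegree_eq_zero hmon).mp h0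
    rw [e, map_one] at ha
    apply hN 0
    have : N = N * 1 := (mul_one N).symm
    rw [this, ha, mul_zero, smul_zero]
  · have e := hmon.eq_X_add_C h1
    apply hN (-(minpoly K N).coeff 0)
    have hb : N + algebraMap K (Module.End K V) ((minpoly K N).coeff 0) = 0 := by
      have h5 : aeval N (X + C ((minpoly K N).coeff 0)) = 0 := by rw [← e]; exact ha
      rw [map_add, aeval_X, aeval_C] at h5
      exact h5
    rw [neg_smul, ← Algebra.algebraMap_eq_smul_one]
    exact eq_neg_of_add_eq_zero_left hb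
  · exact h _ hmon h2 dvd_rfl
-- END mb

-- BEGIN mc
/-- MODULE mc. If the minimal polynomial is irreducible then its degree divides the dimension. (`V` is a vector space over the field `AdjoinRoot μ`, `Module.finrank_mul_finrank`; or: induction with `cyc_of_max`; or from `Module.equiv_directSum_of_isTorsion`.) -/
theorem dvd_of_irr (N : Module.End K V) (h : Irreducible (minpoly K N)) : (minpoly K N).natDegree ∣ finrank K V := by
  have : Fact (Irreducible (minpoly K N)) := ⟨h⟩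
  let φ : AdjoinRoot (minpoly K N) →ₐ[K] Module.End K V :=
    Ideal.Quotient.liftₐ (Ideal.span {minpoly K N}) (aeval N) (by
      intro a ha
      obtain ⟨b, rfl⟩ := Ideal.mem_span_singleton'.mp ha
      rw [map_mul, minpoly.aeval, mul_zero])
  let _ : Module (AdjoinRoot (minpoly K N)) V := Module.compHom V φ.toRingHom
  have : IsScalarTower K (AdjoinRoot (minpoly K N)) V := ⟨fun k a v => by
    change φ (k • a) v = k • φ a v
    rw [map_smul, LinearMap.smul_apply]⟩
  have h1 := Module.finrank_mul_finrank K (AdjoinRoot (minpoly K N)) V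
  have h2 : finrank K (AdjoinRoot (minpoly K N)) = (minpoly K N).natDegree := by
    rw [(AdjoinRoot.powerBasis h.ne_zero).finrank, AdjoinRoot.powerBasis_dim]
  rw [← h1, h2]
  exact dvd_mul_right _ _
-- END mc

-- BEGIN md
private theorem md_irr {p : K[X]} (hp : p.Monic) (hd : p.natDegree = 3) (h : ∀ r : K[X], r.Monic → r.natDegree = 2 → ¬ r ∣ p) : Irreducible p := by
  rw [hp.irreducible_iff_natDegree']
  refine ⟨?_, ?_⟩
  · rintro rfl
    rw [Polynomial.natDegree_one] at hd
    omega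
  · intro f g hf hg hfg hgd
    have h1 : f.natDegree + g.natDegree = 3 := by
      rw [← hf.natDegree_mul hg, hfg, hd]
    rw [hd] at hgd
    simp only [Finset.mem_Ioc] at hgd
    exact h f hf (by omega) ⟨g, hfg.symm⟩

/-- MODULE md. THEOREM P. If the minimal polynomial has a monic divisor of degree 2: `exists_phi`, `case_a`. Otherwise its degree is at least `4` and `case_b` applies. -/
theorem prodV (hK : ∃ d : K, d ≠ 0 ∧ d ≠ 1) (h3 : ¬ 3 ∣ finrank K V ∨ 4 ≤ Nat.card K) (N : Module.End K V) (hN : ∀ c : K, N ≠ c • 1) {f1 f2 : K[X]} (h1 : f1.Monic) (h2 : f2.Monic)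
    (d1 : f1.natDegree + 1 = finrank K V) (d2 : f2.natDegree + 1 = finrank K V) {l1 l2 : K}
    (hdet : l1 * l2 * (f1.coeff 0 * f2.coeff 0) * LinearMap.det N = 1) :
    Fac N ((X - C l1) * f1) ((X - C l2) * f2) := by
  by_cases h : ∃ r : K[X], r.Monic ∧ r.natDegree = 2 ∧ r ∣ minpoly K N
  · obtain ⟨r, hr, hr2, hrd⟩ := h
    obtain ⟨φ, c0, c1, hφ, w, hw, hw'⟩ := exists_phi N hr hr2 hrd
    exact case_a hK N h1 h2 d1 d2 hdet φ c0 c1 hφ hw hw'
  · have h' : ∀ r : K[X], r.Monic → r.natDegree = 2 → ¬ r ∣ minpoly K N := fun r a b c => h ⟨r, a, b, c⟩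
    have h3' := three_le N h' hN
    have h4 : Chs K ((minpoly K N).natDegree - 2) := by
      by_cases h5 : (minpoly K N).natDegree = 3
      · rcases h3 with h3 | h3
        · exfalso
          apply h3
          have h6 := dvd_of_irr N (md_irr (minpoly.monic (Algebra.IsIntegral.isIntegral N)) h5 h')
          rwa [h5] at h6
        · rw [h5]
          exact chs_one h3
      · exact chs_of_le hK (by omega)
    obtain ⟨v, hv⟩ := max_vec N
    obtain ⟨V', hV'⟩ := cyc_of_max N hv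
    obtain ⟨s, hs⟩ := one_root N h'
    exact case_b_gen hK N h1 h2 d1 d2 hdet hV' h3' h4 hs
-- END md

-- BEGIN me
/-- MODULE me. Matrix form: `N = M⁻¹`, `M = Z1 Z2`. -/
theorem prodM {n : ℕ} (hK : ∃ d : K, d ≠ 0 ∧ d ≠ 1) (h3 : ¬ 3 ∣ n ∨ 4 ≤ Nat.card K) (M : Matrix (Fin n) (Fin n) K) (hM : ∀ c : K, M ≠ c • 1) {f1 f2 : K[X]} (h1 : f1.Monic) (h2 : f2.Monic)
    (d1 : f1.natDegree + 1 = n) (d2 : f2.natDegree + 1 = n) {l1 l2 : K}
    (hdet : l1 * l2 * (f1.coeff 0 * f2.coeff 0) = M.det) (h0 : M.det ≠ 0) :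
    ∃ Z1 Z2 : Matrix (Fin n) (Fin n) K, Z1.charpoly = (X - C l1) * f1 ∧ Z2.charpoly = (X - C l2) * f2 ∧ M = Z1 * Z2 := by
  have hu : IsUnit M.det := isUnit_iff_ne_zero.2 h0
  have hfr : finrank K (Fin n → K) = n := by simp
  have hMi : M * M⁻¹ = 1 := Matrix.mul_nonsing_inv M hu
  have hiM : M⁻¹ * M = 1 := Matrix.nonsing_inv_mul M hu
  have hfac : Fac (Matrix.toLin' M⁻¹) ((X - C l1) * f1) ((X - C l2) * f2) := by
    refine prodV hK (by rwa [hfr]) _ ?_ h1 h2 (by rw [hfr, d1]) (by rw [hfr, d2]) ?_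
    · intro c hc
      have hc1 : Matrix.toLin' M⁻¹ = Matrix.toLin' (c • (1 : Matrix (Fin n) (Fin n) K)) := by
        rw [hc, map_smul, Matrix.toLin'_one]; rfl
      have hc2 : M⁻¹ = c • (1 : Matrix (Fin n) (Fin n) K) := Matrix.toLin'.injective hc1
      rw [hc2, Matrix.mul_smul, Matrix.mul_one] at hMi
      have hc0 : c ≠ 0 := by
        rintro rfl
        rw [zero_smul] at hMi
        have : M = 0 := by
          rw [← Matrix.mul_one M, ← hMi, Matrix.mul_zero]
        exact hM 0 (by rw [this, zero_smul])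
      apply hM c⁻¹
      rw [← hMi, smul_smul, inv_mul_cancel₀ hc0, one_smul]
    · rw [LinearMap.det_toLin', hdet, ← Matrix.det_mul, hMi, Matrix.det_one]
  obtain ⟨Z1, Z2, e1, e2, e3⟩ := hfac
  refine ⟨LinearMap.toMatrix' Z1, LinearMap.toMatrix' Z2, ?_, ?_, ?_⟩
  · rw [← Matrix.charpoly_toLin', Matrix.toLin'_toMatrix', e1]
  · rw [← Matrix.charpoly_toLin', Matrix.toLin'_toMatrix', e2]
  · have h5 : M⁻¹ * (LinearMap.toMatrix' Z1 * LinearMap.toMatrix' Z2) = 1 := by
      have h6 := congrArg LinearMap.toMatrix' e3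
      rw [LinearMap.toMatrix'_mul, LinearMap.toMatrix'_toLin', LinearMap.toMatrix'_mul] at h6
      rw [h6]
      exact LinearMap.toMatrix'_one
    calc M = M * (M⁻¹ * (LinearMap.toMatrix' Z1 * LinearMap.toMatrix' Z2)) := by rw [h5, Matrix.mul_one]
      _ = _ := by rw [← Matrix.mul_assoc, hMi, Matrix.one_mul]
-- END me

-- BEGIN mf
private theorem mf_root {n : ℕ} (Z : Matrix (Fin n) (Fin n) K) {l : K} (h : Z.charpoly.IsRoot l) : (minpoly K Z).IsRoot l := by
  have h1 : l ∈ spectrum K Z := Matrix.mem_spectrum_iff_isRoot_charpoly.2 h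
  have h2 : l ∈ spectrum K (Matrix.toLin' Z) := by rwa [Matrix.spectrum_toLin']
  have h3 := Module.End.hasEigenvalue_iff_mem_spectrum.2 h2
  have h4 := Module.End.hasEigenvalue_iff_isRoot.1 h3
  rwa [Matrix.minpoly_toLin'] at h4

/-- MODULE mf. A matrix with characteristic polynomial `(X - l) f`, `f` irreducible of degree `≥ 2`, has the same minimal polynomial. -/
theorem minpoly_eq {n : ℕ} (Z : Matrix (Fin n) (Fin n) K) {f : K[X]} {l : K} (hf : Irreducible f) (hm : f.Monic) (hd : 2 ≤ f.natDegree)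
    (h : Z.charpoly = (X - C l) * f) : minpoly K Z = (X - C l) * f := by
  have hr : Z.charpoly.IsRoot l := by
    rw [h]; simp [Polynomial.IsRoot]
  obtain ⟨g, hg⟩ := Polynomial.dvd_iff_isRoot.2 (mf_root Z hr)
  have hmm : (minpoly K Z).Monic := minpoly.monic (Matrix.isIntegral Z)
  have hgm : g.Monic := by
    rw [hg] at hmm
    exact (Polynomial.monic_X_sub_C l).of_mul_monic_left hmm
  have hdv : (X - C l) * g ∣ (X - C l) * f := by
    rw [← hg, ← h]; exact Matrix.minpoly_dvd_charpoly Z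
  have hgf : g ∣ f := (mul_dvd_mul_iff_left (Polynomial.X_sub_C_ne_zero l)).1 hdv
  rcases hf.dvd_iff.1 hgf with hu | ha
  · exfalso
    have h1 : g = 1 := hgm.isUnit_iff.1 hu
    rw [h1, mul_one] at hg
    have hz : aeval Z (minpoly K Z) = 0 := minpoly.aeval K Z
    rw [hg] at hz
    have hZ : Z = algebraMap K _ l := by
      simpa [sub_eq_zero] using hz
    have hc : Z.charpoly = (X - C l) ^ n := by
      rw [hZ]
      have : algebraMap K (Matrix (Fin n) (Fin n) K) l = Matrix.diagonal (fun _ => l) := by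
        rw [Matrix.algebraMap_eq_diagonal]; rfl
      rw [this, Matrix.charpoly_diagonal]
      simp
    have hfd : f ∣ (X - C l) ^ n := by
      rw [← hc, h]; exact dvd_mul_left _ _
    have h5 : f ∣ X - C l := hf.prime.dvd_of_dvd_pow hfd
    have h6 := Polynomial.natDegree_le_of_dvd h5 (Polynomial.X_sub_C_ne_zero l)
    rw [Polynomial.natDegree_X_sub_C] at h6
    omega
  · rw [hg, Polynomial.eq_of_monic_of_associated hgm hm ha.symm]
-- END mf

-- BEGIN mg
/-- MODULE mg (private). The companion matrix. -/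
def mg_cmp (n : ℕ) (χ : K[X]) : Matrix (Fin n) (Fin n) K :=
  Matrix.of fun j i => if (i : ℕ) + 1 < n then (if (j : ℕ) = (i : ℕ) + 1 then 1 else 0) else -χ.coeff j

/-- MODULE mg (private). The matrix with columns `Z ^ i v`. -/
def mg_col {n : ℕ} (Z : Matrix (Fin n) (Fin n) K) (v : Fin n → K) : Matrix (Fin n) (Fin n) K :=
  Matrix.of fun j i => ((Z ^ (i : ℕ)) *ᵥ v) j

/-- MODULE mg (private). The powers of `Z` on `v`. -/
theorem mg_rel {n : ℕ} (Z : Matrix (Fin n) (Fin n) K) (v : Fin n → K) : Z * mg_col Z v = mg_col Z v * mg_cmp n Z.charpoly := by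
  ext r i
  have hl : (Z * mg_col Z v) r i = ((Z ^ ((i : ℕ) + 1)) *ᵥ v) r := by
    rw [pow_succ', ← Matrix.mulVec_mulVec]
    rfl
  rw [hl, Matrix.mul_apply]
  by_cases hi : (i : ℕ) + 1 < n
  · rw [Finset.sum_eq_single (⟨(i : ℕ) + 1, hi⟩ : Fin n)]
    · simp [mg_cmp, mg_col, hi]
    · intro b _ hb
      have : (b : ℕ) ≠ (i : ℕ) + 1 := fun h => hb (Fin.ext h)
      simp [mg_cmp, hi, this]
    · intro hn
      exact absurd (Finset.mem_univ _) hn
  · have hn : (i : ℕ) + 1 = n := by have := i.2; omega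
    have hch := Matrix.aeval_self_charpoly Z
    rw [aeval_eq_sum_range, Matrix.charpoly_natDegree_eq_dim, Fintype.card_fin, Finset.sum_range_succ] at hch
    have hc1 : Z.charpoly.coeff n = 1 := by
      have := (Matrix.charpoly_monic Z).coeff_natDegree
      rwa [Matrix.charpoly_natDegree_eq_dim, Fintype.card_fin] at this
    rw [hc1, one_smul] at hch
    have hz : Z ^ n = -∑ i ∈ Finset.range n, Z.charpoly.coeff i • Z ^ i := by
      rw [← add_eq_zero_iff_eq_neg, add_comm]
      exact hch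
    rw [hn, hz, ← Fin.sum_univ_eq_sum_range (fun i => Z.charpoly.coeff i • Z ^ i), Matrix.neg_mulVec, Matrix.sum_mulVec]
    simp only [mg_cmp, mg_col, Matrix.of_apply, hi, if_false, Pi.neg_apply, Finset.sum_apply, Matrix.smul_mulVec, Pi.smul_apply, smul_eq_mul, mul_neg, Finset.sum_neg_distrib]
    congr 1
    exact Finset.sum_congr rfl fun x _ => mul_comm _ _

/-- MODULE mg (private). Existence of a cyclic basis. -/
theorem mg_ex {n : ℕ} (Z : Matrix (Fin n) (Fin n) K) (hmin : minpoly K Z = Z.charpoly) : ∃ A : Matrix (Fin n) (Fin n) K, A.det ≠ 0 ∧ Z * A = A * mg_cmp n Z.charpoly := by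
  obtain ⟨v, hv⟩ := max_vec (Matrix.toLin' Z)
  refine ⟨mg_col Z v, ?_, mg_rel Z v⟩
  intro hdet
  obtain ⟨c, hc, hc0⟩ := Matrix.exists_mulVec_eq_zero_iff.mpr hdet
  have hae : ∀ g : K[X], aeval (Matrix.toLin' Z) g = Matrix.toLin' (aeval Z g) := fun g =>
    Polynomial.aeval_algHom_apply (Matrix.toLinAlgEquiv' (R := K) (n := Fin n)).toAlgHom Z g
  set g : K[X] := ∑ i : Fin n, C (c i) * X ^ (i : ℕ) with hg
  have hgv : aeval Z g *ᵥ v = mg_col Z v *ᵥ c := by
    rw [hg, map_sum, Matrix.sum_mulVec]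
    ext r
    rw [Finset.sum_apply, Matrix.mulVec, dotProduct]
    refine Finset.sum_congr rfl fun i _ => ?_
    rw [map_mul, aeval_C, map_pow, aeval_X, Algebra.algebraMap_eq_smul_one, smul_mul_assoc, one_mul, Matrix.smul_mulVec, Pi.smul_apply, smul_eq_mul, mul_comm]
    rfl
  have h0 : aeval (Matrix.toLin' Z) g = 0 := by
    apply hv
    rw [hae, Matrix.toLin'_apply, hgv, hc0]
  have h1 : aeval Z g = 0 := by
    rw [hae] at h0
    exact (Matrix.toLin' (R := K)).map_eq_zero_iff.mp h0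
  have hdvd : minpoly K Z ∣ g := minpoly.dvd K Z h1
  have hdeg : g.degree < (minpoly K Z).degree := by
    rw [hmin, degree_eq_natDegree (Matrix.charpoly_monic Z).ne_zero, Matrix.charpoly_natDegree_eq_dim, Fintype.card_fin]
    exact degree_sum_fin_lt c
  have hg0 : g = 0 := eq_zero_of_dvd_of_degree_lt hdvd hdeg
  apply hc
  ext i
  have := congrArg (fun p => p.coeff (i : ℕ)) hg0
  simp only [hg, finsetSum_coeff, coeff_C_mul, coeff_X_pow, coeff_zero] at this
  rw [Finset.sum_eq_single i] at this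
  · simpa using this
  · intro b _ hb
    have : (i : ℕ) ≠ (b : ℕ) := fun h => hb (Fin.ext h.symm)
    simp [this]
  · intro hn
    exact absurd (Finset.mem_univ _) hn

/-- MODULE mg. Two matrices with this characteristic polynomial are conjugate: cyclic vectors `v`, `v'` (`max_vec` for `toLin'`; `minpoly_eq`), bases `Z^i v`, `Z'^i v'` (`i < n`), the same relation (Cayley-Hamilton). -/
theorem conj_GL {n : ℕ} (Z Z' : Matrix (Fin n) (Fin n) K) {f : K[X]} {l : K} (hf : Irreducible f) (hm : f.Monic) (hd : 2 ≤ f.natDegree)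
    (h : Z.charpoly = (X - C l) * f) (h' : Z'.charpoly = (X - C l) * f) : ∃ P : Matrix (Fin n) (Fin n) K, P.det ≠ 0 ∧ Z' * P = P * Z := by
  obtain ⟨A, hA, h1⟩ := mg_ex Z ((minpoly_eq Z hf hm hd h).trans h.symm)
  obtain ⟨B, hB, h2⟩ := mg_ex Z' ((minpoly_eq Z' hf hm hd h').trans h'.symm)
  rw [h] at h1
  rw [h'] at h2
  have hu : IsUnit A.det := isUnit_iff_ne_zero.mpr hA
  refine ⟨B * A⁻¹, ?_, ?_⟩
  · rw [Matrix.det_mul]
    refine mul_ne_zero hB ?_
    intro h0
    have := congrArg Matrix.det (Matrix.mul_nonsing_inv A hu)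
    rw [Matrix.det_mul, h0, mul_zero, Matrix.det_one] at this
    exact zero_ne_one this
  · have h3 : A⁻¹ * Z = mg_cmp n ((X - C l) * f) * A⁻¹ := by
      calc A⁻¹ * Z = A⁻¹ * (Z * (A * A⁻¹)) := by rw [Matrix.mul_nonsing_inv A hu, Matrix.mul_one]
        _ = A⁻¹ * ((Z * A) * A⁻¹) := by rw [Matrix.mul_assoc]
        _ = (A⁻¹ * A) * (mg_cmp n ((X - C l) * f) * A⁻¹) := by rw [h1, Matrix.mul_assoc, Matrix.mul_assoc]
        _ = mg_cmp n ((X - C l) * f) * A⁻¹ := by rw [Matrix.nonsing_inv_mul A hu, Matrix.one_mul]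
    rw [Matrix.mul_assoc, h3, ← Matrix.mul_assoc, ← Matrix.mul_assoc, h2]
-- END mg

-- BEGIN mh
/-- MODULE mh. The centraliser has elements of every determinant: `x` a right, `ψ` a left eigenvector for `l`, `ψ(x) ≠ 0` (otherwise `x = (Z - l) y`, since the image of `Z - l` is `ker ψ` (the kernel of `Z - l` is one dimensional because the minimal polynomial is the characteristic polynomial ..);
then `(X - l)^2` divides `minpoly`: no, `f` is irreducible of degree `≥ 2`), normalised `ψ(x) = 1`, `D = 1 + (c - 1) x ψ`, `det D = c` (`Matrix.det_one_add_replicateCol_mul_replicateRow` or similar).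
Another way: by `conj_GL` one may take for `Z` the block matrix `fromBlocks l 0 0 (cpm f)` (reindexed), `D = fromBlocks c 0 0 1`. -/
theorem cent_det {n : ℕ} (Z : Matrix (Fin n) (Fin n) K) {f : K[X]} {l : K} (hf : Irreducible f) (hm : f.Monic) (hd : 2 ≤ f.natDegree)
    (h : Z.charpoly = (X - C l) * f) (c : K) : ∃ D : Matrix (Fin n) (Fin n) K, D.det = c ∧ Z * D = D * Z := by
  classical
  have hn : n = 1 + f.natDegree := by
    have h1 := congrArg natDegree h
    rw [Matrix.charpoly_natDegree_eq_dim, (monic_X_sub_C l).natDegree_mul hm, natDegree_X_sub_C, Fintype.card_fin] at h1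
    exact h1
  let e : Unit ⊕ Fin f.natDegree ≃ Fin n := Fintype.equivOfCardEq (by simp [hn])
  let Z0 : Matrix (Unit ⊕ Fin f.natDegree) (Unit ⊕ Fin f.natDegree) K := fromBlocks (l • (1 : Matrix Unit Unit K)) 0 0 (cpm f.natDegree f)
  let D0 : Matrix (Unit ⊕ Fin f.natDegree) (Unit ⊕ Fin f.natDegree) K := fromBlocks (c • (1 : Matrix Unit Unit K)) 0 0 1
  have hcomm : Z0 * D0 = D0 * Z0 := by
    have h5 : (l • (1 : Matrix Unit Unit K)) * (c • 1) = (c • 1) * (l • (1 : Matrix Unit Unit K)) := by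
      rw [smul_mul_smul_comm, smul_mul_smul_comm, mul_comm l c]
    simp only [Z0, D0, fromBlocks_multiply, h5]
    simp
  have hdet0 : D0.det = c := by
    simp [D0]
  have hch0 : Z0.charpoly = (X - C l) * f := by
    have h2 : (l • (1 : Matrix Unit Unit K)).charpoly = X - C l := by
      simp [Matrix.charpoly, Matrix.charmatrix, Matrix.det_unique]
    have h3 : Z0.charpoly = (l • (1 : Matrix Unit Unit K)).charpoly * (cpm f.natDegree f).charpoly :=
      Matrix.charpoly_fromBlocks_zero₂₁ _ _ _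
    rw [h3, h2, cpm_charpoly hm rfl]
  have hch : (reindex e e Z0).charpoly = (X - C l) * f := by
    rw [Matrix.charpoly_reindex, hch0]
  obtain ⟨P, hP, hZP⟩ := conj_GL (reindex e e Z0) Z hf hm hd hch h
  have hPu : IsUnit P.det := isUnit_iff_ne_zero.mpr hP
  have hcomm' : reindex e e Z0 * reindex e e D0 = reindex e e D0 * reindex e e Z0 := by
    simp only [reindex_apply, submatrix_mul_equiv]
    rw [hcomm]
  have hZ : Z = P * reindex e e Z0 * P⁻¹ := by
    rw [← hZP, Matrix.mul_assoc, Matrix.mul_nonsing_inv _ hPu, Matrix.mul_one]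
  refine ⟨P * reindex e e D0 * P⁻¹, ?_, ?_⟩
  · rw [det_mul, det_mul, mul_right_comm, ← det_mul, Matrix.mul_nonsing_inv _ hPu, det_one, one_mul, det_reindex_self, hdet0]
  · have hl : Z * (P * reindex e e D0 * P⁻¹) = P * (reindex e e Z0 * reindex e e D0) * P⁻¹ := by
      rw [← Matrix.mul_assoc, ← Matrix.mul_assoc, hZP]
      simp only [Matrix.mul_assoc]
    have hr : (P * reindex e e D0 * P⁻¹) * Z = P * (reindex e e D0 * reindex e e Z0) * P⁻¹ := by
      have h4 : P⁻¹ * Z = reindex e e Z0 * P⁻¹ := by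
        rw [hZ, ← Matrix.mul_assoc, ← Matrix.mul_assoc, Matrix.nonsing_inv_mul _ hPu, Matrix.one_mul]
      rw [Matrix.mul_assoc, h4]
      simp only [Matrix.mul_assoc]
    rw [hl, hr, hcomm']
-- END mh

-- BEGIN mi
/-- MODULE mi. Conjugacy in `SL`. -/
theorem conj_SL {n : ℕ} (w : SpecialLinearGroup (Fin n) K) (Z : Matrix (Fin n) (Fin n) K) {f : K[X]} {l : K} (hf : Irreducible f) (hm : f.Monic) (hd : 2 ≤ f.natDegree)
    (h : w.1.charpoly = (X - C l) * f) (h' : Z.charpoly = (X - C l) * f) :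
    ∃ P : SpecialLinearGroup (Fin n) K, Z = (P * w * P⁻¹ : SpecialLinearGroup (Fin n) K).1 := by
  obtain ⟨P, hP0, hP⟩ := conj_GL w.1 Z hf hm hd h h'
  obtain ⟨D, hD, hwD⟩ := cent_det w.1 hf hm hd h (P.det)⁻¹
  have hdet : (P * D).det = 1 := by
    rw [Matrix.det_mul, hD, mul_inv_cancel₀ hP0]
  let Q : SpecialLinearGroup (Fin n) K := ⟨P * D, hdet⟩
  refine ⟨Q, ?_⟩
  have h1 : Z * Q.1 = Q.1 * w.1 := by
    have h2 : Q.1 = P * D := rfl
    rw [h2, ← Matrix.mul_assoc, hP, Matrix.mul_assoc, hwD, ← Matrix.mul_assoc]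
  have h3 : Q.1 * (Q⁻¹).1 = 1 := by
    have h4 : (Q * Q⁻¹).1 = (1 : SpecialLinearGroup (Fin n) K).1 := by
      rw [mul_inv_cancel]
    exact h4
  have h5 : (Q * w * Q⁻¹ : SpecialLinearGroup (Fin n) K).1 = Q.1 * w.1 * (Q⁻¹).1 := rfl
  rw [h5, ← h1, Matrix.mul_assoc, h3, Matrix.mul_one]
-- END mi

-- BEGIN mj
/-- MODULE mj. PRODUCT LEMMA in `SL_n(K)`: every non scalar element is a product of two conjugates of `w`. (`prodM` with `l1 = l2 = l`, `f1 = f2 = f`: `1 = det w = ± l f(0)`, so `l^2 f(0)^2 = 1 = det M`; then `conj_SL`.) -/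
theorem prodSL {n : ℕ} (hK : ∃ d : K, d ≠ 0 ∧ d ≠ 1) (h3 : ¬ 3 ∣ n ∨ 4 ≤ Nat.card K) (w : SpecialLinearGroup (Fin n) K) {f : K[X]} {l : K} (hf : Irreducible f) (hm : f.Monic)
    (hd : 2 ≤ f.natDegree) (hw : w.1.charpoly = (X - C l) * f) (M : SpecialLinearGroup (Fin n) K) (hM : ∀ c : K, M.1 ≠ c • 1) :
    ∃ P Q : SpecialLinearGroup (Fin n) K, M = P * w * P⁻¹ * (Q * w * Q⁻¹) := by
  have hn : f.natDegree + 1 = n := by
    have h1 : w.1.charpoly.natDegree = Fintype.card (Fin n) := Matrix.charpoly_natDegree_eq_dim w.1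
    rw [hw, Polynomial.natDegree_mul (Polynomial.X_sub_C_ne_zero l) hm.ne_zero, Polynomial.natDegree_X_sub_C,
      Fintype.card_fin] at h1
    omega
  have hdet : l * l * (f.coeff 0 * f.coeff 0) = M.1.det := by
    have h1 := Matrix.det_eq_sign_charpoly_coeff w.1
    rw [w.2, hw, Polynomial.mul_coeff_zero, Polynomial.coeff_sub, Polynomial.coeff_X_zero, Polynomial.coeff_C_zero,
      zero_sub] at h1
    rw [M.2]
    have h2 : ((-1 : K) ^ Fintype.card (Fin n)) * (-1 : K) ^ Fintype.card (Fin n) = 1 := by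
      rw [← mul_pow]
      simp
    calc l * l * (f.coeff 0 * f.coeff 0)
        = (((-1 : K) ^ Fintype.card (Fin n)) * (-1 : K) ^ Fintype.card (Fin n)) * (-l * f.coeff 0) * (-l * f.coeff 0) := by
          rw [h2]; ring
      _ = ((-1 : K) ^ Fintype.card (Fin n) * (-l * f.coeff 0)) * ((-1 : K) ^ Fintype.card (Fin n) * (-l * f.coeff 0)) := by ring
      _ = 1 := by rw [← h1, mul_one]
  have h0 : M.1.det ≠ 0 := by
    rw [M.2]
    exact one_ne_zero
  obtain ⟨Z1, Z2, c1, c2, hZ⟩ := prodM hK h3 M.1 hM hm hm hn hn hdet h0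
  obtain ⟨P, hP⟩ := conj_SL w Z1 hf hm hd hw c1
  obtain ⟨Q, hQ⟩ := conj_SL w Z2 hf hm hd hw c2
  refine ⟨P, Q, Subtype.ext ?_⟩
  rw [hZ, hP, hQ]
  rfl
-- END mj

end ThPL
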