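import Pool.Agent.ThPL.Defs

/-! # Cyclic vectors and splitting -/

namespace ThPL
open Polynomial Module

variable {K : Type*} [Field K] {V : Type*} [AddCommGroup V] [Module K V] [FiniteDimensional K V]

-- BEGIN ca
theorem max_vec (N : Module.End K V) : ∃ v : V, ∀ g : K[X], aeval N g v = 0 → aeval N g = 0 := by
  classical
  have hof : ∀ (g : K[X]) (w : V), (Module.AEval'.of N) (aeval N g w) = g • (Module.AEval'.of N) w := fun g w =>
    Module.AEval.of_aeval_smul (R := K) (M := V) (a := N) g w
  have htor : Module.IsTorsion K[X] (Module.AEval' N) := by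
    intro x
    refine ⟨⟨minpoly K N, mem_nonZeroDivisors_of_ne_zero (minpoly.ne_zero (Algebra.IsIntegral.isIntegral N))⟩, ?_⟩
    obtain ⟨w, rfl⟩ := (Module.AEval'.of N).surjective x
    change minpoly K N • (Module.AEval'.of N) w = 0
    rw [← hof, minpoly.aeval, LinearMap.zero_apply, map_zero]
  obtain ⟨ι, fι, p, hp, e, ⟨E⟩⟩ := Module.equiv_directSum_of_isTorsion htor
  let E1 : Module.AEval' N ≃ₗ[K[X]] (∀ i, K[X] ⧸ (Submodule.span K[X] {p i ^ e i})) :=
    E.trans (DirectSum.linearEquivFunOnFintype K[X] ι _)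
  let y : ∀ i, K[X] ⧸ (Submodule.span K[X] {p i ^ e i}) := fun i => Submodule.Quotient.mk 1
  obtain ⟨v, hv⟩ := (Module.AEval'.of N).surjective (E1.symm y)
  refine ⟨v, fun g hg => ?_⟩
  have h1 : g • y = 0 := by
    have h2 := hof g v
    rw [hg, map_zero, hv, ← map_smul] at h2
    have h3 := congrArg E1 h2
    rw [map_zero, LinearEquiv.apply_symm_apply] at h3
    exact h3.symm
  have h4 : ∀ z : ∀ i, K[X] ⧸ (Submodule.span K[X] {p i ^ e i}), g • z = 0 := by
    intro z
    funext i
    obtain ⟨f, hf⟩ := Submodule.Quotient.mk_surjective _ (z i)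
    have h5 : g • (Submodule.Quotient.mk 1 : K[X] ⧸ (Submodule.span K[X] {p i ^ e i})) = 0 := congrFun h1 i
    rw [Pi.smul_apply, Pi.zero_apply, ← hf]
    have h6 : (Submodule.Quotient.mk f : K[X] ⧸ (Submodule.span K[X] {p i ^ e i})) = f • Submodule.Quotient.mk 1 := by
      rw [← Submodule.Quotient.mk_smul, smul_eq_mul, mul_one]
    rw [h6, smul_comm, h5, smul_zero]
  refine LinearMap.ext fun w => ?_
  rw [LinearMap.zero_apply]
  apply (Module.AEval'.of N).injective
  rw [map_zero, hof]
  apply E1.injective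
  rw [map_zero, map_smul]
  exact h4 _
-- END ca

-- BEGIN cb
omit [FiniteDimensional K V] in
private theorem cb_coeff {N : Module.End K V} {v : V} {k : ℕ} {φ : V →ₗ[K] K} (h0 : ∀ i < k, φ ((N ^ i) v) = 0) (h1 : φ ((N ^ k) v) = 1)
    {p : K[X]} (hp : p.natDegree ≤ k) : φ (aeval N p v) = p.coeff k := by
  have h2 : aeval N p = ∑ i ∈ Finset.range (k + 1), p.coeff i • N ^ i := by
    rw [aeval_eq_sum_range' (by omega : p.natDegree < k + 1)]
  rw [h2, LinearMap.sum_apply, map_sum, Finset.sum_range_succ, Finset.sum_eq_zero, zero_add, LinearMap.smul_apply, map_smul, h1, smul_eq_mul, mul_one]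
  intro i hi
  rw [LinearMap.smul_apply, map_smul, h0 i (Finset.mem_range.mp hi), smul_zero]

omit [FiniteDimensional K V] in
private theorem cb_zero {N : Module.End K V} {v : V} {k : ℕ} {φ : V →ₗ[K] K} (h0 : ∀ i < k, φ ((N ^ i) v) = 0) (h1 : φ ((N ^ k) v) = 1)
    {g : K[X]} (hg : g.natDegree ≤ k) (h : ∀ i ≤ k, φ ((N ^ i) (aeval N g v)) = 0) : g = 0 := by
  by_contra hne
  have h2 := h (k - g.natDegree) (by omega)
  have h3 : (N ^ (k - g.natDegree)) (aeval N g v) = aeval N (X ^ (k - g.natDegree) * g) v := by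
    rw [map_mul, map_pow, aeval_X]
    rfl
  have h4 : (X ^ (k - g.natDegree) * g).natDegree ≤ k := by
    refine (natDegree_mul_le).trans ?_
    rw [natDegree_X_pow]
    omega
  rw [h3, cb_coeff h0 h1 h4, coeff_X_pow_mul'] at h2
  rw [if_pos (by omega)] at h2
  have h5 : k - (k - g.natDegree) = g.natDegree := by omega
  rw [h5] at h2
  exact hne (leadingCoeff_eq_zero.mp h2)

/-- MODULE cb. A maximal vector splits off. -/
theorem cyc_of_max (N : Module.End K V) {v : V} (hv : ∀ g : K[X], aeval N g v = 0 → aeval N g = 0) :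
    ∃ V' : Submodule K V, Cyc N V' v (minpoly K N).natDegree := by
  classical
  have hint : IsIntegral K N := Algebra.IsIntegral.isIntegral N
  have hmon : (minpoly K N).Monic := minpoly.monic hint
  rcases Nat.eq_zero_or_pos (minpoly K N).natDegree with hl | hl
  · have hone : minpoly K N = 1 := hmon.natDegree_eq_zero.mp hl
    have hz : ∀ y : V, y = 0 := by
      intro y
      have h1 := minpoly.aeval K N
      rw [hone, map_one] at h1
      have h2 := congrArg (fun f : Module.End K V => f y) h1
      simpa using h2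
    refine ⟨⊤, ⟨fun _ _ => trivial, ⟨1, monic_one, by rw [hl, natDegree_one], hz _⟩, ?_, ?_⟩⟩
    · intro x _ g hg _
      rw [hl, Nat.cast_zero] at hg
      refine ⟨hz x, ?_⟩
      by_contra h
      exact absurd (zero_le_degree_iff.mpr h) (not_le.mpr hg)
    · intro y
      exact ⟨y, trivial, 0, by rw [degree_zero]; exact WithBot.bot_lt_coe _, by rw [map_zero, LinearMap.zero_apply, add_zero]⟩
  · obtain ⟨k, hk⟩ : ∃ k, (minpoly K N).natDegree = k + 1 := ⟨_, (Nat.succ_pred_eq_of_pos hl).symm⟩
    rw [hk]
    have hli : LinearIndependent K (fun i : Fin (k + 1) => (N ^ (i : ℕ)) v) := by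
      rw [Fintype.linearIndependent_iff]
      intro c hc
      let g : K[X] := ∑ i : Fin (k + 1), C (c i) * X ^ (i : ℕ)
      have hg : aeval N g v = 0 := by
        simp only [g, map_sum, map_mul, map_pow, aeval_C, aeval_X, LinearMap.sum_apply]
        rw [← hc]
        refine Finset.sum_congr rfl fun i _ => ?_
        rw [Module.End.mul_apply, Module.algebraMap_end_apply]
      have hdeg : g.degree < (minpoly K N).degree := by
        rw [degree_eq_natDegree hmon.ne_zero, hk]
        refine lt_of_le_of_lt (degree_sum_le _ _) ?_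
        rw [Finset.sup_lt_iff (by rw [bot_lt_iff_ne_bot]; exact WithBot.coe_ne_bot)]
        intro i _
        refine lt_of_le_of_lt (degree_C_mul_X_pow_le _ _) ?_
        exact_mod_cast i.2
      have hg0 : g = 0 := by
        by_contra hne
        exact absurd (minpoly.degree_le_of_ne_zero K N hne (hv g hg)) (not_le.mpr hdeg)
      intro i
      have h3 : g.coeff (i : ℕ) = c i := by
        simp only [g, finset_sum_coeff, coeff_C_mul, coeff_X_pow]
        rw [Finset.sum_eq_single i]
        · simp
        · intro j _ hj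
          rw [if_neg (fun h => hj (Fin.ext h.symm)), mul_zero]
        · simp
      rw [← h3, hg0, coeff_zero]
    obtain ⟨φ, hφ⟩ : ∃ φ : V →ₗ[K] K, ∀ i : Fin (k + 1), φ ((N ^ (i : ℕ)) v) = if (i : ℕ) = k then 1 else 0 := by
      let b := Basis.span hli
      obtain ⟨φ, h⟩ := LinearMap.exists_extend (b.constr K (fun i : Fin (k + 1) => if (i : ℕ) = k then (1 : K) else 0))
      refine ⟨φ, fun i => ?_⟩
      have h2 : ((b i : Submodule.span K (Set.range fun i : Fin (k + 1) => (N ^ (i : ℕ)) v)) : V) = (N ^ (i : ℕ)) v := by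
        rw [Basis.span_apply]
      have h3 := congrArg (fun f => f (b i)) h
      simp only [LinearMap.comp_apply, Submodule.subtype_apply, Basis.constr_basis] at h3
      rw [h2] at h3
      exact h3
    have h0 : ∀ i < k, φ ((N ^ i) v) = 0 := by
      intro i hi
      have := hφ ⟨i, by omega⟩
      rw [if_neg (by simp only; omega)] at this
      exact this
    have h1 : φ ((N ^ k) v) = 1 := by
      have := hφ ⟨k, by omega⟩
      rw [if_pos rfl] at this
      exact this
    let V' : Submodule K V := ⨅ i : ℕ, LinearMap.ker (φ ∘ₗ (N ^ i))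
    have hV' : ∀ x, x ∈ V' ↔ ∀ i : ℕ, φ ((N ^ i) x) = 0 := fun x => by
      simp only [V', Submodule.mem_iInf, LinearMap.mem_ker, LinearMap.comp_apply]
    have hdl : ∀ {g : K[X]}, g.degree < ((k + 1 : ℕ) : WithBot ℕ) → g.natDegree ≤ k := by
      intro g hg
      by_cases hg0 : g = 0
      · rw [hg0, natDegree_zero]
        omega
      · rw [degree_eq_natDegree hg0] at hg
        have : g.natDegree < k + 1 := by exact_mod_cast hg
        omega
    refine ⟨V', ⟨?_, ⟨minpoly K N, hmon, hk, by rw [minpoly.aeval]; rfl⟩, ?_, ?_⟩⟩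
    · intro x hx
      rw [hV'] at hx ⊢
      intro i
      have := hx (i + 1)
      rw [pow_succ, Module.End.mul_apply] at this
      exact this
    · intro x hx g hg hxg
      rw [hV'] at hx
      have hg0 : g = 0 := by
        refine cb_zero h0 h1 (hdl hg) fun i _ => ?_
        have h5 : aeval N g v = -x := by
          rw [eq_neg_iff_add_eq_zero, add_comm]
          exact hxg
        rw [h5, map_neg, map_neg, hx i, neg_zero]
      refine ⟨?_, hg0⟩
      rw [hg0, map_zero, LinearMap.zero_apply, add_zero] at hxg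
      exact hxg
    · intro y
      let Ψ : degreeLT K (k + 1) →ₗ[K] (Fin (k + 1) → K) :=
        LinearMap.pi fun i => (φ ∘ₗ (N ^ (i : ℕ))) ∘ₗ (LinearMap.applyₗ v) ∘ₗ (aeval N).toLinearMap ∘ₗ (degreeLT K (k + 1)).subtype
      have hΨ : ∀ (g : degreeLT K (k + 1)) (i : Fin (k + 1)), Ψ g i = φ ((N ^ (i : ℕ)) (aeval N g.1 v)) := fun _ _ => rfl
      have hinj : Function.Injective Ψ := by
        rw [injective_iff_map_eq_zero]
        intro g hg
        apply Subtype.ext
        refine cb_zero h0 h1 (hdl (mem_degreeLT.mp g.2)) fun i hi => ?_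
        rw [← hΨ g ⟨i, by omega⟩, hg]
        rfl
      have hsurj : Function.Surjective Ψ := by
        have hfr : finrank K (degreeLT K (k + 1)) = finrank K (Fin (k + 1) → K) := (degreeLTEquiv K (k + 1)).finrank_eq
        haveI : FiniteDimensional K (degreeLT K (k + 1)) := Module.Finite.equiv (degreeLTEquiv K (k + 1)).symm
        exact (LinearMap.injective_iff_surjective_of_finrank_eq_finrank hfr).mp hinj
      obtain ⟨g, hg⟩ := hsurj fun i => φ ((N ^ (i : ℕ)) y)
      have hlow : ∀ i, i ≤ k → φ ((N ^ i) (y - aeval N g.1 v)) = 0 := by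
        intro i hi
        rw [map_sub, map_sub, ← hΨ g ⟨i, by omega⟩, hg, sub_self]
      refine ⟨y - aeval N g.1 v, ?_, g.1, mem_degreeLT.mp g.2, by rw [sub_add_cancel]⟩
      rw [hV']
      intro i
      have h6 : N ^ i = aeval N ((X ^ i : K[X]) %ₘ minpoly K N) := by
        have h7 : aeval N (X ^ i : K[X]) = aeval N ((X ^ i : K[X]) %ₘ minpoly K N) := by
          conv_lhs => rw [← modByMonic_add_div (X ^ i : K[X]) (minpoly K N)]
          rw [map_add, map_mul, minpoly.aeval, zero_mul, add_zero]
        rw [← h7, map_pow, aeval_X]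
      have h8 : ((X ^ i : K[X]) %ₘ minpoly K N).natDegree < k + 1 := by
        have := natDegree_modByMonic_lt (X ^ i : K[X]) hmon (by
          intro h
          rw [h, natDegree_one] at hk
          omega)
        omega
      rw [h6, aeval_eq_sum_range' h8, LinearMap.sum_apply, map_sum]
      refine Finset.sum_eq_zero fun j hj => ?_
      rw [LinearMap.smul_apply, map_smul, hlow j (by have := Finset.mem_range.mp hj; omega), smul_zero]
-- END cb

-- BEGIN cc
private theorem cc_indep {κ : Type*} [Fintype κ] (g : κ → K[X]) (hg : ∀ k, (g k).Monic)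
    (hinj : Function.Injective fun k => (g k).natDegree) (c : κ → K) (h0 : ∑ k, C (c k) * g k = 0) : c = 0 := by
  classical
  by_contra hc
  have hne : (Finset.univ.filter fun k => c k ≠ 0).Nonempty := by
    by_contra h1
    apply hc
    funext k
    by_contra h2
    exact h1 ⟨k, Finset.mem_filter.2 ⟨Finset.mem_univ k, h2⟩⟩
  obtain ⟨k0, hk0, hmax⟩ := Finset.exists_max_image _ (fun k => (g k).natDegree) hne
  have hck : c k0 ≠ 0 := (Finset.mem_filter.1 hk0).2
  have h3 : (∑ k, C (c k) * g k).coeff (g k0).natDegree = c k0 := by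
    rw [Polynomial.finsetSum_coeff, Finset.sum_eq_single k0]
    · rw [Polynomial.coeff_C_mul, Polynomial.Monic.coeff_natDegree (hg k0), mul_one]
    · intro k _ hk
      rw [Polynomial.coeff_C_mul]
      by_cases hz : c k = 0
      · rw [hz, zero_mul]
      · have h4 : (g k).natDegree ≤ (g k0).natDegree := hmax k (Finset.mem_filter.2 ⟨Finset.mem_univ k, hz⟩)
        have h5 : (g k).natDegree ≠ (g k0).natDegree := fun h => hk (hinj h)
        rw [Polynomial.coeff_eq_zero_of_natDegree_lt (lt_of_le_of_ne h4 h5), mul_zero]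
    · intro h
      exact absurd (Finset.mem_univ k0) h
  rw [h0, Polynomial.coeff_zero] at h3
  exact hck h3.symm

theorem poly_fam {κ : Type*} [Fintype κ] {l : ℕ} (g : κ → K[X]) (hg : ∀ k, (g k).Monic) (hlt : ∀ k, (g k).natDegree < l)
    (hinj : Function.Injective fun k => (g k).natDegree) (hc : Fintype.card κ = l) :
    (∀ p : K[X], p.degree < l → ∃ c : κ → K, p = ∑ k, C (c k) * g k) ∧ ∀ c : κ → K, ∑ k, C (c k) * g k = 0 → c = 0 := by
  classical
  refine ⟨?_, fun c h => cc_indep g hg hinj c h⟩
  have hdeg : ∀ k, (g k).degree < (l : WithBot ℕ) := fun k =>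
    lt_of_le_of_lt Polynomial.degree_le_natDegree (by exact_mod_cast hlt k)
  let v : κ → Polynomial.degreeLT K l := fun k => ⟨g k, Polynomial.mem_degreeLT.2 (hdeg k)⟩
  have hli : LinearIndependent K v := by
    rw [Fintype.linearIndependent_iff]
    intro c h k
    have h1 : ∑ k, C (c k) * g k = 0 := by
      have h2 := congrArg Subtype.val h
      rw [Submodule.coe_sum] at h2
      rw [← h2.trans (Submodule.coe_zero (p := Polynomial.degreeLT K l))]
      refine Finset.sum_congr rfl fun k _ => ?_
      rw [Submodule.coe_smul, Polynomial.smul_eq_C_mul]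
    exact congrFun (cc_indep g hg hinj c h1) k
  have hfr : Fintype.card κ = finrank K (Polynomial.degreeLT K l) := by
    rw [hc, (Polynomial.degreeLTEquiv K l).finrank_eq, Module.finrank_fin_fun]
  have : FiniteDimensional K (Polynomial.degreeLT K l) :=
    Module.Finite.equiv (Polynomial.degreeLTEquiv K l).symm
  intro p hp
  have hsp := hli.span_eq_top_of_card_eq_finrank' hfr
  have hmem : (⟨p, Polynomial.mem_degreeLT.2 hp⟩ : Polynomial.degreeLT K l) ∈ Submodule.span K (Set.range v) := by
    rw [hsp]
    trivial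
  obtain ⟨c, hcc⟩ := (Submodule.mem_span_range_iff_exists_fun K).1 hmem
  refine ⟨c, ?_⟩
  have h2 := congrArg Subtype.val hcc
  rw [Submodule.coe_sum] at h2
  refine h2.symm.trans ?_
  refine Finset.sum_congr rfl fun k _ => ?_
  rw [Submodule.coe_smul, Polynomial.smul_eq_C_mul]
-- END cc

-- BEGIN cd
/-- MODULE cd. A basis of `V` from a basis of `V'` and the vectors `g_k(N) v` (from `poly_fam` and `Cyc`). -/
theorem cyc_basis {N : Module.End K V} {V' : Submodule K V} {v : V} {l : ℕ} (h : Cyc N V' v l) {ι κ : Type*} [Fintype κ] (u : Basis ι K V')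
    (g : κ → K[X]) (hg : ∀ k, (g k).Monic) (hlt : ∀ k, (g k).natDegree < l)
    (hinj : Function.Injective fun k => (g k).natDegree) (hc : Fintype.card κ = l) :
    ∃ e : Basis (ι ⊕ κ) K V, (∀ i, e (Sum.inl i) = (u i : V)) ∧ ∀ k, e (Sum.inr k) = aeval N (g k) v := by
  classical
  obtain ⟨hspan, hind⟩ := poly_fam g hg hlt hinj hc
  have hsum : ∀ c : κ → K, ∑ k, c k • (aeval N (g k) v) = aeval N (∑ k, C (c k) * g k) v := by
    intro c
    rw [map_sum, LinearMap.sum_apply]
    refine Finset.sum_congr rfl fun k _ => ?_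
    rw [← smul_eq_C_mul, map_smul, LinearMap.smul_apply]
  have hdeg : ∀ c : κ → K, (∑ k, C (c k) * g k).degree < l := by
    intro c
    refine Polynomial.mem_degreeLT.1 (Submodule.sum_mem _ fun k _ => ?_)
    rw [← smul_eq_C_mul]
    refine Submodule.smul_mem _ _ (Polynomial.mem_degreeLT.2 ?_)
    exact Polynomial.degree_le_natDegree.trans_lt (by exact_mod_cast hlt k)
  have li1 : LinearIndependent K (fun i => (u i : V)) :=
    u.linearIndependent.map' V'.subtype (Submodule.ker_subtype V')
  have li2 : LinearIndependent K (fun k => aeval N (g k) v) := by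
    rw [Fintype.linearIndependent_iff]
    intro c hc0
    rw [hsum] at hc0
    have h1 := (h.uniq 0 V'.zero_mem _ (hdeg c) (by rw [zero_add]; exact hc0)).2
    exact fun k => congrFun (hind c h1) k
  have disj : Disjoint (Submodule.span K (Set.range fun i => (u i : V)))
      (Submodule.span K (Set.range fun k => aeval N (g k) v)) := by
    rw [Submodule.disjoint_def]
    intro z hz1 hz2
    have h1 : z ∈ V' := by
      refine (Submodule.span_le.2 ?_) hz1
      rintro _ ⟨i, rfl⟩
      exact (u i).2
    obtain ⟨c, hc1⟩ := (Submodule.mem_span_range_iff_exists_fun K).1 hz2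
    have h2 := h.uniq z h1 (-(∑ k, C (c k) * g k)) (by rw [degree_neg]; exact hdeg c)
      (by rw [map_neg, LinearMap.neg_apply, ← hsum, hc1, add_neg_cancel])
    exact h2.1
  have li : LinearIndependent K (Sum.elim (fun i => (u i : V)) fun k => aeval N (g k) v) :=
    LinearIndependent.sum_type li1 li2 disj
  have sp : ⊤ ≤ Submodule.span K (Set.range (Sum.elim (fun i => (u i : V)) fun k => aeval N (g k) v)) := by
    intro y _
    obtain ⟨x, hx, p, hp, rfl⟩ := h.gen y
    obtain ⟨c, rfl⟩ := hspan p hp
    refine Submodule.add_mem _ ?_ ?_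
    · have h1 : (⟨x, hx⟩ : V') ∈ Submodule.span K (Set.range u) := by
        rw [u.span_eq]
        trivial
      have h2 := Submodule.mem_map_of_mem (f := V'.subtype) h1
      rw [Submodule.map_span] at h2
      refine Submodule.span_mono ?_ h2
      rintro _ ⟨_, ⟨i, rfl⟩, rfl⟩
      exact ⟨Sum.inl i, rfl⟩
    · rw [← hsum]
      refine Submodule.sum_mem _ fun k _ => Submodule.smul_mem _ _ (Submodule.subset_span ⟨Sum.inr k, rfl⟩)
  refine ⟨Basis.mk li sp, fun i => ?_, fun k => ?_⟩
  · rw [Basis.mk_apply]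
    rfl
  · rw [Basis.mk_apply]
    rfl
-- END cd

-- BEGIN ce
/-- MODULE ce. `l` plus the dimension of `V'` is the dimension of `V` (from `cyc_basis` with `κ = Fin l`, `g i = X ^ i`). -/
theorem cyc_finrank {N : Module.End K V} {V' : Submodule K V} {v : V} {l : ℕ} (h : Cyc N V' v l) : finrank K V' + l = finrank K V := by
  obtain ⟨e, -, -⟩ := cyc_basis h (finBasis K V') (fun i : Fin l => (X : K[X]) ^ (i : ℕ)) (fun k => monic_X_pow _)
    (fun k => by rw [natDegree_X_pow]; exact k.2)
    (fun i j hij => Fin.ext (by simpa only [natDegree_X_pow] using hij)) (Fintype.card_fin l)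
  rw [finrank_eq_card_basis e, Fintype.card_sum, Fintype.card_fin, Fintype.card_fin]
-- END ce

end ThPL
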