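import Pool.Agent.ThPL.LemT
import Pool.Agent.ThPL.Comp

/-! # Case (a): a two dimensional non scalar quotient -/

namespace ThPL
open Polynomial Module Matrix

variable {K : Type*} [Field K] {V : Type*} [AddCommGroup V] [Module K V] [FiniteDimensional K V]

-- BEGIN aa
/-- MODULE aa. If `u` is a basis of `W0 = ker φ ∩ ker φ'`, `φ w = 0`, `φ' w ≠ 0`, `φ x1 ≠ 0` then `x1, u, w` is a basis of `V`. -/
theorem basis_two (φ φ' : V →ₗ[K] K) {ι : Type*} [Fintype ι] (u : Basis ι K (LinearMap.ker φ ⊓ LinearMap.ker φ' : Submodule K V)) {w x1 : V} (hw : φ w = 0)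
    (hw' : φ' w ≠ 0) (hx : φ x1 ≠ 0) :
    ∃ e : Basis (Unit ⊕ (ι ⊕ Unit)) K V, e (Sum.inl ()) = x1 ∧ (∀ i, e (Sum.inr (Sum.inl i)) = (u i : V)) ∧ e (Sum.inr (Sum.inr ())) = w := by
  classical
  have hu : ∀ i, φ (u i : V) = 0 ∧ φ' (u i : V) = 0 := fun i => ⟨(u i).2.1, (u i).2.2⟩
  set b : Unit ⊕ (ι ⊕ Unit) → V := Sum.elim (fun _ => x1) (Sum.elim (fun i => (u i : V)) (fun _ => w)) with hb
  have hli : LinearIndependent K b := by
    rw [Fintype.linearIndependent_iff]
    intro g hg
    rw [Fintype.sum_sum_type, Fintype.sum_sum_type, Fintype.sum_unique (ι := Unit), Fintype.sum_unique (ι := Unit)] at hg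
    have hg' : g (Sum.inl ()) • x1 + (∑ i, g (Sum.inr (Sum.inl i)) • (u i : V) + g (Sum.inr (Sum.inr ())) • w) = 0 := hg
    have hsφ : φ (∑ i, g (Sum.inr (Sum.inl i)) • (u i : V)) = 0 := by
      rw [map_sum]
      exact Finset.sum_eq_zero fun i _ => by rw [map_smul, (hu i).1, smul_zero]
    have hsφ' : φ' (∑ i, g (Sum.inr (Sum.inl i)) • (u i : V)) = 0 := by
      rw [map_sum]
      exact Finset.sum_eq_zero fun i _ => by rw [map_smul, (hu i).2, smul_zero]
    have h0 : g (Sum.inl ()) = 0 := by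
      have := congrArg φ hg'
      rw [map_add, map_add, hsφ, map_smul, map_smul, hw, smul_zero, add_zero, add_zero, map_zero, smul_eq_mul] at this
      exact (mul_eq_zero.1 this).resolve_right hx
    rw [h0, zero_smul, zero_add] at hg'
    have h1 : g (Sum.inr (Sum.inr ())) = 0 := by
      have := congrArg φ' hg'
      rw [map_add, hsφ', map_smul, zero_add, map_zero, smul_eq_mul] at this
      exact (mul_eq_zero.1 this).resolve_right hw'
    rw [h1, zero_smul, add_zero] at hg'
    have hg3 : ∑ i, g (Sum.inr (Sum.inl i)) • u i = 0 := by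
      apply Subtype.ext
      rw [Submodule.coe_sum]
      exact hg'
    have h2 := Fintype.linearIndependent_iff.1 u.linearIndependent _ hg3
    rintro (_ | i | _)
    · exact h0
    · exact h2 i
    · exact h1
  have hmem : ∀ i, b i ∈ Submodule.span K (Set.range b) := fun i => Submodule.subset_span ⟨i, rfl⟩
  have hsp : ⊤ ≤ Submodule.span K (Set.range b) := by
    intro y _
    set y1 : V := y - (φ y / φ x1) • x1 with hy1
    have e1 : φ y1 = 0 := by
      rw [hy1, map_sub, map_smul, smul_eq_mul, div_mul_cancel₀ _ hx, sub_self]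
    set y2 : V := y1 - (φ' y1 / φ' w) • w with hy2
    have e2 : φ y2 = 0 := by
      rw [hy2, map_sub, map_smul, e1, hw, smul_zero, sub_zero]
    have e3 : φ' y2 = 0 := by
      rw [hy2, map_sub, map_smul, smul_eq_mul, div_mul_cancel₀ _ hw', sub_self]
    have hy2m : y2 ∈ Submodule.span K (Set.range b) := by
      have hrep := congrArg (Subtype.val) (u.sum_repr ⟨y2, e2, e3⟩)
      rw [Submodule.coe_sum] at hrep
      rw [← show _ = y2 from hrep]
      exact Submodule.sum_mem _ fun i _ => by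
        rw [Submodule.coe_smul]
        exact Submodule.smul_mem _ _ (hmem (Sum.inr (Sum.inl i)))
    have hy : y = y2 + (φ' y1 / φ' w) • w + (φ y / φ x1) • x1 := by
      rw [hy2, hy1]; abel
    rw [hy]
    exact Submodule.add_mem _ (Submodule.add_mem _ hy2m (Submodule.smul_mem _ _ (hmem (Sum.inr (Sum.inr ())))))
      (Submodule.smul_mem _ _ (hmem (Sum.inl ())))
  refine ⟨Basis.mk hli hsp, ?_, fun i => ?_, ?_⟩
  · rw [Basis.mk_apply]; rfl
  · rw [Basis.mk_apply]; rfl
  · rw [Basis.mk_apply]; rfl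
-- END aa

-- BEGIN ab
private theorem ab_inj {N : Module.End K V} (h : LinearMap.det N ≠ 0) {x : V} (hx : N x = 0) : x = 0 := by
  have hu : IsUnit (LinearMap.det N) := isUnit_iff_ne_zero.mpr h
  have hN : IsUnit N := (LinearMap.isUnit_iff_isUnit_det N).mpr hu
  have hker : LinearMap.ker N = ⊥ := (LinearMap.isUnit_iff_ker_eq_bot N).mp hN
  have : x ∈ LinearMap.ker N := hx
  rw [hker] at this
  simpa using this

omit [FiniteDimensional K V] in
private theorem ab_det_ne {d : ℕ} {N : Module.End K V} {V' : Submodule K V} (u : Basis (Fin d) K V')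
    (N' : Matrix (Fin d) (Fin d) K) (hN' : ∀ j, N ((u j : V)) = ∑ i, N' i j • (u i : V))
    (hτ : ∀ x ∈ V', N x = 0 → x = 0) : N'.det ≠ 0 := by
  intro h0
  obtain ⟨w, hw, hw0⟩ := Matrix.exists_mulVec_eq_zero_iff.mpr h0
  apply hw
  have hNw : N (∑ j, w j • (u j : V)) = 0 := by
    calc N (∑ j, w j • (u j : V)) = ∑ j, w j • N (u j : V) := by simp [map_sum]
      _ = ∑ j, ∑ i, (N' i j * w j) • (u i : V) := by
          refine Finset.sum_congr rfl fun j _ => ?_
          rw [hN' j, Finset.smul_sum]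
          refine Finset.sum_congr rfl fun i _ => ?_
          rw [smul_smul, mul_comm]
      _ = ∑ i, (∑ j, N' i j * w j) • (u i : V) := by
          rw [Finset.sum_comm]
          refine Finset.sum_congr rfl fun i _ => ?_
          rw [Finset.sum_smul]
      _ = 0 := by
          refine Finset.sum_eq_zero fun i _ => ?_
          have h2 : (N' *ᵥ w) i = ∑ j, N' i j * w j := rfl
          rw [← h2, hw0, Pi.zero_apply, zero_smul]
  have hmem : (∑ j, w j • (u j : V)) ∈ V' := Submodule.sum_mem _ fun j _ => V'.smul_mem _ (u j).2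
  have hz := hτ _ hmem hNw
  have hz' : ∑ j, w j • u j = 0 := by
    apply Subtype.ext
    simpa using hz
  have := Fintype.linearIndependent_iff.mp u.linearIndependent w hz'
  funext j
  exact this j

/-- MODULE ab. Case (a). `W0 = ker φ ∩ ker (φ N)` is `N`-stable of dimension `n - 2` (`basis_two` with `x1 = N w`, `φ (N w) = 1`, `φ N w = 1 ≠ 0`), `u` a basis of `W0` (indexed by `Fin d`), `B0` the matrix of `N|W0` (`N u_j = Σ B0_ij u_i`),
`det B0 ≠ 0` because `N` is injective (`det N ≠ 0` by `hdet`), `τ = 1 / (det B0 f1(0) f2(0))`, `y, Z1', Z2'` from `lemT_inv`; `x1 = N w - τ w - Σ y_i u_i`, `φ x1 = 1`; basis `e` from `basis_two (φ' = φ ∘ N)`; then `N w = x1 + τ w + Σ y_i u_i`, and `fac_of_basis`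
with `B = fromBlocks B0 y 0 τ`. Degrees: `f_i` has degree `d + 1 = n - 1`. -/
theorem case_a (hK : ∃ d : K, d ≠ 0 ∧ d ≠ 1) (N : Module.End K V) {f1 f2 : K[X]} (h1 : f1.Monic) (h2 : f2.Monic)
    (d1 : f1.natDegree + 1 = finrank K V) (d2 : f2.natDegree + 1 = finrank K V) {l1 l2 : K}
    (hdet : l1 * l2 * (f1.coeff 0 * f2.coeff 0) * LinearMap.det N = 1)
    (φ : V →ₗ[K] K) (c0 c1 : K) (hφ : ∀ v, φ (N (N v)) = c1 * φ (N v) + c0 * φ v) {w : V} (hw : φ w = 0) (hw' : φ (N w) = 1) :
    Fac N ((X - C l1) * f1) ((X - C l2) * f2) := by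
  have hd : LinearMap.det N ≠ 0 := by
    intro h0
    rw [h0, mul_zero] at hdet
    exact zero_ne_one hdet
  have hf : f1.coeff 0 * f2.coeff 0 ≠ 0 := by
    intro h0
    rw [h0, mul_zero, zero_mul] at hdet
    exact zero_ne_one hdet
  let W0 : Submodule K V := LinearMap.ker φ ⊓ LinearMap.ker (φ ∘ₗ N)
  have hW : ∀ x, x ∈ W0 ↔ φ x = 0 ∧ φ (N x) = 0 := fun x => by
    simp only [W0, Submodule.mem_inf, LinearMap.mem_ker, LinearMap.comp_apply]
  have hinv : ∀ x ∈ W0, N x ∈ W0 := by
    intro x hx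
    rw [hW] at hx ⊢
    exact ⟨hx.2, by rw [hφ, hx.1, hx.2, mul_zero, mul_zero, add_zero]⟩
  let u : Basis (Fin (finrank K W0)) K W0 := Module.finBasis K W0
  have hcomp : (φ ∘ₗ N) w ≠ 0 := by
    rw [LinearMap.comp_apply, hw']
    exact one_ne_zero
  obtain ⟨e0, -, -, -⟩ := basis_two φ (φ ∘ₗ N) u (x1 := N w) hw hcomp (by rw [hw']; exact one_ne_zero)
  have hfr : finrank K V = finrank K W0 + 2 := by
    rw [Module.finrank_eq_card_basis e0]
    simp only [Fintype.card_sum, Fintype.card_unit, Fintype.card_fin]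
    omega
  let N' : Matrix (Fin (finrank K W0)) (Fin (finrank K W0)) K := Matrix.of fun i j => u.repr ⟨N (u j), hinv _ (u j).2⟩ i
  have hN' : ∀ j, N ((u j : V)) = ∑ i, N' i j • (u i : V) := by
    intro j
    have := u.sum_repr ⟨N (u j), hinv _ (u j).2⟩
    have h2 := congrArg (fun z : W0 => (z : V)) this
    simp only [Submodule.coe_sum, Submodule.coe_smul] at h2
    exact h2.symm
  have hN'0 : N'.det ≠ 0 := ab_det_ne u N' hN' fun x _ hx => ab_inj hd hx
  let τ : K := (N'.det * (f1.coeff 0 * f2.coeff 0))⁻¹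
  have hτ : N'.det * τ * (f1.coeff 0 * f2.coeff 0) = 1 := by
    have h3 : N'.det * (f1.coeff 0 * f2.coeff 0) ≠ 0 := mul_ne_zero hN'0 hf
    have h4 : N'.det * τ * (f1.coeff 0 * f2.coeff 0) = N'.det * (f1.coeff 0 * f2.coeff 0) * τ := by ring
    rw [h4]
    exact mul_inv_cancel₀ h3
  obtain ⟨Z1, Z2, y, e1, e2, hZ⟩ := lemT_inv hK N' h1 h2 (by rw [Fintype.card_fin]; omega) (by rw [Fintype.card_fin]; omega) hτ
  let x1 : V := N w - τ • w - ∑ i, y i () • (u i : V)
  have hu0 : ∀ i, φ (u i : V) = 0 := fun i => ((hW _).mp (u i).2).1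
  have hx1 : φ x1 = 1 := by
    simp only [x1, map_sub, map_smul, map_sum, hw, hw', hu0, smul_zero, Finset.sum_const_zero, sub_zero]
  obtain ⟨e, a1, a2, a3⟩ := basis_two φ (φ ∘ₗ N) u (x1 := x1) hw hcomp (by rw [hx1]; exact one_ne_zero)
  refine fac_of_basis e N (fromBlocks N' y 0 (τ • (1 : Matrix Unit Unit K))) Z1 Z2 ?_ hZ e1 e2 hdet
  rintro (j | j)
  · refine ⟨0, ?_⟩
    rw [zero_smul, zero_add, Fintype.sum_sum_type]
    simp only [fromBlocks_apply₁₁, fromBlocks_apply₂₁, Matrix.zero_apply, zero_smul, Finset.sum_const_zero, add_zero, a2]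
    exact hN' j
  · refine ⟨1, ?_⟩
    rw [one_smul, Fintype.sum_sum_type]
    have hj : e (Sum.inr (Sum.inr j)) = w := a3
    simp only [fromBlocks_apply₁₂, fromBlocks_apply₂₂, a1, a2, hj, Finset.univ_unique, Finset.sum_singleton, Matrix.smul_apply, Matrix.one_apply, smul_eq_mul]
    rw [if_true, mul_one]
    have hy : ∑ i, y i j • (u i : V) = ∑ i, y i () • (u i : V) := rfl
    rw [hy]
    simp only [x1]
    abel
-- END ab

-- BEGIN ac
/-- MODULE ac. A monic divisor `r` of degree `2` of the minimal polynomial `μ = r g` gives a functional: for a vector `v` of maximal annihilator `T v`, `T = g(N)`, is no eigenvector of `N`; `φ = ψ ∘ T` with `ψ (T v) = 0`, `ψ (N T v) = 1`. -/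
theorem exists_phi (N : Module.End K V) {r : K[X]} (hr : r.Monic) (hd : r.natDegree = 2) (hdvd : r ∣ minpoly K N) :
    ∃ (φ : V →ₗ[K] K) (c0 c1 : K), (∀ v, φ (N (N v)) = c1 * φ (N v) + c0 * φ v) ∧ ∃ w : V, φ w = 0 ∧ φ (N w) = 1 := by
  obtain ⟨g, hg⟩ := hdvd
  obtain ⟨v, hv⟩ := max_vec N
  have hmon : (minpoly K N).Monic := minpoly.monic (Algebra.IsIntegral.isIntegral N)
  have hg0 : g ≠ 0 := by
    rintro rfl
    rw [mul_zero] at hg
    exact hmon.ne_zero hg
  have hnot : aeval N g (N v) ∉ Submodule.span K {aeval N g v} := by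
    intro hmem
    obtain ⟨c, hc⟩ := Submodule.mem_span_singleton.1 hmem
    have h1 : aeval N (g * (X - C c)) v = 0 := by
      rw [map_mul, Module.End.mul_apply, map_sub, aeval_X, aeval_C, LinearMap.sub_apply, Module.algebraMap_end_apply, map_sub, map_smul, hc, sub_self]
    have h2 := hv _ h1
    have h3 : minpoly K N ∣ g * (X - C c) := minpoly.dvd K N h2
    have h4 : (minpoly K N).natDegree ≤ (g * (X - C c)).natDegree :=
      natDegree_le_of_dvd h3 (mul_ne_zero hg0 (X_sub_C_ne_zero c))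
    rw [hg, natDegree_mul hr.ne_zero hg0, natDegree_mul hg0 (X_sub_C_ne_zero c), natDegree_X_sub_C, hd] at h4
    omega
  obtain ⟨ψ, hψ, hψ'⟩ := Submodule.exists_le_ker_of_notMem hnot
  have hψ0 : ψ (aeval N g v) = 0 := hψ' (Submodule.mem_span_singleton_self _)
  have hrel : ∀ u, aeval N g (N (N u)) = -(r.coeff 1) • aeval N g (N u) + -(r.coeff 0) • aeval N g u := by
    intro u
    have h1 : aeval N (g * r) u = 0 := by
      rw [mul_comm, ← hg, minpoly.aeval, LinearMap.zero_apply]
    have h2 : r = X ^ 2 + C (r.coeff 1) * X + C (r.coeff 0) := by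
      conv_lhs => rw [hr.as_sum, hd]
      rw [Finset.sum_range_succ, Finset.sum_range_one, pow_zero, pow_one, mul_one]
      ring
    have h3 : aeval N r u = N (N u) + r.coeff 1 • N u + r.coeff 0 • u := by
      conv_lhs => rw [h2]
      rw [map_add, map_add, map_mul, aeval_X_pow, aeval_C, aeval_C, aeval_X, pow_two]
      simp only [LinearMap.add_apply, Module.End.mul_apply, Module.algebraMap_end_apply]
    rw [map_mul, Module.End.mul_apply, h3, map_add, map_add, map_smul, map_smul] at h1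
    rw [neg_smul, neg_smul]
    rw [add_assoc] at h1
    rw [eq_neg_of_add_eq_zero_left h1, neg_add]
  refine ⟨(ψ (aeval N g (N v)))⁻¹ • (ψ ∘ₗ aeval N g), -(r.coeff 0), -(r.coeff 1), fun u => ?_, v, ?_, ?_⟩
  · rw [LinearMap.smul_apply, LinearMap.smul_apply, LinearMap.smul_apply, LinearMap.comp_apply, LinearMap.comp_apply, LinearMap.comp_apply, hrel, map_add, map_smul, map_smul]
    simp only [smul_eq_mul]
    ring
  · rw [LinearMap.smul_apply, LinearMap.comp_apply, hψ0, smul_zero]
  · rw [LinearMap.smul_apply, LinearMap.comp_apply, smul_eq_mul, inv_mul_cancel₀ hψ]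
-- END ac

end ThPL
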