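import Mathlib

/-! # Product lemma (MP_3d54b6_al): definitions -/

namespace ThPL
open Polynomial Module

variable {K : Type*} [Field K] {U : Type*} [AddCommGroup U] [Module K U]

/-- a good pair for `C`: no nonzero subspace of `ker a` is stable under `X0`; `C X0` has no nonzero fixed vector in `ker a`; `C X0` is killed by
a polynomial `X ^ α (X - 1) ^ β` -/
def Good (C X0 : Module.End K U) (a : U →ₗ[K] K) : Prop :=
  (∀ S : Submodule K U, (∀ x ∈ S, a x = 0) → (∀ x ∈ S, X0 x ∈ S) → ∀ x ∈ S, x = 0) ∧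
  (∀ x, C (X0 x) = x → a x = 0 → x = 0) ∧
  ∃ α β : ℕ, ∀ x, ((C * X0) ^ α) (((C * X0 - 1) ^ β) x) = 0

/-- `U` is the direct sum of the invariant subspace `V'` and of the invariant subspace `{g(N) v : deg g < l}`, which has dimension `l` -/
structure Cyc (N : Module.End K U) (V' : Submodule K U) (v : U) (l : ℕ) : Prop where
  inv : ∀ x ∈ V', N x ∈ V'
  rel : ∃ q : K[X], q.Monic ∧ q.natDegree = l ∧ aeval N q v = 0
  uniq : ∀ x ∈ V', ∀ g : K[X], g.degree < l → x + aeval N g v = 0 → x = 0 ∧ g = 0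
  gen : ∀ y, ∃ x ∈ V', ∃ g : K[X], g.degree < l ∧ y = x + aeval N g v

variable (K) in
/-- the shift `(dn x)_i = x_(i+1)` on `K^(l+1)` -/
def dn (l : ℕ) : Module.End K (Fin (l + 1) → K) where
  toFun x i := if h : (i : ℕ) + 1 < l + 1 then x ⟨(i : ℕ) + 1, h⟩ else 0
  map_add' x y := by
    funext i
    simp only [Pi.add_apply]
    split_ifs
    · rfl
    · rw [add_zero]
  map_smul' c x := by
    funext i
    simp only [Pi.smul_apply, RingHom.id_apply]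
    split_ifs
    · rfl
    · rw [smul_zero]

/-- the cyclic block `C u_i = t_i u_i + u_(i+1)` (`i < l`), `C u_l = Σ ρ_j u_j`, with all `t_i ≠ 0` and `ρ_l ≠ 0` -/
def Blk (l : ℕ) (C1 : Module.End K (Fin (l + 1) → K)) : Prop :=
  ∃ t ρ : Fin (l + 1) → K, (∀ i, t i ≠ 0) ∧ ρ (Fin.last l) ≠ 0 ∧ ∀ (x : Fin (l + 1) → K) (i : Fin (l + 1)),
    C1 x i = (if (i : ℕ) = l then 0 else t i * x i) + (if h : 0 < (i : ℕ) then x ⟨(i : ℕ) - 1, by omega⟩ else 0) + ρ i * x (Fin.last l)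

/-- `X0` on `K^(l+1) × U`: `(x', x'') ↦ (dn x' + a2 x'' • u_l, X2 x'')` -/
def XX (l : ℕ) (X2 : Module.End K U) (a2 : U →ₗ[K] K) : Module.End K ((Fin (l + 1) → K) × U) :=
  LinearMap.prod (dn K l ∘ₗ LinearMap.fst K _ _ + (LinearMap.single K (fun _ : Fin (l + 1) => K) (Fin.last l)) ∘ₗ a2 ∘ₗ LinearMap.snd K _ _)
    (X2 ∘ₗ LinearMap.snd K _ _)

/-- the functional `(x', x'') ↦ x'_0` -/
def aa (l : ℕ) : ((Fin (l + 1) → K) × U) →ₗ[K] K := LinearMap.proj (0 : Fin (l + 1)) ∘ₗ LinearMap.fst K (Fin (l + 1) → K) U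

theorem dn_apply (l : ℕ) (x : Fin (l + 1) → K) (i : Fin (l + 1)) : dn K l x i = if h : (i : ℕ) + 1 < l + 1 then x ⟨(i : ℕ) + 1, h⟩ else 0 := rfl

theorem XX_fst (l : ℕ) (X2 : Module.End K U) (a2 : U →ₗ[K] K) (x : (Fin (l + 1) → K) × U) :
    (XX l X2 a2 x).1 = dn K l x.1 + Pi.single (Fin.last l) (a2 x.2) := rfl

theorem XX_snd (l : ℕ) (X2 : Module.End K U) (a2 : U →ₗ[K] K) (x : (Fin (l + 1) → K) × U) : (XX l X2 a2 x).2 = X2 x.2 := rfl

theorem aa_apply (l : ℕ) (x : (Fin (l + 1) → K) × U) : aa (K := K) l x = x.1 0 := rfl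

/-- `N⁻¹` is a product of two endomorphisms with characteristic polynomials `g1`, `g2` -/
def Fac [FiniteDimensional K U] (N : Module.End K U) (g1 g2 : K[X]) : Prop :=
  ∃ Z1 Z2 : Module.End K U, Z1.charpoly = g1 ∧ Z2.charpoly = g2 ∧ N * (Z1 * Z2) = 1

end ThPL
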