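import Pool.Agent.ThPL.Cyc

/-! # Existence of good pairs -/

namespace ThPL
open Polynomial Module

variable {K : Type*} [Field K] {U : Type*} [AddCommGroup U] [Module K U]

-- BEGIN ga
theorem ga_pow {U' : Type*} [AddCommGroup U'] [Module K U'] (e : U ≃ₗ[K] U') (f : Module.End K U) (n : ℕ) :
    (e.conj f) ^ n = e.conj (f ^ n) := by
  induction n with
  | zero =>
    rw [pow_zero, pow_zero]
    ext x
    simp [LinearEquiv.conj_apply]
  | succ n ih =>
    rw [pow_succ, pow_succ, ih]
    ext x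
    simp [LinearEquiv.conj_apply]

/-- MODULE ga. Transport of good pairs. -/
theorem good_conj {U' : Type*} [AddCommGroup U'] [Module K U'] (e : U ≃ₗ[K] U') {C X0 : Module.End K U} {a : U →ₗ[K] K} (h : Good C X0 a) :
    Good (e.conj C) (e.conj X0) (a ∘ₗ (e.symm : U' →ₗ[K] U)) := by
  obtain ⟨h1, h2, α, β, h3⟩ := h
  refine ⟨?_, ?_, α, β, ?_⟩
  · intro S hS1 hS2 x hx
    have := h1 (S.comap (e : U →ₗ[K] U')) ?_ ?_ (e.symm x) (by simpa using hx)
    · simpa using this
    · intro y hy
      have := hS1 _ hy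
      simpa using this
    · intro y hy
      have := hS2 _ hy
      simpa [LinearEquiv.conj_apply] using this
  · intro x hx hax
    have := h2 (e.symm x) ?_ ?_
    · simpa using this
    · have h4 := congrArg e.symm hx
      simpa [LinearEquiv.conj_apply] using h4
    · simpa using hax
  · intro x
    have hm : e.conj C * e.conj X0 = e.conj (C * X0) := by
      ext y
      simp [LinearEquiv.conj_apply]
    have hs : e.conj (C * X0) - 1 = e.conj (C * X0 - 1) := by
      ext y
      simp [LinearEquiv.conj_apply]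
    rw [hm, hs, ga_pow, ga_pow]
    have h4 := h3 (e.symm x)
    have h5 := congrArg e h4
    simpa [LinearEquiv.conj_apply] using h5
-- END ga

-- BEGIN gb
/-- MODULE gb. First condition of `Good` for `XX`, `aa`. For `(x', x'')` in `S` and `i ≤ l`: the `0`-th coordinate of the first component of `XX^i (x', x'')` is `x'_i` (more precisely, by induction on `i`: coordinate `j` of the first
component of `XX^i x` is `x'_(j+i)` as long as `j + i ≤ l`). So `x' = 0` for all elements of `S`; applied to `XX (x', x'')`: `a2 x'' = 0`. Then use `h` for the image (or comap under `x'' ↦ (0, x'')`) of `S` in `U`. -/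
theorem ext_nil (l : ℕ) {X2 : Module.End K U} {a2 : U →ₗ[K] K}
    (h : ∀ S : Submodule K U, (∀ x ∈ S, a2 x = 0) → (∀ x ∈ S, X2 x ∈ S) → ∀ x ∈ S, x = 0) :
    ∀ S : Submodule K ((Fin (l + 1) → K) × U), (∀ x ∈ S, aa (K := K) l x = 0) → (∀ x ∈ S, XX l X2 a2 x ∈ S) → ∀ x ∈ S, x = 0 := by
  intro S hS1 hS2
  have key : ∀ i : ℕ, ∀ hi : i < l + 1, ∀ x ∈ S, x.1 ⟨i, hi⟩ = 0 := by
    intro i
    induction i with
    | zero => intro hi x hx; exact hS1 x hx
    | succ i ih =>
      intro hi x hx
      have h1 := ih (by omega) _ (hS2 x hx)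
      rw [XX_fst, Pi.add_apply, dn_apply, dif_pos hi, Pi.single_eq_of_ne, add_zero] at h1
      · exact h1
      · intro hc
        have := congrArg Fin.val hc
        simp at this
        omega
  have key2 : ∀ x ∈ S, x.1 = 0 := by
    intro x hx
    funext i
    exact key i.1 i.2 x hx
  have key3 : ∀ x ∈ S, a2 x.2 = 0 := by
    intro x hx
    have h1 := key l (by omega) _ (hS2 x hx)
    rw [XX_fst, Pi.add_apply, dn_apply, dif_neg (by simp), zero_add] at h1
    have h2 : (⟨l, by omega⟩ : Fin (l + 1)) = Fin.last l := rfl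
    rw [h2, Pi.single_eq_same] at h1
    exact h1
  have key4 := h (S.comap (LinearMap.inr K (Fin (l + 1) → K) U)) (fun x hx => key3 _ hx) ?_
  · intro x hx
    have h1 := key2 x hx
    have h2 : x = (0, x.2) := Prod.ext h1 rfl
    have h3 := key4 x.2 (by
      rw [Submodule.mem_comap, LinearMap.inr_apply, ← h2]
      exact hx)
    exact Prod.ext h1 h3
  · intro x hx
    rw [Submodule.mem_comap, LinearMap.inr_apply] at hx ⊢
    have h1 := hS2 _ hx
    have h2 := key3 _ hx
    have h3 : XX l X2 a2 ((0 : Fin (l + 1) → K), x) = (0, X2 x) := by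
      apply Prod.ext
      · rw [XX_fst]
        have h4 : a2 ((0 : Fin (l + 1) → K), x).2 = 0 := h2
        rw [h4, map_zero, Pi.single_zero, add_zero]
      · rw [XX_snd]
    rw [h3] at h1
    exact h1
-- END gb

-- BEGIN gc
/-- MODULE gc. Second condition. `y = dn x' + c u_l` with `c = a2 x''`, `C1 y = x'`, `x'_0 = 0`. Coordinates `j ≥ 1` of `C1 y = x'`: `[j < l] t_j x'_(j+1) + ρ_j c = 0`; `j = l ≥ 1`: `ρ_l c = 0`, so `c = 0` and `x'_(j+1) = 0` for `1 ≤ j < l`;
`j = 0`: `t_0 x'_1 + ρ_0 c = x'_0 = 0` (`l ≥ 1`), so `x'_1 = 0`; `l = 0`: `ρ_0 c = x'_0 = 0`, so `c = 0`. Hence `x' = 0`, `a2 x'' = 0`, `C2 (X2 x'') = x''`. -/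
theorem ext_fix {l : ℕ} {C1 : Module.End K (Fin (l + 1) → K)} (hB : Blk l C1) {C2 X2 : Module.End K U} {a2 : U →ₗ[K] K}
    (h : ∀ x, C2 (X2 x) = x → a2 x = 0 → x = 0) :
    ∀ x : (Fin (l + 1) → K) × U, (LinearMap.prodMap C1 C2) (XX l X2 a2 x) = x → aa (K := K) l x = 0 → x = 0 := by
  obtain ⟨t, ρ, ht, hρ, hC⟩ := hB
  intro x hx hax
  have hx0 : x.1 0 = 0 := hax
  have hx1 : C1 ((XX l X2 a2 x).1) = x.1 := congrArg Prod.fst hx
  have hx2 : C2 ((XX l X2 a2 x).2) = x.2 := congrArg Prod.snd hx
  rw [XX_snd] at hx2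
  have hlast : (XX l X2 a2 x).1 (Fin.last l) = a2 x.2 := by
    rw [XX_fst, Pi.add_apply, dn_apply, dif_neg (by simp), zero_add, Pi.single_eq_same]
  have hmid : ∀ i : Fin (l + 1), ∀ hi : (i : ℕ) + 1 < l + 1, (XX l X2 a2 x).1 i = x.1 ⟨(i : ℕ) + 1, hi⟩ := by
    intro i hi
    rw [XX_fst, Pi.add_apply, dn_apply, dif_pos hi, Pi.single_eq_of_ne, add_zero]
    intro hc
    have := congrArg Fin.val hc
    simp at this
    omega
  -- coordinate equations
  have hco : ∀ j : Fin (l + 1), (if (j : ℕ) = l then 0 else t j * (XX l X2 a2 x).1 j) + ρ j * a2 x.2 = if (j : ℕ) = 0 then x.1 j else 0 := by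
    intro j
    have h1 := congrFun hx1 j
    rw [hC, hlast] at h1
    by_cases hj : (j : ℕ) = 0
    · rw [if_pos hj, ← h1, dif_neg (by omega), add_zero]
    · rw [if_neg hj]
      rw [dif_pos (by omega)] at h1
      have h2 := hmid ⟨(j : ℕ) - 1, by omega⟩ (by simp only; omega)
      rw [h2] at h1
      have h3 : (⟨((⟨(j : ℕ) - 1, by omega⟩ : Fin (l + 1)) : ℕ) + 1, by simp only; omega⟩ : Fin (l + 1)) = j := by
        apply Fin.ext
        simp only
        omega
      rw [h3] at h1
      linear_combination h1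
  have hc : a2 x.2 = 0 := by
    have h1 := hco (Fin.last l)
    rw [if_pos (by simp), zero_add] at h1
    have h2 : (if ((Fin.last l : Fin (l + 1)) : ℕ) = 0 then x.1 (Fin.last l) else 0) = 0 := by
      split_ifs with h0
      · have : (Fin.last l : Fin (l + 1)) = 0 := Fin.ext (by simpa using h0)
        rw [this, hx0]
      · rfl
    rw [h2] at h1
    exact (mul_eq_zero.mp h1).resolve_left hρ
  have hxi : ∀ i : ℕ, ∀ hi : i < l + 1, x.1 ⟨i, hi⟩ = 0 := by
    intro i hi
    cases i with
    | zero => exact hx0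
    | succ i =>
      have h1 := hco ⟨i, by omega⟩
      rw [if_neg (by simp only; omega), hc, mul_zero, add_zero] at h1
      have h2 : (if ((⟨i, by omega⟩ : Fin (l + 1)) : ℕ) = 0 then x.1 ⟨i, by omega⟩ else 0) = 0 := by
        split_ifs with h0
        · have : (⟨i, by omega⟩ : Fin (l + 1)) = 0 := Fin.ext (by simpa using h0)
          rw [this, hx0]
        · rfl
      rw [h2] at h1
      have h3 := (mul_eq_zero.mp h1).resolve_left (ht _)
      rw [hmid ⟨i, by omega⟩ (by simp only; omega)] at h3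
      exact h3
  have hxa : x.1 = 0 := by
    funext i
    exact hxi i.1 i.2
  exact Prod.ext hxa (h x.2 hx2 hc)
-- END gc

-- BEGIN gd
/-- MODULE gd. `G1 = C1 dn` satisfies `G1 (G1 - 1)^l = 0`: `((G1 - 1) x)_j = [j < l] t_j x_(j+1) - [j = 0] x_0`; by induction on `k` all coordinates `j ≥ 1` with `j + k > l` of `(G1 - 1)^k x` are `0`;
so `(G1 - 1)^l x` has only coordinate `0`, and `dn` kills it. -/
theorem blk_eig {l : ℕ} {C1 : Module.End K (Fin (l + 1) → K)} (hB : Blk l C1) :
    ∀ x, (C1 * dn K l) (((C1 * dn K l - 1) ^ l) x) = 0 := by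
  obtain ⟨t, ρ, ht, hρ, hC⟩ := hB
  have hG : ∀ (x : Fin (l + 1) → K) (j : Fin (l + 1)), 1 ≤ (j : ℕ) → ((C1 * dn K l - 1 : Module.End K (Fin (l + 1) → K)) x) j = if hj : (j : ℕ) + 1 < l + 1 then t j * x ⟨(j : ℕ) + 1, hj⟩ else 0 := by
    intro x j hj
    rw [LinearMap.sub_apply, Module.End.mul_apply, Module.End.one_apply, Pi.sub_apply, hC]
    have h1 : dn K l x (Fin.last l) = 0 := by
      rw [dn_apply, dif_neg (by simp)]
    rw [h1, mul_zero, add_zero, dif_pos (by omega)]
    have h2 : dn K l x ⟨(j : ℕ) - 1, by omega⟩ = x j := by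
      rw [dn_apply, dif_pos (by simp only; omega)]
      congr 1
      apply Fin.ext
      simp only
      omega
    rw [h2, add_sub_cancel_right]
    by_cases hjl : (j : ℕ) = l
    · rw [if_pos hjl, dif_neg (by omega)]
    · rw [if_neg hjl, dn_apply]
      rw [dif_pos (by omega), dif_pos (by omega)]
  have hk : ∀ k : ℕ, ∀ (x : Fin (l + 1) → K) (j : Fin (l + 1)), 1 ≤ (j : ℕ) → l < (j : ℕ) + k → (((C1 * dn K l - 1 : Module.End K (Fin (l + 1) → K)) ^ k) x) j = 0 := by
    intro k
    induction k with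
    | zero => intro x j h1 h2; omega
    | succ k ih =>
      intro x j h1 h2
      rw [pow_succ', Module.End.mul_apply, hG _ _ h1]
      split_ifs with h3
      · rw [ih x ⟨(j : ℕ) + 1, h3⟩ (by simp only; omega) (by simp only; omega), mul_zero]
      · rfl
  intro x
  have h1 : dn K l (((C1 * dn K l - 1 : Module.End K (Fin (l + 1) → K)) ^ l) x) = 0 := by
    funext i
    rw [dn_apply]
    split_ifs with h3
    · rw [hk l x ⟨(i : ℕ) + 1, h3⟩ (by simp only; omega) (by simp only; omega)]
      rfl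
    · rfl
  rw [Module.End.mul_apply, h1, map_zero]
-- END gd

-- BEGIN ge
theorem ge_fst {l : ℕ} (C1 : Module.End K (Fin (l + 1) → K)) (C2 X2 : Module.End K U) (a2 : U →ₗ[K] K) (p q : ℕ) (x : (Fin (l + 1) → K) × U) :
    ((((LinearMap.prodMap C1 C2 : Module.End K ((Fin (l + 1) → K) × U)) * XX l X2 a2) ^ p)
      ((((LinearMap.prodMap C1 C2 : Module.End K ((Fin (l + 1) → K) × U)) * XX l X2 a2 - 1) ^ q) x)).2 = ((C2 * X2) ^ p) (((C2 * X2 - 1) ^ q) x.2) := by
  have h1 : ∀ (p : ℕ) (x : (Fin (l + 1) → K) × U), ((((LinearMap.prodMap C1 C2 : Module.End K ((Fin (l + 1) → K) × U)) * XX l X2 a2) ^ p) x).2 = ((C2 * X2) ^ p) x.2 := by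
    intro p
    induction p with
    | zero => intro x; rw [pow_zero, pow_zero, Module.End.one_apply, Module.End.one_apply]
    | succ p ih =>
      intro x
      rw [pow_succ, pow_succ, Module.End.mul_apply, Module.End.mul_apply, ih]
      rfl
  have h2 : ∀ (p : ℕ) (x : (Fin (l + 1) → K) × U), ((((LinearMap.prodMap C1 C2 : Module.End K ((Fin (l + 1) → K) × U)) * XX l X2 a2 - 1) ^ p) x).2 = ((C2 * X2 - 1) ^ p) x.2 := by
    intro p
    induction p with
    | zero => intro x; rw [pow_zero, pow_zero, Module.End.one_apply, Module.End.one_apply]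
    | succ p ih =>
      intro x
      rw [pow_succ, pow_succ, Module.End.mul_apply, Module.End.mul_apply, ih]
      rfl
  rw [h1, h2]

theorem ge_in {l : ℕ} (C1 : Module.End K (Fin (l + 1) → K)) (C2 X2 : Module.End K U) (a2 : U →ₗ[K] K) (q : ℕ) (y : Fin (l + 1) → K) :
    (((LinearMap.prodMap C1 C2 : Module.End K ((Fin (l + 1) → K) × U)) * XX l X2 a2)
      ((((LinearMap.prodMap C1 C2 : Module.End K ((Fin (l + 1) → K) × U)) * XX l X2 a2 - 1) ^ q) (y, 0))) = ((C1 * dn K l) (((C1 * dn K l - 1) ^ q) y), 0) := by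
  have h0 : ∀ y : Fin (l + 1) → K, (((LinearMap.prodMap C1 C2 : Module.End K ((Fin (l + 1) → K) × U)) * XX l X2 a2) (y, 0)) = ((C1 * dn K l) y, 0) := by
    intro y
    rw [Module.End.mul_apply]
    have h1 : XX l X2 a2 (y, (0 : U)) = (dn K l y, 0) := by
      apply Prod.ext
      · rw [XX_fst]
        simp
      · rw [XX_snd]
        simp
    rw [h1]
    simp
  have h2 : ∀ (p : ℕ) (y : Fin (l + 1) → K), (((LinearMap.prodMap C1 C2 : Module.End K ((Fin (l + 1) → K) × U)) * XX l X2 a2 - 1) ^ p) (y, 0) = (((C1 * dn K l - 1) ^ p) y, 0) := by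
    intro p
    induction p with
    | zero => intro x; rw [pow_zero, pow_zero, Module.End.one_apply, Module.End.one_apply]
    | succ p ih =>
      intro y
      rw [pow_succ, pow_succ, Module.End.mul_apply, Module.End.mul_apply, LinearMap.sub_apply, h0, Module.End.one_apply]
      have h3 : (((C1 * dn K l) y, (0 : U)) - (y, 0)) = ((C1 * dn K l - 1 : Module.End K (Fin (l + 1) → K)) y, (0 : U)) := by
        apply Prod.ext
        · rfl
        · simp
      rw [h3, ih]
  rw [h2, h0]

/-- MODULE ge. Third condition. Put `G = (C1 × C2) XX`, `G1 = C1 dn`, `G2 = C2 X2`. The second component of `G x` is `G2 x''`, and `G (x', 0) = (G1 x', 0)`. So `G^α (G-1)^β x = (y, 0)`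
and `G (G-1)^l (y, 0) = (G1 (G1-1)^l y, 0) = 0`: exponents `α + 1`, `l + β`. -/
theorem ext_eig {l : ℕ} {C1 : Module.End K (Fin (l + 1) → K)} (hB : ∀ x, (C1 * dn K l) (((C1 * dn K l - 1) ^ l) x) = 0)
    {C2 X2 : Module.End K U} {a2 : U →ₗ[K] K} {α β : ℕ} (h : ∀ x, ((C2 * X2) ^ α) (((C2 * X2 - 1) ^ β) x) = 0) :
    ∀ x, (((LinearMap.prodMap C1 C2 : Module.End K ((Fin (l + 1) → K) × U)) * XX l X2 a2) ^ (α + 1))
      ((((LinearMap.prodMap C1 C2 : Module.End K ((Fin (l + 1) → K) × U)) * XX l X2 a2 - 1) ^ (l + β)) x) = 0 := by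
  intro x
  set G : Module.End K ((Fin (l + 1) → K) × U) := (LinearMap.prodMap C1 C2 : Module.End K ((Fin (l + 1) → K) × U)) * XX l X2 a2 with hG
  have hcomm : Commute G (G - 1) := (Commute.refl G).sub_right (Commute.one_right G)
  have h1 : (G ^ (α + 1)) (((G - 1) ^ (l + β)) x) = (G * (G - 1) ^ l) ((G ^ α) (((G - 1) ^ β) x)) := by
    have h2 : G ^ (α + 1) * (G - 1) ^ (l + β) = (G * (G - 1) ^ l) * (G ^ α * (G - 1) ^ β) := by
      have h3 : G ^ α * (G - 1) ^ l = (G - 1) ^ l * G ^ α := ((hcomm.pow_left α).pow_right l).eq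
      rw [pow_succ' G, pow_add (G - 1)]
      calc G * G ^ α * ((G - 1) ^ l * (G - 1) ^ β) = G * (G ^ α * (G - 1) ^ l) * (G - 1) ^ β := by simp only [mul_assoc]
        _ = G * ((G - 1) ^ l * G ^ α) * (G - 1) ^ β := by rw [h3]
        _ = _ := by simp only [mul_assoc]
    have h3 := congrArg (fun f : Module.End K ((Fin (l + 1) → K) × U) => f x) h2
    simpa using h3
  rw [h1]
  have h4 := ge_fst C1 C2 X2 a2 α β x
  rw [← hG, h] at h4
  have h5 : (G ^ α) (((G - 1) ^ β) x) = (((G ^ α) (((G - 1) ^ β) x)).1, 0) := Prod.ext rfl h4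
  rw [h5, Module.End.mul_apply, hG, ge_in, hB]
  rfl
-- END ge

-- BEGIN gf
/-- MODULE gf. Choice of the `t_i`. There are `t : ℕ → K`, all non zero, with `c - Σ_(i<l) t_i ≠ 0`; for `l = 0` this needs `c ≠ 0`.
(`t_i = 1` for `i ≥ 1`, `t_0 ∈ {1, d}` with `d ≠ 0, 1`.) -/
theorem choose_t (hK : ∃ d : K, d ≠ 0 ∧ d ≠ 1) (l : ℕ) (c : K) (hc : l = 0 → c ≠ 0) :
    ∃ t : ℕ → K, (∀ i, t i ≠ 0) ∧ c - ∑ i ∈ Finset.range l, t i ≠ 0 := by
  obtain ⟨d, hd0, hd1⟩ := hK
  rcases l with _ | l
  · exact ⟨fun _ => 1, fun _ => one_ne_zero, by simpa using hc rfl⟩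
  · by_cases h : c - ∑ i ∈ Finset.range (l + 1), (1 : K) = 0
    · refine ⟨fun i => if i = 0 then d else 1, fun i => ?_, ?_⟩
      · by_cases hi : i = 0
        · simpa [hi] using hd0
        · simp [hi]
      · rw [Finset.sum_range_succ'] at h ⊢
        simp only [Nat.add_eq_zero_iff, one_ne_zero, and_false, if_false, if_true] at h ⊢
        intro h2
        apply hd1
        linear_combination h - h2
    · exact ⟨fun _ => 1, fun _ => one_ne_zero, h⟩
-- END gf

-- BEGIN gg
/-- MODULE gg (private). The products are monic. -/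
theorem gg_monic (t : ℕ → K) (i : ℕ) : (∏ j ∈ Finset.range i, (X - C (t j))).Monic :=
  monic_prod_of_monic _ _ fun j _ => monic_X_sub_C (t j)

/-- MODULE gg (private). The degrees of the products. -/
theorem gg_deg (t : ℕ → K) (i : ℕ) : (∏ j ∈ Finset.range i, (X - C (t j))).natDegree = i := by
  rw [natDegree_prod_of_monic _ _ fun j _ => monic_X_sub_C (t j)]
  simp

/-- MODULE gg (private). The second coefficient of the products. -/
theorem gg_coeff (t : ℕ → K) (l : ℕ) :
    (X * ∏ j ∈ Finset.range l, (X - C (t j))).coeff l = -∑ i ∈ Finset.range l, t i := by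
  induction l with
  | zero => simp
  | succ l ih =>
    have h1 : (∏ j ∈ Finset.range l, (X - C (t j))).coeff l = 1 := by
      have := (gg_monic t l).coeff_natDegree
      rwa [gg_deg] at this
    rw [Finset.prod_range_succ, ← mul_assoc, mul_sub, coeff_sub, coeff_mul_X, ih, coeff_mul_C, coeff_X_mul, h1, Finset.sum_range_succ]
    ring

/-- MODULE gg. Expansion of `X g_l` in the basis `g_i = ∏_(j<i) (X - t_j)`: for `q` monic of degree `l + 1` with `X^l`-coefficient `-c`:
`X g_l = q + Σ_(i ≤ l) ρ_i g_i` with `ρ_l = c - Σ_(i<l) t_i`. (`X g_l - q` has degree `≤ l`, its `X^l`-coefficient is `c - Σ_(i<l) t_i`: use `poly_fam`, compare the coefficients of `X^l`.) -/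
theorem poly_exp {l : ℕ} (t : ℕ → K) {q : K[X]} (hq : q.Monic) (hd : q.natDegree = l + 1) :
    ∃ ρ : Fin (l + 1) → K, ρ (Fin.last l) = -q.coeff l - ∑ i ∈ Finset.range l, t i ∧
      X * ∏ j ∈ Finset.range l, (X - C (t j)) = q + ∑ i : Fin (l + 1), C (ρ i) * ∏ j ∈ Finset.range (i : ℕ), (X - C (t j)) := by
  have hfam := poly_fam (l := l + 1) (fun i : Fin (l + 1) => ∏ j ∈ Finset.range (i : ℕ), (X - C (t j)))
    (fun k => gg_monic t k) (fun k => by rw [gg_deg]; exact k.2)
    (fun a b hab => by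
      simp only [gg_deg] at hab
      exact Fin.ext hab) (by simp)
  have hmon : (X * ∏ j ∈ Finset.range l, (X - C (t j))).Monic := monic_X.mul (gg_monic t l)
  have hnd : (X * ∏ j ∈ Finset.range l, (X - C (t j))).natDegree = l + 1 := by
    rw [monic_X.natDegree_mul (gg_monic t l), gg_deg, natDegree_X, add_comm]
  have hlt : (X * ∏ j ∈ Finset.range l, (X - C (t j)) - q).degree < ((l + 1 : ℕ) : WithBot ℕ) := by
    have hdeg : (X * ∏ j ∈ Finset.range l, (X - C (t j))).degree = q.degree := by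
      rw [degree_eq_natDegree hmon.ne_zero, degree_eq_natDegree hq.ne_zero, hnd, hd]
    have := degree_sub_lt_left hdeg hmon.ne_zero (by rw [hmon.leadingCoeff, hq.leadingCoeff])
    rwa [degree_eq_natDegree hmon.ne_zero, hnd] at this
  obtain ⟨c, hc⟩ := hfam.1 _ hlt
  refine ⟨c, ?_, ?_⟩
  · have h := congrArg (fun p => p.coeff l) hc
    simp only [coeff_sub, gg_coeff, finsetSum_coeff, coeff_C_mul] at h
    rw [Finset.sum_eq_single (Fin.last l)] at h
    · have h1 : (∏ j ∈ Finset.range ((Fin.last l : Fin (l + 1)) : ℕ), (X - C (t j))).coeff l = 1 := by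
        have := (gg_monic t l).coeff_natDegree
        rw [gg_deg] at this
        simpa using this
      rw [h1] at h
      linear_combination -h
    · intro b _ hb
      have hb' : (b : ℕ) < l := by
        rcases lt_or_eq_of_le (Nat.lt_succ_iff.mp b.2) with h' | h'
        · exact h'
        · exact absurd (Fin.ext h') hb
      rw [coeff_eq_zero_of_natDegree_lt (by rw [gg_deg]; exact hb'), mul_zero]
    · intro hn
      exact absurd (Finset.mem_univ _) hn
  · rw [← hc]
    ring
-- END gg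

variable {V : Type*} [AddCommGroup V] [Module K V] [FiniteDimensional K V]

-- BEGIN gh
private def gh_C1 (l : ℕ) (t ρ : Fin (l + 1) → K) : Module.End K (Fin (l + 1) → K) where
  toFun x i := (if (i : ℕ) = l then 0 else t i * x i) +
    (if h : 0 < (i : ℕ) then x ⟨(i : ℕ) - 1, by omega⟩ else 0) + ρ i * x (Fin.last l)
  map_add' x y := by
    funext i
    simp only [Pi.add_apply]
    split_ifs <;> ring
  map_smul' c x := by
    funext i
    simp only [Pi.smul_apply, RingHom.id_apply, smul_eq_mul]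
    split_ifs <;> ring

private noncomputable def gh_g (t : ℕ → K) (i : ℕ) : K[X] :=
  ∏ j ∈ Finset.range i, (X - C (t j))

private theorem gh_monic (t : ℕ → K) (i : ℕ) : (gh_g t i).Monic :=
  monic_prod_of_monic _ _ fun j _ => monic_X_sub_C (t j)

private theorem gh_deg (t : ℕ → K) (i : ℕ) : (gh_g t i).natDegree = i := by
  unfold gh_g
  rw [natDegree_prod_of_monic _ _ fun j _ => monic_X_sub_C (t j)]
  simp

private theorem gh_succ (t : ℕ → K) (i : ℕ) :
    X * gh_g t i = gh_g t (i + 1) + C (t i) * gh_g t i := by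
  unfold gh_g
  rw [Finset.prod_range_succ]
  ring

private noncomputable def gh_f (N : Module.End K V) (V' : Submodule K V) (v : V) (l : ℕ)
    (t : ℕ → K) : ((Fin (l + 1) → K) × V') →ₗ[K] V where
  toFun x := ∑ i : Fin (l + 1), x.1 i • aeval N (gh_g t i) v + (x.2 : V)
  map_add' x y := by
    simp only [Prod.fst_add, Pi.add_apply, Prod.snd_add, Submodule.coe_add, add_smul,
      Finset.sum_add_distrib]
    abel
  map_smul' c x := by
    simp only [Prod.smul_fst, Pi.smul_apply, Prod.smul_snd, Submodule.coe_smul, RingHom.id_apply,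
      smul_add, Finset.smul_sum, smul_smul, smul_eq_mul]

omit [FiniteDimensional K V] in
private theorem gh_f_apply (N : Module.End K V) (V' : Submodule K V) (v : V) (l : ℕ)
    (t : ℕ → K) (x : (Fin (l + 1) → K) × V') :
    gh_f N V' v l t x = ∑ i : Fin (l + 1), x.1 i • aeval N (gh_g t i) v + (x.2 : V) := rfl

omit [FiniteDimensional K V] in
private theorem gh_sum (N : Module.End K V) (v : V) {l : ℕ} (t : ℕ → K) (x : Fin (l + 1) → K) :
    ∑ i : Fin (l + 1), x i • aeval N (gh_g t i) v =
      aeval N (∑ i : Fin (l + 1), C (x i) * gh_g t i) v := by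
  rw [map_sum, LinearMap.sum_apply]
  refine Finset.sum_congr rfl ?_
  intro i _
  rw [map_mul, aeval_C, Module.End.mul_apply, Module.algebraMap_end_apply]

omit [FiniteDimensional K V] in
private theorem gh_bij {N : Module.End K V} {V' : Submodule K V} {v : V} {l : ℕ}
    (h : Cyc N V' v (l + 1)) (t : ℕ → K) : Function.Bijective (gh_f N V' v l t) := by
  have hfam := poly_fam (κ := Fin (l + 1)) (l := l + 1) (fun i => gh_g t i)
    (fun i => gh_monic t i) (fun i => by rw [gh_deg]; exact i.2)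
    (fun i j hij => by
      simp only [gh_deg] at hij
      exact Fin.ext hij) (by simp)
  constructor
  · rw [injective_iff_map_eq_zero]
    rintro ⟨x, y⟩ hxy
    rw [gh_f_apply, gh_sum, add_comm] at hxy
    have hdeg : (∑ i : Fin (l + 1), C (x i) * gh_g t i).degree < (l + 1 : ℕ) := by
      rw [← mem_degreeLT]
      refine Submodule.sum_mem _ ?_
      intro i _
      rw [C_mul']
      refine Submodule.smul_mem _ _ ?_
      rw [mem_degreeLT, degree_eq_natDegree (gh_monic t i).ne_zero, gh_deg]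
      exact_mod_cast i.2
    obtain ⟨h1, h2⟩ := h.uniq y y.2 _ hdeg hxy
    have h3 := hfam.2 x h2
    rw [h3, Prod.mk_eq_zero]
    exact ⟨rfl, Subtype.ext h1⟩
  · intro z
    obtain ⟨y, hy, g, hg, hz⟩ := h.gen z
    obtain ⟨c, hc⟩ := hfam.1 g hg
    refine ⟨(c, ⟨y, hy⟩), ?_⟩
    rw [gh_f_apply, gh_sum, ← hc, hz, add_comm]

omit [FiniteDimensional K V] in
private theorem gh_step (N : Module.End K V) (v : V) (t : ℕ → K) (i : ℕ) :
    N (aeval N (gh_g t i) v) = aeval N (gh_g t (i + 1)) v + t i • aeval N (gh_g t i) v := by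
  have h1 := congrArg (fun p => aeval N p v) (gh_succ t i)
  simp only [map_add, map_mul, aeval_X, aeval_C, Module.End.mul_apply, LinearMap.add_apply,
    Module.algebraMap_end_apply] at h1
  exact h1

/-- MODULE gh. A cyclic summand is a block. `q` from `h.rel`, `c = - coefficient of X^l` (`l = 0`: `q = X - c`, `N v = c v`, `v ≠ 0` by `h.uniq` with `g = 1`, so `c ≠ 0` by injectivity); `t` from `choose_t`, `ρ` from `poly_exp`.
`e (x, y) = Σ x_i g_i(C) v + y` (an isomorphism by `poly_fam` for the family `g_i` and `Cyc`, or by `cyc_basis` with a basis of `V'`), `C1` given by the formula in `Blk`. -/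
theorem blk_of_cyc (hK : ∃ d : K, d ≠ 0 ∧ d ≠ 1) {N : Module.End K V} (hN : Function.Injective N) {V' : Submodule K V} {v : V} {l : ℕ}
    (h : Cyc N V' v (l + 1)) :
    ∃ (C1 : Module.End K (Fin (l + 1) → K)) (e : ((Fin (l + 1) → K) × V') ≃ₗ[K] V), Blk l C1 ∧
      ∀ x, N (e x) = e (C1 x.1, (N.restrict h.inv) x.2) := by
  obtain ⟨q, hq, hd, hq0⟩ := h.rel
  have hc : l = 0 → -q.coeff l ≠ 0 := by
    rintro rfl h0
    have h1 : q.coeff 0 = 0 := neg_eq_zero.1 h0
    have h2 : q = X := by
      have h3 := eq_X_add_C_of_natDegree_le_one (p := q) (by omega)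
      have h4 : q.coeff 1 = 1 := by
        have h5 := hq.coeff_natDegree
        rw [hd] at h5
        exact h5
      rw [h3, h4, h1]
      simp
    rw [h2, aeval_X] at hq0
    have h3 : v = 0 := hN (by rw [hq0, map_zero])
    have h4 := h.uniq 0 V'.zero_mem 1 (by rw [degree_one]; norm_num) (by rw [h3]; simp)
    exact one_ne_zero h4.2
  obtain ⟨t, ht0, ht1⟩ := choose_t hK l (-q.coeff l) hc
  obtain ⟨ρ, hρ, hexp⟩ := poly_exp t hq hd
  refine ⟨gh_C1 l (fun i => t i) ρ, LinearEquiv.ofBijective (gh_f N V' v l t) (gh_bij h t),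
    ⟨fun i => t i, ρ, fun i => ht0 i, ?_, fun x i => rfl⟩, ?_⟩
  · rw [hρ]
    exact ht1
  · rintro ⟨x, y⟩
    rw [LinearEquiv.ofBijective_apply, LinearEquiv.ofBijective_apply, gh_f_apply, gh_f_apply,
      map_add, map_sum]
    simp only [map_smul]
    have hy : (((N.restrict h.inv) y : V') : V) = N y := rfl
    rw [hy]
    congr 1
    have hlast : N (aeval N (gh_g t l) v) = ∑ i : Fin (l + 1), ρ i • aeval N (gh_g t i) v := by
      rw [gh_sum]
      have h1 := congrArg (fun p => aeval N p v) hexp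
      simp only [map_add, map_mul, aeval_X, Module.End.mul_apply, LinearMap.add_apply, hq0,
        zero_add] at h1
      exact h1
    -- left side
    rw [Fin.sum_univ_castSucc (fun i : Fin (l + 1) => x i • N (aeval N (gh_g t i) v))]
    have hL : ∀ i : Fin l, x i.castSucc • N (aeval N (gh_g t (i.castSucc : Fin (l + 1))) v) =
        x i.castSucc • aeval N (gh_g t ((i : ℕ) + 1)) v +
          (t i * x i.castSucc) • aeval N (gh_g t i) v := by
      intro i
      rw [Fin.val_castSucc, gh_step, smul_add, smul_smul, mul_comm (x i.castSucc) (t i)]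
    simp only [hL]
    rw [Fin.val_last, hlast, Finset.sum_add_distrib]
    -- right side
    have hR : ∀ i : Fin (l + 1), gh_C1 l (fun i => t i) ρ x i • aeval N (gh_g t i) v =
        (if (i : ℕ) = l then (0 : K) else t i * x i) • aeval N (gh_g t i) v +
        (if h : 0 < (i : ℕ) then x ⟨(i : ℕ) - 1, by omega⟩ else 0) • aeval N (gh_g t i) v +
        (x (Fin.last l)) • (ρ i • aeval N (gh_g t i) v) := by
      intro i
      change ((if (i : ℕ) = l then 0 else t i * x i) +
        (if h : 0 < (i : ℕ) then x ⟨(i : ℕ) - 1, by omega⟩ else 0) + ρ i * x (Fin.last l)) • _ = _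
      rw [add_smul, add_smul, smul_smul, mul_comm (ρ i)]
    simp only [hR]
    rw [Finset.sum_add_distrib, Finset.sum_add_distrib, ← Finset.smul_sum]
    congr 1
    rw [add_comm]
    congr 1
    · rw [Fin.sum_univ_castSucc (fun i : Fin (l + 1) =>
        (if (i : ℕ) = l then (0 : K) else t i * x i) • aeval N (gh_g t i) v)]
      rw [Fin.val_last, if_pos rfl, zero_smul, add_zero]
      refine Finset.sum_congr rfl ?_
      intro i _
      rw [Fin.val_castSucc, if_neg (by omega)]
    · rw [Fin.sum_univ_succ (fun i : Fin (l + 1) =>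
        (if h : 0 < (i : ℕ) then x ⟨(i : ℕ) - 1, by omega⟩ else 0) • aeval N (gh_g t i) v)]
      have h00 : ¬ 0 < ((0 : Fin (l + 1)) : ℕ) := by simp
      rw [dif_neg h00, zero_smul, zero_add]
      refine Finset.sum_congr rfl ?_
      intro i _
      have h01 : 0 < ((i.succ : Fin (l + 1)) : ℕ) := by rw [Fin.val_succ]; exact Nat.succ_pos _
      rw [dif_pos h01]
      rfl
-- END gh

-- BEGIN gi
private theorem gi_aux (hK : ∃ d : K, d ≠ 0 ∧ d ≠ 1) (n : ℕ) :
    ∀ (W : Type*) [AddCommGroup W] [Module K W] [FiniteDimensional K W] (N : Module.End K W), Function.Injective N → finrank K W = n →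
      ∃ (X0 : Module.End K W) (a : W →ₗ[K] K), Good N X0 a := by
  induction n using Nat.strong_induction_on with
  | _ n ih =>
    intro W _ _ _ N hN hn
    by_cases h0 : finrank K W = 0
    · have hs : Subsingleton W := Module.finrank_zero_iff.mp h0
      exact ⟨0, 0, fun S _ _ x _ => Subsingleton.elim _ _, fun x _ _ => Subsingleton.elim _ _, 0, 0, fun x => Subsingleton.elim _ _⟩
    · have hnt : Nontrivial W := Module.nontrivial_of_finrank_pos (R := K) (Nat.pos_of_ne_zero h0)
      obtain ⟨v, hv⟩ := max_vec N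
      obtain ⟨V', hV'⟩ := cyc_of_max N hv
      have hlpos : 0 < (minpoly K N).natDegree := minpoly.natDegree_pos (Algebra.IsIntegral.isIntegral N)
      obtain ⟨m, hm⟩ : ∃ m, (minpoly K N).natDegree = m + 1 := ⟨(minpoly K N).natDegree - 1, by omega⟩
      rw [hm] at hV'
      obtain ⟨C1, e, hB, he⟩ := blk_of_cyc hK hN hV'
      have hf := cyc_finrank hV'
      have hinj : Function.Injective (N.restrict hV'.inv) := by
        intro x y hxy
        have h1 : ((N.restrict hV'.inv) x : W) = ((N.restrict hV'.inv) y : W) := by rw [hxy]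
        rw [LinearMap.coe_restrict_apply, LinearMap.coe_restrict_apply] at h1
        exact Subtype.ext (hN h1)
      obtain ⟨X2, a2, g1, g2, α, β, g3⟩ := ih (finrank K V') (by omega) V' (N.restrict hV'.inv) hinj rfl
      have hgood : Good (LinearMap.prodMap C1 (N.restrict hV'.inv) : Module.End K ((Fin (m + 1) → K) × V')) (XX m X2 a2) (aa m) :=
        ⟨ext_nil m g1, ext_fix hB g2, α + 1, m + β, ext_eig (blk_eig hB) g3⟩
      have hg2 := good_conj e hgood
      have heq : e.conj (LinearMap.prodMap C1 (N.restrict hV'.inv) : Module.End K ((Fin (m + 1) → K) × V')) = N := by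
        ext x
        rw [LinearEquiv.conj_apply_apply]
        have h2 := he (e.symm x)
        rw [LinearEquiv.apply_symm_apply] at h2
        rw [h2]
        rfl
      rw [heq] at hg2
      exact ⟨_, _, hg2⟩

/-- MODULE gi. Existence. Strong induction on `finrank`: `finrank = 0`: `X0 = 0`, `a = 0` (`V` is a subsingleton). Otherwise `max_vec`, `cyc_of_max` give `Cyc N V' v l`, `l = deg minpoly ≥ 1` (`V ≠ 0`), `finrank V' < finrank V` by `cyc_finrank`;
`N.restrict` is injective on `V'`; take `X2, a2` for it; `C1, e` from `blk_of_cyc`; then `XX l X2 a2`, `aa l` are good for `C1.prodMap (N.restrict _)` (`ext_nil`, `ext_fix`, `blk_eig`, `ext_eig`), and `good_conj e`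
(`e.conj (C1.prodMap ..) = N`). -/
theorem good_exists (hK : ∃ d : K, d ≠ 0 ∧ d ≠ 1) (N : Module.End K V) (hN : Function.Injective N) :
    ∃ (X0 : Module.End K V) (a : V →ₗ[K] K), Good N X0 a :=
  gi_aux hK (finrank K V) V N hN rfl
-- END gi

end ThPL
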