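import Pool.Agent.ThPL.Pole
import Pool.Agent.ThPL.Good

/-! # Lemma T -/

namespace ThPL
open Polynomial Module Matrix

variable {K : Type*} [Field K] {U : Type*} [AddCommGroup U] [Module K U] [FiniteDimensional K U]

-- BEGIN ta
/-- MODULE ta. From a fixed space to a fixed vector. If `G^α (G-1)^β = 0` and `G S = S` (as a set of images) then, if `S ≠ 0`, there is a non zero `x ∈ S` with `G x = x`: `G` is injective on `S` (surjective on a
finite dimensional space), so `(G-1)^β = 0` on `S`; take the last non zero vector `(G-1)^k x`. -/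
theorem fix_of_sub {G : Module.End K U} {α β : ℕ} (h : ∀ x, (G ^ α) (((G - 1) ^ β) x) = 0) (S : Submodule K U) (hS : S.map G = S)
    (hf : ∀ x ∈ S, G x = x → x = 0) : ∀ x ∈ S, x = 0 := by
  have mapS : ∀ x ∈ S, G x ∈ S := by
    intro x hx
    rw [← hS]
    exact Submodule.mem_map_of_mem hx
  have hsurj : Function.Surjective (G.restrict mapS) := by
    rintro ⟨y, hy⟩
    have hy' : y ∈ S.map G := by rw [hS]; exact hy
    obtain ⟨x, hx, hxy⟩ := Submodule.mem_map.1 hy'
    exact ⟨⟨x, hx⟩, Subtype.ext hxy⟩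
  have hinj : Function.Injective (G.restrict mapS) := LinearMap.injective_iff_surjective.2 hsurj
  have inj : ∀ x ∈ S, G x = 0 → x = 0 := by
    intro x hx h0
    have h1 : (G.restrict mapS) ⟨x, hx⟩ = (G.restrict mapS) 0 := by
      apply Subtype.ext
      rw [map_zero]
      exact h0
    have h2 := hinj h1
    exact congrArg Subtype.val h2
  have inj1 : ∀ x ∈ S, (G - 1) x = 0 → x = 0 := by
    intro x hx h0
    apply hf x hx
    rw [LinearMap.sub_apply, Module.End.one_apply, sub_eq_zero] at h0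
    exact h0
  have mapS1 : ∀ x ∈ S, (G - 1) x ∈ S := by
    intro x hx
    rw [LinearMap.sub_apply, Module.End.one_apply]
    exact S.sub_mem (mapS x hx) hx
  have key : ∀ (F : Module.End K U), (∀ x ∈ S, F x ∈ S) → (∀ x ∈ S, F x = 0 → x = 0) →
      ∀ n : ℕ, ∀ x ∈ S, (F ^ n) x ∈ S ∧ ((F ^ n) x = 0 → x = 0) := by
    intro F hF hF0 n
    induction n with
    | zero => intro x hx; rw [pow_zero, Module.End.one_apply]; exact ⟨hx, id⟩
    | succ n ih =>
      intro x hx
      rw [pow_succ, Module.End.mul_apply]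
      exact ⟨(ih _ (hF x hx)).1, fun h0 => hF0 x hx ((ih _ (hF x hx)).2 h0)⟩
  intro x hx
  have h1 := key (G - 1) mapS1 inj1 β x hx
  exact h1.2 ((key G mapS inj α _ h1.1).2 (h x))
-- END ta

-- BEGIN tb
/-- MODULE tb. Lemma T. `C = A⁻¹`, `X0, a` from `good_exists`. `X : U → U × K, X u = (X0 u, a u)`: injective (if `X u = 0` then the span of `u` violates the first condition).
`Z2`: `pole` on `U × K` with `b = LinearMap.snd`, `T = X ∘ fst`: a stable `S ≤ ker snd` corresponds to `H ≤ U` with `a = 0`, `X0 H ≤ H`. `Z1`: `b1` a functional with kernel `range X` (a hyperplane: `finrank = finrank U`), `T = (A X', 0)`, `X'` a left inverse of `X`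
(`LinearMap.exists_leftInverse_of_injective`): if `S ≤ range X` is `T`-stable, `T` is injective on it, so `T S = S`; with `U'' = X⁻¹ S`: `A U'' × 0 = S = X U''`, so `a = 0` on `U''` and `A U'' = X0 U''`, `C X0 U'' = U''`: `fix_of_sub` gives `U'' = 0`.
Then `Z1 (Z2 (u, 0)) = Z1 (X u) = T (X u) = (A u, 0)`. -/
theorem lemT (hK : ∃ d : K, d ≠ 0 ∧ d ≠ 1) (A : U ≃ₗ[K] U) {f1 f2 : K[X]} (h1 : f1.Monic) (h2 : f2.Monic)
    (d1 : f1.natDegree = finrank K U + 1) (d2 : f2.natDegree = finrank K U + 1) :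
    ∃ Z1 Z2 : Module.End K (U × K), Z1.charpoly = f1 ∧ Z2.charpoly = f2 ∧ ∀ u : U, Z1 (Z2 (u, 0)) = (A u, 0) := by
  classical
  have hfin : finrank K (U × K) = finrank K U + 1 := by
    rw [Module.finrank_prod, Module.finrank_self]
  obtain ⟨X0, a, g1, g2, α, β, g3⟩ := good_exists hK (A.symm : U →ₗ[K] U) A.symm.injective
  obtain ⟨Xm, hXm⟩ : ∃ Xm : U →ₗ[K] U × K, ∀ u, Xm u = (X0 u, a u) :=
    ⟨X0.prod a, fun u => rfl⟩
  have hinj : ∀ u, Xm u = 0 → u = 0 := by
    intro u hu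
    rw [hXm] at hu
    have hu1 : X0 u = 0 := congrArg Prod.fst hu
    have hu2 : a u = 0 := congrArg Prod.snd hu
    refine g1 (Submodule.span K {u}) ?_ ?_ u (Submodule.mem_span_singleton_self u)
    · intro x hx
      obtain ⟨c, rfl⟩ := Submodule.mem_span_singleton.1 hx
      rw [map_smul, hu2, smul_zero]
    · intro x hx
      obtain ⟨c, rfl⟩ := Submodule.mem_span_singleton.1 hx
      rw [map_smul, hu1, smul_zero]
      exact Submodule.zero_mem _
  have hker : LinearMap.ker Xm = ⊥ := by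
    rw [LinearMap.ker_eq_bot']
    exact hinj
  have hXinj : Function.Injective Xm := LinearMap.ker_eq_bot.1 hker
  -- Z2
  obtain ⟨Z2, hZ2, hc2⟩ := pole (V := U × K) (LinearMap.snd K U K) (Xm ∘ₗ LinearMap.fst K U K)
    (by
      intro S hS hT
      have hH : ∀ x ∈ S.comap (LinearMap.inl K U K), x = 0 := by
        refine g1 _ ?_ ?_
        · intro x hx
          have h3 := hT _ hx
          have h4 := hS _ h3
          rw [LinearMap.comp_apply, hXm] at h4
          exact h4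
        · intro x hx
          have h3 := hT _ hx
          have h4 := hS _ h3
          rw [LinearMap.comp_apply, hXm] at h3 h4
          have h5 : a x = 0 := h4
          have h6 : (X0 x, a x) ∈ S := h3
          rw [h5] at h6
          exact h6
      intro x hx
      have h3 : x.2 = 0 := hS x hx
      have h4 : x = (x.1, 0) := Prod.ext rfl h3
      have h5 : x.1 = 0 := by
        refine hH x.1 ?_
        show (x.1, (0 : K)) ∈ S
        rw [← h4]
        exact hx
      rw [h4, h5]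
      rfl) h2 (d2.trans hfin.symm)
  -- the hyperplane
  have hr : finrank K (LinearMap.range Xm) = finrank K U := LinearMap.finrank_range_of_inj hXinj
  have hlt : LinearMap.range Xm < ⊤ := by
    rw [lt_top_iff_ne_top]
    intro h
    rw [h, finrank_top, hfin] at hr
    omega
  obtain ⟨b1, hb0, hb1⟩ := Submodule.exists_le_ker_of_lt_top _ hlt
  have hb : LinearMap.range Xm = LinearMap.ker b1 := by
    refine Submodule.eq_of_le_of_finrank_eq hb1 ?_
    have h3 := LinearMap.finrank_range_add_finrank_ker b1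
    have h4 : LinearMap.range b1 = ⊤ := LinearMap.range_eq_top.2 (LinearMap.surjective hb0)
    rw [h4, finrank_top, Module.finrank_self, hfin] at h3
    omega
  obtain ⟨X', hX'⟩ := Xm.exists_leftInverse_of_injective hker
  have hX'' : ∀ u, X' (Xm u) = u := fun u => LinearMap.congr_fun hX' u
  obtain ⟨T1, hT1⟩ : ∃ T1 : Module.End K (U × K), ∀ x, T1 x = (A (X' x), 0) :=
    ⟨((A : U →ₗ[K] U) ∘ₗ X').prod 0, fun x => rfl⟩
  have hTX : ∀ u, T1 (Xm u) = (A u, 0) := by
    intro u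
    rw [hT1, hX'']
  obtain ⟨Z1, hZ1, hc1⟩ := pole (V := U × K) b1 T1
    (by
      intro S hS hT
      have hran : ∀ x ∈ S, ∃ u, Xm u = x := by
        intro x hx
        have h3 : x ∈ LinearMap.ker b1 := hS x hx
        rw [← hb] at h3
        exact h3
      -- T1 is onto S
      have hsur : ∀ x ∈ S, ∃ y ∈ S, T1 y = x := by
        have hres : Function.Injective (T1.restrict hT) := by
          rw [← LinearMap.ker_eq_bot, LinearMap.ker_eq_bot']
          rintro ⟨y, hy⟩ hy0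
          obtain ⟨u, rfl⟩ := hran y hy
          have h3 : T1 (Xm u) = 0 := congrArg Subtype.val hy0
          rw [hTX] at h3
          have h4 : A u = 0 := congrArg Prod.fst h3
          have h5 : u = 0 := A.map_eq_zero_iff.1 h4
          apply Subtype.ext
          show Xm u = 0
          rw [h5, map_zero]
        have hs := LinearMap.injective_iff_surjective.1 hres
        intro x hx
        obtain ⟨⟨y, hy⟩, hyx⟩ := hs ⟨x, hx⟩
        exact ⟨y, hy, congrArg Subtype.val hyx⟩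
      have hback : ∀ u, Xm u ∈ S → a u = 0 ∧ Xm (A.symm (X0 u)) ∈ S := by
        intro u hu
        obtain ⟨y, hy, hyu⟩ := hsur _ hu
        obtain ⟨v, rfl⟩ := hran y hy
        rw [hTX, hXm] at hyu
        have h3 : A v = X0 u := congrArg Prod.fst hyu
        have h4 : (0 : K) = a u := congrArg Prod.snd hyu
        refine ⟨h4.symm, ?_⟩
        rw [← h3, A.symm_apply_apply]
        exact hy
      have hfwd : ∀ v, Xm v ∈ S → ∃ u, Xm u ∈ S ∧ A.symm (X0 u) = v := by
        intro v hv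
        have h3 := hT _ hv
        rw [hTX] at h3
        obtain ⟨u, hu⟩ := hran _ h3
        refine ⟨u, ?_, ?_⟩
        · rw [hu]
          exact h3
        · rw [hXm] at hu
          have h4 : X0 u = A v := congrArg Prod.fst hu
          rw [h4, A.symm_apply_apply]
      have hmap : (S.comap Xm).map ((A.symm : U →ₗ[K] U) * X0 : Module.End K U) = S.comap Xm := by
        apply le_antisymm
        · rintro _ ⟨u, hu, rfl⟩
          exact (hback u hu).2
        · intro v hv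
          obtain ⟨u, hu, hv'⟩ := hfwd v hv
          exact ⟨u, hu, hv'⟩
      have hzero := fix_of_sub g3 (S.comap Xm) hmap
        (fun x hx hfx => g2 x hfx (hback x hx).1)
      intro x hx
      obtain ⟨u, rfl⟩ := hran x hx
      rw [hzero u hx, map_zero]) h1 (d1.trans hfin.symm)
  refine ⟨Z1, Z2, hc1, hc2, fun u => ?_⟩
  have h3 : Z2 (u, 0) = Xm u := hZ2 (u, 0) rfl
  rw [h3]
  have h4 : b1 (Xm u) = 0 := by
    have h5 : Xm u ∈ LinearMap.ker b1 := by
      rw [← hb]
      exact ⟨u, rfl⟩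
    exact h5
  rw [hZ1 _ h4, hTX]
-- END tb

variable {ι : Type*} [Fintype ι] [DecidableEq ι]

-- BEGIN tc
/-- MODULE tc. Matrix form of Lemma T (basis of `(ι → K) × K`, `A = toLin' A`, `LinearMap.charpoly_toMatrix`). -/
theorem lemT_mat (hK : ∃ d : K, d ≠ 0 ∧ d ≠ 1) (A : Matrix ι ι K) (hA : A.det ≠ 0) {f1 f2 : K[X]} (h1 : f1.Monic) (h2 : f2.Monic)
    (d1 : f1.natDegree = Fintype.card ι + 1) (d2 : f2.natDegree = Fintype.card ι + 1) :
    ∃ (Z1 Z2 : Matrix (ι ⊕ Unit) (ι ⊕ Unit) K) (y : Matrix ι Unit K) (t : Matrix Unit Unit K), Z1.charpoly = f1 ∧ Z2.charpoly = f2 ∧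
      Z1 * Z2 = fromBlocks A y 0 t := by
  have hdet : LinearMap.det (Matrix.toLin' A) ≠ 0 := by
    rw [LinearMap.det_toLin']
    exact hA
  obtain ⟨Z1, Z2, hZ1, hZ2, hZ⟩ := lemT hK (LinearMap.equivOfDetNeZero (Matrix.toLin' A) hdet) h1 h2
    (by rw [d1, Module.finrank_fintype_fun_eq_card]) (by rw [d2, Module.finrank_fintype_fun_eq_card])
  have hZ' : ∀ u : ι → K, Z1 (Z2 (u, 0)) = (A *ᵥ u, 0) := by
    intro u
    rw [hZ u]
    rfl
  let b : Module.Basis (ι ⊕ Unit) K ((ι → K) × K) := (Pi.basisFun K ι).prod (Module.Basis.singleton Unit K)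
  have hb : ∀ j : ι, b (Sum.inl j) = (Pi.single j 1, 0) := by
    intro j
    simp [b]
  have hP : ∀ (i : ι ⊕ Unit) (j : ι), (LinearMap.toMatrix b b Z1 * LinearMap.toMatrix b b Z2) i (Sum.inl j) =
      b.repr (A *ᵥ Pi.single j 1, 0) i := by
    intro i j
    rw [← LinearMap.toMatrix_mul, LinearMap.toMatrix_apply, Module.End.mul_apply, hb, hZ']
  refine ⟨LinearMap.toMatrix b b Z1, LinearMap.toMatrix b b Z2,
    (LinearMap.toMatrix b b Z1 * LinearMap.toMatrix b b Z2).toBlocks₁₂,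
    (LinearMap.toMatrix b b Z1 * LinearMap.toMatrix b b Z2).toBlocks₂₂, ?_, ?_, ?_⟩
  · rw [LinearMap.charpoly_toMatrix]
    exact hZ1
  · rw [LinearMap.charpoly_toMatrix]
    exact hZ2
  · have e := Matrix.fromBlocks_toBlocks (LinearMap.toMatrix b b Z1 * LinearMap.toMatrix b b Z2)
    rw [← e]
    have e1 : (LinearMap.toMatrix b b Z1 * LinearMap.toMatrix b b Z2).toBlocks₁₁ = A := by
      ext i j
      have h3 := hP (Sum.inl i) j
      rw [Matrix.toBlocks₁₁, Matrix.of_apply, h3]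
      simp [b]
    have e2 : (LinearMap.toMatrix b b Z1 * LinearMap.toMatrix b b Z2).toBlocks₂₁ = 0 := by
      ext i j
      have h3 := hP (Sum.inr i) j
      rw [Matrix.toBlocks₂₁, Matrix.of_apply, h3]
      simp [b]
    rw [e1, e2, Matrix.toBlocks_fromBlocks₁₂, Matrix.toBlocks_fromBlocks₂₂]
-- END tc

-- BEGIN td
/-- MODULE td. Form for the inverse: apply `lemT_mat` to `A = B0⁻¹`; `det (Z1 Z2) = f1(0) f2(0)` (both signs are `(-1)^(card ι + 1)`, `Matrix.det_eq_sign_charpoly_coeff`) `= det A * t`, so `t⁻¹ = τ`. -/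
theorem lemT_inv (hK : ∃ d : K, d ≠ 0 ∧ d ≠ 1) (B0 : Matrix ι ι K) {τ : K} {f1 f2 : K[X]} (h1 : f1.Monic) (h2 : f2.Monic)
    (d1 : f1.natDegree = Fintype.card ι + 1) (d2 : f2.natDegree = Fintype.card ι + 1)
    (hdet : B0.det * τ * (f1.coeff 0 * f2.coeff 0) = 1) :
    ∃ (Z1 Z2 : Matrix (ι ⊕ Unit) (ι ⊕ Unit) K) (y : Matrix ι Unit K), Z1.charpoly = f1 ∧ Z2.charpoly = f2 ∧
      fromBlocks B0 y 0 (τ • (1 : Matrix Unit Unit K)) * (Z1 * Z2) = 1 := by
  have hB : B0.det ≠ 0 := by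
    intro h
    rw [h, zero_mul, zero_mul] at hdet
    exact zero_ne_one hdet
  have hBu : IsUnit B0.det := isUnit_iff_ne_zero.2 hB
  have hA : (B0⁻¹).det ≠ 0 := by
    rw [Matrix.det_nonsing_inv, Ring.inverse_eq_inv']
    exact inv_ne_zero hB
  obtain ⟨Z1, Z2, y1, t, c1, c2, hZ⟩ := lemT_mat hK B0⁻¹ hA h1 h2 d1 d2
  have hdt : B0.det⁻¹ * t () () = f1.coeff 0 * f2.coeff 0 := by
    have e1 : (Z1 * Z2).det = B0.det⁻¹ * t () () := by
      rw [hZ, Matrix.det_fromBlocks_zero₂₁, Matrix.det_nonsing_inv, Ring.inverse_eq_inv']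
      congr 1
      exact Matrix.det_unique t
    have e2 : (Z1 * Z2).det = f1.coeff 0 * f2.coeff 0 := by
      rw [Matrix.det_mul, Matrix.det_eq_sign_charpoly_coeff Z1, Matrix.det_eq_sign_charpoly_coeff Z2, c1, c2]
      have e3 : ((-1 : K) ^ Fintype.card (ι ⊕ Unit)) * ((-1 : K) ^ Fintype.card (ι ⊕ Unit)) = 1 := by
        rw [← mul_pow]
        norm_num
      calc (-1 : K) ^ Fintype.card (ι ⊕ Unit) * f1.coeff 0 * ((-1) ^ Fintype.card (ι ⊕ Unit) * f2.coeff 0)
          = ((-1 : K) ^ Fintype.card (ι ⊕ Unit) * (-1 : K) ^ Fintype.card (ι ⊕ Unit)) * (f1.coeff 0 * f2.coeff 0) := by ring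
        _ = f1.coeff 0 * f2.coeff 0 := by rw [e3, one_mul]
    rw [← e1, e2]
  have hτt : τ * t () () = 1 := by
    have e4 : B0.det * τ * (B0.det⁻¹ * t () ()) = 1 := by rw [hdt]; exact hdet
    calc τ * t () () = (B0.det * B0.det⁻¹) * (τ * t () ()) := by rw [mul_inv_cancel₀ hB, one_mul]
      _ = B0.det * τ * (B0.det⁻¹ * t () ()) := by ring
      _ = 1 := e4
  have ht : t = (t () ()) • (1 : Matrix Unit Unit K) := by
    ext i j
    simp [Matrix.smul_apply]
  refine ⟨Z1, Z2, -(τ • (B0 * y1)), c1, c2, ?_⟩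
  rw [hZ, Matrix.fromBlocks_multiply]
  have b11 : B0 * B0⁻¹ + -(τ • (B0 * y1)) * (0 : Matrix Unit ι K) = 1 := by
    rw [Matrix.mul_zero, add_zero, Matrix.mul_nonsing_inv _ hBu]
  have b12 : B0 * y1 + -(τ • (B0 * y1)) * t = 0 := by
    rw [ht, Matrix.mul_smul, Matrix.mul_one, smul_neg, smul_smul, mul_comm, hτt, one_smul, add_neg_cancel]
  have b21 : (0 : Matrix Unit ι K) * B0⁻¹ + (τ • (1 : Matrix Unit Unit K)) * (0 : Matrix Unit ι K) = 0 := by
    rw [Matrix.zero_mul, Matrix.mul_zero, add_zero]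
  have b22 : (0 : Matrix Unit ι K) * y1 + (τ • (1 : Matrix Unit Unit K)) * t = 1 := by
    rw [Matrix.zero_mul, zero_add, Matrix.smul_mul, Matrix.one_mul, ht, smul_smul, hτt, one_smul]
  rw [b11, b12, b21, b22]
  exact Matrix.fromBlocks_one
-- END td

-- BEGIN te
/-- MODULE te. With `y` prescribed, if `B0 - τ` is invertible: conjugate `lemT_inv` by `fromBlocks 1 v 0 1`, `(B0 - τ) v = y0 - y` (or with the other sign). -/
theorem lemT_pre (hK : ∃ d : K, d ≠ 0 ∧ d ≠ 1) (B0 : Matrix ι ι K) {τ : K} {f1 f2 : K[X]} (h1 : f1.Monic) (h2 : f2.Monic)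
    (d1 : f1.natDegree = Fintype.card ι + 1) (d2 : f2.natDegree = Fintype.card ι + 1)
    (hdet : B0.det * τ * (f1.coeff 0 * f2.coeff 0) = 1) (hτ : (B0 - τ • (1 : Matrix ι ι K)).det ≠ 0) (y : Matrix ι Unit K) :
    ∃ Z1 Z2 : Matrix (ι ⊕ Unit) (ι ⊕ Unit) K, Z1.charpoly = f1 ∧ Z2.charpoly = f2 ∧
      fromBlocks B0 y 0 (τ • (1 : Matrix Unit Unit K)) * (Z1 * Z2) = 1 := by
  obtain ⟨Z1, Z2, y1, c1, c2, hZ⟩ := lemT_inv hK B0 h1 h2 d1 d2 hdet
  set v : Matrix ι Unit K := (B0 - τ • (1 : Matrix ι ι K))⁻¹ * (y1 - y) with hv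
  have hvv : B0 * v - τ • v = y1 - y := by
    have e : (B0 - τ • (1 : Matrix ι ι K)) * v = y1 - y := by
      rw [hv, ← Matrix.mul_assoc, Matrix.mul_nonsing_inv _ (isUnit_iff_ne_zero.2 hτ), Matrix.one_mul]
    rw [Matrix.sub_mul, Matrix.smul_mul, Matrix.one_mul] at e
    exact e
  have hP1 : (fromBlocks 1 v 0 1 : Matrix (ι ⊕ Unit) (ι ⊕ Unit) K) * fromBlocks 1 (-v) 0 1 = 1 := by
    rw [Matrix.fromBlocks_multiply]
    simp
  have hP2 : (fromBlocks 1 (-v) 0 1 : Matrix (ι ⊕ Unit) (ι ⊕ Unit) K) * fromBlocks 1 v 0 1 = 1 := by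
    rw [Matrix.fromBlocks_multiply]
    simp
  let P : (Matrix (ι ⊕ Unit) (ι ⊕ Unit) K)ˣ := ⟨fromBlocks 1 v 0 1, fromBlocks 1 (-v) 0 1, hP1, hP2⟩
  refine ⟨P.val * Z1 * P⁻¹.val, P.val * Z2 * P⁻¹.val, ?_, ?_, ?_⟩
  · rw [Matrix.coe_units_inv, Matrix.charpoly_units_conj, c1]
  · rw [Matrix.coe_units_inv, Matrix.charpoly_units_conj, c2]
  · have hF : fromBlocks B0 y 0 (τ • (1 : Matrix Unit Unit K))
        = P.val * fromBlocks B0 y1 0 (τ • (1 : Matrix Unit Unit K)) * P⁻¹.val := by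
      have e1 : P.val = fromBlocks 1 v 0 1 := rfl
      have e2 : P⁻¹.val = fromBlocks 1 (-v) 0 1 := rfl
      rw [e1, e2, Matrix.fromBlocks_multiply, Matrix.fromBlocks_multiply]
      have e3 : ((1 : Matrix ι ι K) * B0 + v * (0 : Matrix Unit ι K)) * -v +
          ((1 : Matrix ι ι K) * y1 + v * (τ • (1 : Matrix Unit Unit K))) * (1 : Matrix Unit Unit K) = y := by
        rw [Matrix.one_mul, Matrix.mul_zero, add_zero, Matrix.mul_neg, Matrix.one_mul, Matrix.mul_one, Matrix.mul_smul,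
          Matrix.mul_one]
        have e4 : y = y1 - (B0 * v - τ • v) := by rw [hvv]; abel
        rw [e4]
        abel
      rw [e3]
      simp
    rw [hF]
    have hPi : P⁻¹.val * P.val = 1 := P.inv_mul
    have hPv : P.val * P⁻¹.val = 1 := P.mul_inv
    calc P.val * fromBlocks B0 y1 0 (τ • (1 : Matrix Unit Unit K)) * P⁻¹.val * (P.val * Z1 * P⁻¹.val * (P.val * Z2 * P⁻¹.val))
        = P.val * fromBlocks B0 y1 0 (τ • (1 : Matrix Unit Unit K)) * (P⁻¹.val * P.val) * Z1 * (P⁻¹.val * P.val) * Z2 * P⁻¹.val := by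
          simp only [Matrix.mul_assoc]
      _ = P.val * (fromBlocks B0 y1 0 (τ • (1 : Matrix Unit Unit K)) * (Z1 * Z2)) * P⁻¹.val := by
          rw [hPi]
          simp only [Matrix.mul_assoc, Matrix.one_mul]
      _ = 1 := by rw [hZ, Matrix.mul_one, hPv]
-- END te

end ThPL
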