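import Pool.Agent.ThPL.Defs

/-! # Pole placement -/

namespace ThPL
open Polynomial Module

variable {K : Type*} [Field K] {V : Type*} [AddCommGroup V] [Module K V] [FiniteDimensional K V]

-- BEGIN pa
private theorem pa_all {m : ℕ} (hm : finrank K V = m + 1) (b : V →ₗ[K] K) (T : Module.End K V) {x : V}
    (hx : ∀ i < m + 1, b ((T ^ i) x) = 0) (n : ℕ) : b ((T ^ n) x) = 0 := by
  rw [LinearMap.pow_eq_aeval_mod_charpoly T n, aeval_eq_sum_range' (n := m + 1), LinearMap.sum_apply,
    map_sum]
  · refine Finset.sum_eq_zero fun i hi => ?_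
    rw [LinearMap.smul_apply, map_smul, hx i (Finset.mem_range.1 hi), smul_zero]
  · have h1 : (X ^ n %ₘ LinearMap.charpoly T).degree < (LinearMap.charpoly T).degree :=
      degree_modByMonic_lt _ (LinearMap.charpoly_monic T)
    have h2 : (LinearMap.charpoly T).natDegree = m + 1 := by
      rw [LinearMap.charpoly_natDegree, hm]
    have h3 : (LinearMap.charpoly T).degree = ((m + 1 : ℕ) : WithBot ℕ) := by
      rw [degree_eq_natDegree (LinearMap.charpoly_monic T).ne_zero, h2]
    rw [h3] at h1
    by_cases h0 : X ^ n %ₘ LinearMap.charpoly T = 0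
    · rw [h0, natDegree_zero]
      omega
    · exact (natDegree_lt_iff_degree_lt h0).2 h1

/-- MODULE pa. The chain. The submodule `S = {y : b (T^i y) = 0 for all i}` is `T`-stable inside `ker b`, so it is `⊥`. The map
`x ↦ (b (T^i x))_(i ≤ m)` is injective: if it kills `x` then `x ∈ S`, because `T^i` is a combination of the `T^j`, `j ≤ m`
(`LinearMap.pow_eq_aeval_mod_charpoly`, degree of the remainder `< m + 1`). Equal dimensions, so it is surjective. -/
theorem chain {m : ℕ} (hm : finrank K V = m + 1) (b : V →ₗ[K] K) (T : Module.End K V)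
    (h : ∀ S : Submodule K V, (∀ x ∈ S, b x = 0) → (∀ x ∈ S, T x ∈ S) → ∀ x ∈ S, x = 0) :
    ∃ x : V, (∀ i < m, b ((T ^ i) x) = 0) ∧ b ((T ^ m) x) = 1 := by
  let S : Submodule K V := ⨅ n : ℕ, LinearMap.ker (b ∘ₗ (T ^ n))
  have hS : ∀ x, x ∈ S ↔ ∀ n : ℕ, b ((T ^ n) x) = 0 := by
    intro x
    simp only [S, Submodule.mem_iInf, LinearMap.mem_ker, LinearMap.comp_apply]
  have hS0 : ∀ x ∈ S, x = 0 := by
    refine h S (fun x hx => ?_) (fun x hx => ?_)
    · have := (hS x).1 hx 0
      rwa [pow_zero] at this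
    · rw [hS]
      intro n
      have := (hS x).1 hx (n + 1)
      rwa [pow_succ, Module.End.mul_apply] at this
  let L : V →ₗ[K] (Fin (m + 1) → K) := LinearMap.pi fun i => b ∘ₗ (T ^ (i : ℕ))
  have hL : ∀ x i, L x i = b ((T ^ (i : ℕ)) x) := fun x i => rfl
  have hinj : Function.Injective L := by
    rw [← LinearMap.ker_eq_bot, LinearMap.ker_eq_bot']
    intro x hx
    refine hS0 x ((hS x).2 (pa_all hm b T fun i hi => ?_))
    have := congrFun hx ⟨i, hi⟩
    rwa [hL] at this
  have hsur : Function.Surjective L :=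
    (LinearMap.injective_iff_surjective_of_finrank_eq_finrank
      (by rw [hm, finrank_fin_fun])).1 hinj
  obtain ⟨x, hx⟩ := hsur (Pi.single (Fin.last m) 1)
  refine ⟨x, fun i hi => ?_, ?_⟩
  · have := congrFun hx ⟨i, by omega⟩
    rw [hL, Pi.single_eq_of_ne] at this
    · exact this
    · intro h
      have := congrArg Fin.val h
      simp at this
      omega
  · have := congrFun hx (Fin.last m)
    rwa [hL, Pi.single_eq_same, Fin.val_last] at this
-- END pa

-- BEGIN pb
/-- MODULE pb. `x, T x, .., T^m x` is a basis (linear independence: apply `b T^(m-i)` for the largest index `i` with non zero coefficient; then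
`basisOfLinearIndependentOfCardEqFinrank`). -/
theorem chain_basis {m : ℕ} (hm : finrank K V = m + 1) (b : V →ₗ[K] K) (T : Module.End K V) {x : V}
    (h0 : ∀ i < m, b ((T ^ i) x) = 0) (h1 : b ((T ^ m) x) = 1) :
    ∃ e : Basis (Fin (m + 1)) K V, ∀ i, e i = (T ^ (i : ℕ)) x := by
  classical
  have hli : LinearIndependent K (fun i : Fin (m + 1) => (T ^ (i : ℕ)) x) := by
    rw [Fintype.linearIndependent_iff]
    intro g hg
    by_contra hne
    have hne' : ∃ i, g i ≠ 0 := by
      by_contra h
      exact hne (fun i => by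
        by_contra hi
        exact h ⟨i, hi⟩)
    have hS : (Finset.univ.filter (fun i : Fin (m + 1) => g i ≠ 0)).Nonempty := by
      obtain ⟨i, hi⟩ := hne'
      exact ⟨i, by simp [hi]⟩
    obtain ⟨k, hk, hmax⟩ := Finset.exists_max_image _ (fun i : Fin (m + 1) => (i : ℕ)) hS
    have hgk : g k ≠ 0 := (Finset.mem_filter.1 hk).2
    apply hgk
    have h2 : b ((T ^ (m - (k : ℕ))) (∑ i, g i • (T ^ (i : ℕ)) x)) = 0 := by
      rw [hg]; simp
    rw [map_sum, map_sum, Finset.sum_eq_single k] at h2
    · rw [map_smul, map_smul, ← Module.End.mul_apply, ← pow_add] at h2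
      have h3 : m - (k : ℕ) + (k : ℕ) = m := by have := k.2; omega
      rw [h3, h1] at h2
      simpa using h2
    · intro i _ hik
      rw [map_smul, map_smul, ← Module.End.mul_apply, ← pow_add]
      by_cases hi : g i = 0
      · rw [hi]; simp
      · have h4 := hmax i (Finset.mem_filter.2 ⟨Finset.mem_univ _, hi⟩)
        have h5 : (i : ℕ) ≠ (k : ℕ) := fun h => hik (Fin.ext h)
        have h6 : m - (k : ℕ) + (i : ℕ) < m := by have := k.2; omega
        rw [h0 _ h6]; simp
    · intro h
      exact absurd (Finset.mem_univ k) h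
  refine ⟨basisOfLinearIndependentOfCardEqFinrank hli (by rw [hm, Fintype.card_fin]), fun i => ?_⟩
  rw [coe_basisOfLinearIndependentOfCardEqFinrank]
-- END pb

-- BEGIN pc
/-- MODULE pc. Characteristic polynomial of a companion matrix. `Z^i e_0 = e_i` for `i ≤ m`, `f(Z) e_0 = 0`, and `g(Z) e_0 ≠ 0` for `g ≠ 0` of degree `≤ m`;
so `Z.charpoly - f` (degree `≤ m`, both monic of degree `m + 1`), which kills `e_0` (Cayley-Hamilton), is `0`. -/
theorem charpoly_chain {m : ℕ} (e : Basis (Fin (m + 1)) K V) (Z : Module.End K V) {f : K[X]} (hf : f.Monic) (hd : f.natDegree = m + 1)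
    (h1 : ∀ (i : ℕ) (hi : i + 1 < m + 1), Z (e ⟨i, by omega⟩) = e ⟨i + 1, hi⟩)
    (h2 : Z (e (Fin.last m)) = -∑ i : Fin (m + 1), f.coeff i • e i) : Z.charpoly = f := by
  have hpow : ∀ (i : ℕ) (hi : i < m + 1), (Z ^ i) (e 0) = e ⟨i, hi⟩ := by
    intro i
    induction i with
    | zero => intro hi; simp
    | succ i ih =>
      intro hi
      rw [pow_succ', Module.End.mul_apply, ih (by omega), h1 i hi]
  have hfr : finrank K V = m + 1 := by
    rw [finrank_eq_card_basis e, Fintype.card_fin]
  -- evaluation of a polynomial of degree < m + 1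
  have hev : ∀ g : K[X], g.natDegree < m + 1 → aeval Z g (e 0) = ∑ i : Fin (m + 1), g.coeff i • e i := by
    intro g hg
    rw [aeval_eq_sum_range' hg, LinearMap.sum_apply, Finset.sum_range]
    refine Finset.sum_congr rfl fun i _ => ?_
    rw [LinearMap.smul_apply, hpow i i.2]
  have hf0 : aeval Z f (e 0) = 0 := by
    rw [aeval_eq_sum_range, hd, LinearMap.sum_apply, Finset.sum_range_succ, Finset.sum_range]
    have e1 : ∀ i : Fin (m + 1), (f.coeff (i : ℕ) • Z ^ (i : ℕ)) (e 0) = f.coeff i • e i := by
      intro i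
      rw [LinearMap.smul_apply, hpow i i.2]
    rw [Finset.sum_congr rfl fun i _ => e1 i, LinearMap.smul_apply, pow_succ', Module.End.mul_apply, hpow m (Nat.lt_succ_self m)]
    have e2 : (⟨m, Nat.lt_succ_self m⟩ : Fin (m + 1)) = Fin.last m := rfl
    have e3 : f.coeff (m + 1) = 1 := by
      have := hf.coeff_natDegree
      rwa [hd] at this
    rw [e2, h2, e3, one_smul, add_neg_cancel]
  have hc0 : aeval Z Z.charpoly (e 0) = 0 := by
    rw [LinearMap.aeval_self_charpoly, LinearMap.zero_apply]
  have hcm : Z.charpoly.Monic := LinearMap.charpoly_monic Z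
  have hcd : Z.charpoly.natDegree = m + 1 := by
    rw [LinearMap.charpoly_natDegree, hfr]
  have hg0 : aeval Z (Z.charpoly - f) (e 0) = 0 := by
    rw [map_sub, LinearMap.sub_apply, hc0, hf0, sub_zero]
  have hgd : (Z.charpoly - f).natDegree < m + 1 := by
    by_cases h0 : Z.charpoly - f = 0
    · rw [h0, natDegree_zero]; omega
    · rw [natDegree_lt_iff_degree_lt h0]
      have h3 : Z.charpoly.degree = f.degree := by
        rw [degree_eq_natDegree hcm.ne_zero, degree_eq_natDegree hf.ne_zero, hcd, hd]
      have h4 := degree_sub_lt_left h3 hcm.ne_zero (by rw [hcm.leadingCoeff, hf.leadingCoeff])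
      rwa [degree_eq_natDegree hcm.ne_zero, hcd] at h4
  rw [hev _ hgd] at hg0
  have hli := (Fintype.linearIndependent_iff.1 e.linearIndependent) (fun i => (Z.charpoly - f).coeff i) hg0
  have hz : Z.charpoly - f = 0 := by
    ext n
    rw [coeff_zero]
    by_cases hn : n < m + 1
    · exact hli ⟨n, hn⟩
    · exact coeff_eq_zero_of_natDegree_lt (by omega)
  exact sub_eq_zero.1 hz
-- END pc

-- BEGIN pd
theorem pole (b : V →ₗ[K] K) (T : Module.End K V)
    (h : ∀ S : Submodule K V, (∀ x ∈ S, b x = 0) → (∀ x ∈ S, T x ∈ S) → ∀ x ∈ S, x = 0)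
    {f : K[X]} (hf : f.Monic) (hd : f.natDegree = finrank K V) :
    ∃ Z : Module.End K V, (∀ x, b x = 0 → Z x = T x) ∧ Z.charpoly = f := by
  rcases hfr : finrank K V with _ | m
  · refine ⟨T, fun x _ => rfl, ?_⟩
    have h1 : T.charpoly = 1 := Polynomial.eq_one_of_monic_natDegree_zero (LinearMap.charpoly_monic T) (by
      rw [LinearMap.charpoly_natDegree, hfr])
    have h2 : f = 1 := Polynomial.eq_one_of_monic_natDegree_zero hf (by rw [hd, hfr])
    rw [h1, h2]
  · obtain ⟨x, h0, h1⟩ := chain hfr b T h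
    obtain ⟨e, he⟩ := chain_basis hfr b T h0 h1
    let w : Fin (m + 1) → V := fun i =>
      if hi : (i : ℕ) + 1 < m + 1 then e ⟨(i : ℕ) + 1, hi⟩ else -∑ j : Fin (m + 1), f.coeff j • e j
    let Z : Module.End K V := e.constr K w
    have hZ : ∀ i, Z (e i) = w i := fun i => e.constr_basis K w i
    refine ⟨Z, ?_, ?_⟩
    · intro y hy
      have hbe : ∀ i : Fin (m + 1), b (e i) = if i = Fin.last m then 1 else 0 := by
        intro i
        rw [he i]
        by_cases hi : i = Fin.last m
        · rw [if_pos hi, hi]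
          exact h1
        · rw [if_neg hi]
          refine h0 i ?_
          have := Fin.val_lt_last hi
          exact this
      have hlast : e.repr y (Fin.last m) = 0 := by
        have h2 : b y = ∑ i, e.repr y i * b (e i) := by
          conv_lhs => rw [← e.sum_repr y]
          rw [map_sum]
          exact Finset.sum_congr rfl fun i _ => by rw [map_smul, smul_eq_mul]
        rw [hy] at h2
        simp only [hbe, mul_ite, mul_one, mul_zero, Finset.sum_ite_eq', Finset.mem_univ, if_true] at h2
        exact h2.symm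
      conv_lhs => rw [← e.sum_repr y]
      conv_rhs => rw [← e.sum_repr y]
      rw [map_sum, map_sum]
      refine Finset.sum_congr rfl fun i _ => ?_
      rw [map_smul, map_smul]
      by_cases hi : (i : ℕ) + 1 < m + 1
      · have h3 : Z (e i) = T (e i) := by
          rw [hZ i]
          change (if hi : (i : ℕ) + 1 < m + 1 then e ⟨(i : ℕ) + 1, hi⟩ else -∑ j : Fin (m + 1), f.coeff j • e j) = _
          rw [dif_pos hi, he, he, pow_succ', Module.End.mul_apply]
        rw [h3]
      · have h4 : i = Fin.last m := by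
          apply Fin.ext
          rw [Fin.val_last]
          have := i.isLt
          omega
        rw [h4, hlast, zero_smul, zero_smul]
    · refine charpoly_chain e Z hf (hd.trans hfr) ?_ ?_
      · intro i hi
        rw [hZ]
        change (if hi : i + 1 < m + 1 then e ⟨i + 1, hi⟩ else -∑ j : Fin (m + 1), f.coeff j • e j) = _
        rw [dif_pos hi]
      · rw [hZ]
        change (if hi : ((Fin.last m : Fin (m + 1)) : ℕ) + 1 < m + 1 then e ⟨((Fin.last m : Fin (m + 1)) : ℕ) + 1, hi⟩
          else -∑ j : Fin (m + 1), f.coeff j • e j) = _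
        rw [dif_neg (by rw [Fin.val_last]; omega)]
-- END pd

end ThPL
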